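import Mathlib

/-!
Kernel friendly checker for statements of the form
for every point `x` of a rational box one of finitely many polynomials is positive
(or nonnegative) at `x`.
A polynomial is a difference of two polynomials with natural coefficients.
After the substitution `x = (a + b t) / (q (1 + t))` in every variable the box becomes the
orthant `t ≥ 0`; the coefficients are packed into one natural number (Kronecker substitution in
base `2 ^ w`).  Halving the box in one coordinate is the substitution `t ↦ t / (2 + t)` or
`t ↦ 1 + 2 t`, which is done on the packed number by masks.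
-/

namespace Pool.Agent.Lib.BoxPos

/-- nested coefficient lists, one level for every variable, outermost variable first;
the list of natural numbers holds the degree bounds -/
@[reducible] def NP : List ℕ → Type
  | [] => ℕ
  | _ :: ds => List (NP ds)

/-- number of coefficients -/
def sz : List ℕ → ℕ
  | [] => 1
  | d :: ds => (d + 1) * sz ds

/-- the list `u^e v^r, u^(e+1) v^(r-1), …, u^(e+r)` -/
def tab (u v : ℕ) : ℕ → ℕ → List ℕ
  | e, 0 => [u ^ e]
  | e, r + 1 => (u ^ e * v ^ (r + 1)) :: tab u v (e + 1) r

/-- dot product -/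
def dotL {α : Type} (f : α → ℕ) : List ℕ → List α → ℕ
  | A :: As, p :: ps => A * f p + dotL f As ps
  | _, _ => 0

/-- packed value -/
def hom : (ds : List ℕ) → List (List ℕ) → NP ds → ℕ
  | [], _, n => n
  | _ :: ds, T :: Ts, ps => dotL (hom ds Ts) T ps
  | _ :: _, [], _ => 0

/-- tables for a box; a side of the box is `[a/q, b/q)` -/
def tabs (w : ℕ) : List ℕ → List (ℕ × ℕ × ℕ) → List (List ℕ)
  | d :: ds, (a, b, q) :: bs =>
      tab (a + b * 2 ^ (w * sz ds)) (q * (1 + 2 ^ (w * sz ds))) 0 d :: tabs w ds bs
  | _, _ => []

/-- bound for the tables at `t = 1` -/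
def prodm : List ℕ → List (ℕ × ℕ × ℕ) → ℕ
  | d :: ds, (a, b, q) :: bs => (max (a + b) (2 * q)) ^ d * prodm ds bs
  | _, _ => 1

/-- sum of coefficients -/
def sumc : (ds : List ℕ) → NP ds → ℕ
  | [], n => n
  | _ :: ds, ps => (ps.map (sumc ds)).sum

/-- the number with `L` digits one in base `2^w` -/
def ones (w L : ℕ) : ℕ := (2 ^ (w * L) - 1) / (2 ^ w - 1)

/-- certificate -/
inductive Tree where
  | leaf (ls : List ℕ) : Tree
  | split (j : ℕ) (l r : Tree) : Tree
  | drop (j : ℕ) (t : Tree) : Tree

/-- data of one variable: degree factor, shift, mask, table left, table right -/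
inductive Info where
  | mk (g ws mask : ℕ) (L R : List ℕ) : Info

/-- continue with an evaluated number -/
noncomputable def force {α : Type} (n : ℕ) (k : ℕ → α) : α :=
  Nat.rec (motive := fun _ => α) (k 0) (fun n _ => k (Nat.succ n)) n

/-- continue with an evaluated list -/
noncomputable def forceList {α : Type} (l : List ℕ) (k : List ℕ → α) : α :=
  List.rec (motive := fun _ => (List ℕ → α) → α) (fun k => k [])
    (fun a _ ih k => force a fun a' => ih fun l' => k (a' :: l')) l k

/-- substitution in one variable on a packed number -/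
noncomputable def slc (ws mask N : ℕ) (T : List ℕ) : ℕ → ℕ :=
  List.rec (motive := fun _ => ℕ → ℕ) (fun _ => 0)
    (fun A _ ih sh => Nat.add (Nat.mul (Nat.land (Nat.shiftRight N sh) mask) A)
      (ih (Nat.add sh ws))) T

/-- data of all variables -/
noncomputable def infos (w : ℕ) (ds : List ℕ) : ℕ → List Info :=
  List.rec (motive := fun _ => ℕ → List Info) (fun _ => [])
    (fun d ds ih H =>
      force (3 ^ d) fun g =>
      force (w * sz ds) fun ws =>
      force ((2 ^ ws - 1) * ones (ws * (d + 1)) H) fun mask =>
      forceList (tab (2 ^ ws) (2 + 2 ^ ws) 0 d) fun L =>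
      forceList (tab (1 + 2 * 2 ^ ws) 1 0 d) fun R =>
      Info.mk g ws mask L R :: ih (H * (d + 1))) ds

/-- entry of the list of data -/
noncomputable def nth (j : ℕ) (I : List Info) : Info :=
  List.rec (motive := fun _ => ℕ → Info) (fun _ => .mk 0 0 0 [] [])
    (fun i _ ih j => Nat.rec (motive := fun _ => Info) i (fun j _ => ih j) j) I j

/-- substitution in one variable on all packed numbers -/
noncomputable def stp (ws mask : ℕ) (T : List ℕ) (st : List ℕ) : List ℕ :=
  List.rec (motive := fun _ => List ℕ) []
    (fun N _ ih => force (slc ws mask N T 0) (fun x => x :: ih)) st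

/-- weighted sum -/
noncomputable def dot (ls : List ℕ) : List ℕ → ℕ :=
  List.rec (motive := fun _ => List ℕ → ℕ) (fun _ => 0)
    (fun l _ ih st => List.rec (motive := fun _ => ℕ) 0 (fun N st' _ =>
      Nat.rec (motive := fun _ => ℕ) (ih st')
        (fun l' _ => Nat.add (Nat.mul (Nat.succ l') N) (ih st')) l) st) ls

/-- sum -/
noncomputable def sumL (ls : List ℕ) : ℕ :=
  List.rec (motive := fun _ => ℕ) 0 (fun l _ ih => Nat.add l ih) ls

/-- test that all digits of `X` are at least those of `Y` -/
def testXY (X Y hm : ℕ) : Bool :=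
  cond (Nat.ble Y X) (Nat.beq (Nat.land (Nat.sub X Y) hm) 0) false

/-- remove one entry -/
noncomputable def rem (j : ℕ) (st : List ℕ) : List ℕ :=
  List.rec (motive := fun _ => ℕ → List ℕ) (fun _ => [])
    (fun N st ih j => Nat.rec (motive := fun _ => List ℕ) st (fun j _ => N :: ih j) j) st j

/-- some weight is positive -/
noncomputable def posl (ls : List ℕ) : List ℕ → Bool :=
  List.rec (motive := fun _ => List ℕ → Bool) (fun _ => false)
    (fun l _ ih st => List.rec (motive := fun _ => Bool) false (fun _ st' _ =>
      Nat.rec (motive := fun _ => Bool) (ih st') (fun _ _ => true) l) st) ls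

/-- the check; `hB = 2^(w-1)`, `o` is `ones w L` or `0`, `hm` is `ones w L * 2^(w-1)`,
`S` is a bound for the sums of coefficients -/
noncomputable def run (I : List Info) (o hm hB : ℕ) (t : Tree) : ℕ → List ℕ → List ℕ → Bool :=
  Tree.rec (motive := fun _ => ℕ → List ℕ → List ℕ → Bool)
    (fun ls S st su => cond (Nat.ble (Nat.add (Nat.mul (sumL ls) S) 2) hB)
      (cond (cond (Nat.ble 1 o) true (posl ls st))
        (testXY (dot ls st) (Nat.add (dot ls su) o) hm) false) false)
    (fun j _ _ ihl ihr S st su =>
      Info.rec (motive := fun _ => Bool) (fun g ws mask L R =>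
        cond (Nat.ble 1 g) (cond (Nat.ble S hB)
        (force (Nat.mul S g) fun S' =>
        cond (ihl S' (stp ws mask L st) (stp ws mask L su))
          (ihr S' (stp ws mask R st) (stp ws mask R su)) false) false) false) (nth j I))
    (fun j _ ih S st su => ih S (rem j st) (rem j su)) t

/-- packed numbers at the root, positive parts -/
def startP (w : ℕ) (ds : List ℕ) (bs : List (ℕ × ℕ × ℕ)) : List (NP ds × NP ds) → List ℕ
  | [] => []
  | (p, _) :: Ps => hom ds (tabs w ds bs) p :: startP w ds bs Ps

/-- packed numbers at the root, negative parts -/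
def startM (w : ℕ) (ds : List ℕ) (bs : List (ℕ × ℕ × ℕ)) : List (NP ds × NP ds) → List ℕ
  | [] => []
  | (_, m) :: Ps => hom ds (tabs w ds bs) m :: startM w ds bs Ps

/-- largest sum of coefficients -/
def maxS (ds : List ℕ) : List (NP ds × NP ds) → ℕ
  | [] => 1
  | (p, m) :: Ps => max (max (sumc ds p) (sumc ds m)) (maxS ds Ps)

/-- lists have the right length -/
def wf : (ds : List ℕ) → NP ds → Bool
  | [], _ => true
  | d :: ds, ps => Nat.ble ps.length (d + 1) && ps.all (wf ds)

/-- all polynomials have the right shape -/
def wfs (ds : List ℕ) : List (NP ds × NP ds) → Bool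
  | [] => true
  | (p, m) :: Ps => wf ds p && (wf ds m && wfs ds Ps)

/-- the box is nonempty and in the orthant -/
def boxOK : List ℕ → List (ℕ × ℕ × ℕ) → Bool
  | [], [] => true
  | _ :: ds, (a, b, q) :: bs => Nat.blt a b && (Nat.blt 0 q && boxOK ds bs)
  | _, _ => false

/-- the whole check; `s = 1` for strict inequalities and `s = 0` for non strict ones -/
noncomputable def check (w s : ℕ) (ds : List ℕ) (bs : List (ℕ × ℕ × ℕ))
    (Ps : List (NP ds × NP ds)) (t : Tree) : Bool :=
  cond (Nat.blt 0 w) (cond (boxOK ds bs) (cond (wfs ds Ps)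
    (force (s * ones w (sz ds)) fun o => force (ones w (sz ds) * 2 ^ (w - 1)) fun hm =>
      force (2 ^ (w - 1)) fun hB => force (maxS ds Ps * prodm ds bs) fun S =>
      forceList (startP w ds bs Ps) fun st => forceList (startM w ds bs Ps) fun su =>
      run (infos w ds 1) o hm hB t S st su) false) false) false

end Pool.Agent.Lib.BoxPos
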