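import Pool.Agent.Lib.BoxPos.Front

/-!
Version for disjunctions of conjunctions: for every point of the box there is a group of
polynomials which are all positive (nonnegative) there.
-/

namespace Pool.Agent.Lib.BoxPos

/-- certificate; a leaf names a group -/
inductive GTree where
  | leaf (g : ℕ) : GTree
  | split (j : ℕ) (l r : GTree) : GTree
  | drop (g : ℕ) (t : GTree) : GTree

/-- test of a group -/
noncomputable def testG (o hm : ℕ) (st : List ℕ) : List ℕ → Bool :=
  List.rec (motive := fun _ => List ℕ → Bool) (fun _ => true)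
    (fun N _ ih su => List.rec (motive := fun _ => Bool) false
      (fun M su' _ => cond (testXY N (Nat.add M o) hm) (ih su') false) su) st

/-- find the group and test it -/
noncomputable def testN (o hm : ℕ) (g : ℕ) (st : List (List ℕ)) : List (List ℕ) → Bool :=
  List.rec (motive := fun _ => ℕ → List (List ℕ) → Bool) (fun _ _ => false)
    (fun G _ ih g su => List.rec (motive := fun _ => Bool) false
      (fun G' su' _ => Nat.rec (motive := fun _ => Bool) (testG o hm G G')
        (fun g' _ => ih g' su') g) su) st g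

/-- substitution in all groups -/
noncomputable def stpG (ws mask : ℕ) (T : List ℕ) (st : List (List ℕ)) : List (List ℕ) :=
  List.rec (motive := fun _ => List (List ℕ)) []
    (fun G _ ih => stp ws mask T G :: ih) st

/-- remove one group -/
noncomputable def remG (j : ℕ) (st : List (List ℕ)) : List (List ℕ) :=
  List.rec (motive := fun _ => ℕ → List (List ℕ)) (fun _ => [])
    (fun N st ih j => Nat.rec (motive := fun _ => List (List ℕ)) st (fun j _ => N :: ih j) j) st j

/-- the check -/
noncomputable def runG (I : List Info) (o hm hB : ℕ) (t : GTree) :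
    ℕ → List (List ℕ) → List (List ℕ) → Bool :=
  GTree.rec (motive := fun _ => ℕ → List (List ℕ) → List (List ℕ) → Bool)
    (fun g S st su => cond (Nat.ble (Nat.add S 2) hB) (testN o hm g st su) false)
    (fun j _ _ ihl ihr S st su =>
      Info.rec (motive := fun _ => Bool) (fun g ws mask L R =>
        cond (Nat.ble 1 g) (cond (Nat.ble S hB)
        (force (Nat.mul S g) fun S' =>
        cond (ihl S' (stpG ws mask L st) (stpG ws mask L su))
          (ihr S' (stpG ws mask R st) (stpG ws mask R su)) false) false) false) (nth j I))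
    (fun j _ ih S st su => ih S (remG j st) (remG j su)) t

/-- the state at a node -/
def RelG (w L S : ℕ) : List (List ℕ) → List (List ℕ) → List (List ((ℕ → ℕ) × (ℕ → ℕ))) → Prop
  | [], [], [] => True
  | G :: st, G' :: su, c :: cs => Rel w L S G G' c ∧ RelG w L S st su cs
  | _, _, _ => False

/-- the conclusion at a point for one pair -/
def Good1 (s : ℕ) (ds : List ℕ) (T : List ℝ) (p : (ℕ → ℕ) × (ℕ → ℕ)) : Prop :=
  val ds T p.2 ≤ val ds T p.1 ∧ (s ≠ 0 → val ds T p.2 < val ds T p.1)

/-- the conclusion at a point -/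
def GoodG (s : ℕ) (ds : List ℕ) (T : List ℝ) (cs : List (List ((ℕ → ℕ) × (ℕ → ℕ)))) : Prop :=
  ∃ G ∈ cs, ∀ p ∈ G, Good1 s ds T p

lemma leaf1 {w s S : ℕ} (hw : 0 < w) {ds : List ℕ} {c u : ℕ → ℕ} (hs : s ≤ 1)
    (hc : ∑ n ∈ Finset.range (sz ds), c n ≤ S) (hu : ∑ n ∈ Finset.range (sz ds), u n ≤ S)
    (hb : S + 2 ≤ 2 ^ (w - 1))
    (ht : testXY (pk w c (sz ds)) (pk w u (sz ds) + s * ones w (sz ds))
      (ones w (sz ds) * 2 ^ (w - 1)) = true)
    (T : List ℝ) (hT : ∀ t ∈ T, 0 ≤ t) : Good1 s ds T (c, u) := by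
  have hr : Rel w (sz ds) S [pk w c (sz ds)] [pk w u (sz ds)] [(c, u)] :=
    ⟨rfl, rfl, hc, hu, trivial⟩
  have h1 : ∀ N : ℕ, dot [1] [N] = N := by
    intro N
    rw [dot_cons]
    have : dot [] [] = 0 := rfl
    rw [this, one_mul, add_zero]
  have hg := leaf_good hw (s := s) (ls := [1]) hr hs
    (by
      have : sumL [1] = 1 := rfl
      rw [this]
      omega)
    (fun _ => rfl) (by rw [h1, h1]; exact ht) T hT
  obtain ⟨p, hp, h2⟩ := hg
  have : p = (c, u) := by simpa using hp
  rw [this] at h2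
  exact h2

lemma testG_good {w s S : ℕ} (hw : 0 < w) {ds : List ℕ} (hs : s ≤ 1) (hb : S + 2 ≤ 2 ^ (w - 1)) :
    ∀ {st su : List ℕ} {cs : List ((ℕ → ℕ) × (ℕ → ℕ))}, Rel w (sz ds) S st su cs →
    testG (s * ones w (sz ds)) (ones w (sz ds) * 2 ^ (w - 1)) st su = true →
    ∀ T : List ℝ, (∀ t ∈ T, 0 ≤ t) → ∀ p ∈ cs, Good1 s ds T p
  | [], [], [], _, _, T, _, p, hp => by simp at hp
  | N :: st, M :: su, (c, u) :: cs, h, ht, T, hT, p, hp => by
      obtain ⟨h1, h2, h3, h4, h5⟩ := h
      have e : testG (s * ones w (sz ds)) (ones w (sz ds) * 2 ^ (w - 1)) (N :: st) (M :: su) =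
        cond (testXY N (M + s * ones w (sz ds)) (ones w (sz ds) * 2 ^ (w - 1)))
          (testG (s * ones w (sz ds)) (ones w (sz ds) * 2 ^ (w - 1)) st su) false := rfl
      rw [e, Bool.cond_eq_ite] at ht
      split_ifs at ht with h6
      rcases List.mem_cons.1 hp with rfl | hp
      · rw [h1, h2] at h6
        exact leaf1 hw hs h3 h4 hb h6 T hT
      · exact testG_good hw hs hb h5 ht T hT p hp
  | [], [], _ :: _, h, _, _, _, _, _ => h.elim
  | [], _ :: _, _, h, _, _, _, _, _ => h.elim
  | _ :: _, [], _, h, _, _, _, _, _ => h.elim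
  | _ :: _, _ :: _, [], h, _, _, _, _, _ => h.elim

lemma testN_good {w s S : ℕ} (hw : 0 < w) {ds : List ℕ} (hs : s ≤ 1) (hb : S + 2 ≤ 2 ^ (w - 1)) :
    ∀ {st su : List (List ℕ)} {cs : List (List ((ℕ → ℕ) × (ℕ → ℕ)))} (g : ℕ),
    RelG w (sz ds) S st su cs →
    testN (s * ones w (sz ds)) (ones w (sz ds) * 2 ^ (w - 1)) g st su = true →
    ∀ T : List ℝ, (∀ t ∈ T, 0 ≤ t) → GoodG s ds T cs
  | [], [], [], g, _, ht, T, _ => by
      have : testN (s * ones w (sz ds)) (ones w (sz ds) * 2 ^ (w - 1)) g [] [] = false := rfl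
      rw [this] at ht
      simp at ht
  | G :: st, G' :: su, c :: cs, 0, h, ht, T, hT => by
      have e : testN (s * ones w (sz ds)) (ones w (sz ds) * 2 ^ (w - 1)) 0 (G :: st) (G' :: su) =
        testG (s * ones w (sz ds)) (ones w (sz ds) * 2 ^ (w - 1)) G G' := rfl
      rw [e] at ht
      exact ⟨c, by simp, testG_good hw hs hb h.1 ht T hT⟩
  | G :: st, G' :: su, c :: cs, g + 1, h, ht, T, hT => by
      have e : testN (s * ones w (sz ds)) (ones w (sz ds) * 2 ^ (w - 1)) (g + 1) (G :: st)
        (G' :: su) = testN (s * ones w (sz ds)) (ones w (sz ds) * 2 ^ (w - 1)) g st su := rfl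
      rw [e] at ht
      obtain ⟨c', hc', h1⟩ := testN_good hw hs hb g h.2 ht T hT
      exact ⟨c', by simp [hc'], h1⟩
  | [], [], _ :: _, _, h, _, _, _ => h.elim
  | [], _ :: _, _, _, h, _, _, _ => h.elim
  | _ :: _, [], _, _, h, _, _, _ => h.elim
  | _ :: _, _ :: _, [], _, h, _, _, _ => h.elim

open Finset Polynomial

lemma relG_stp {w s d H S : ℕ} (hw : 0 < w) (hs : 0 < s) {u v : ℕ[X]} (hu : u.natDegree ≤ 1)
    (hv : v.natDegree ≤ 1) (hu1 : aeval (1 : ℕ) u ≤ 3) (hv1 : aeval (1 : ℕ) v ≤ 3)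
    {U V : ℕ} (hU : U = aeval (2 ^ (w * s) : ℕ) u) (hV : V = aeval (2 ^ (w * s) : ℕ) v)
    (hS : S < 2 ^ w) : ∀ {st su : List (List ℕ)} {cs : List (List ((ℕ → ℕ) × (ℕ → ℕ)))},
    RelG w (H * ((d + 1) * s)) S st su cs →
    RelG w (H * ((d + 1) * s)) (S * 3 ^ d)
      (stpG (w * s) ((2 ^ (w * s) - 1) * ones (w * s * (d + 1)) H) (tab U V 0 d) st)
      (stpG (w * s) ((2 ^ (w * s) - 1) * ones (w * s * (d + 1)) H) (tab U V 0 d) su)
      (cs.map (trs s u v d))
  | [], [], [], _ => trivial
  | G :: st, G' :: su, c :: cs, h =>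
      ⟨rel_stp hw hs hu hv hu1 hv1 hU hV hS h.1,
        relG_stp hw hs hu hv hu1 hv1 hU hV hS h.2⟩
  | [], [], _ :: _, h => h.elim
  | [], _ :: _, _, h => h.elim
  | _ :: _, [], _, h => h.elim
  | _ :: _, _ :: _, [], h => h.elim

lemma relG_rem {w L S : ℕ} : ∀ (j : ℕ) {st su : List (List ℕ)}
    {cs : List (List ((ℕ → ℕ) × (ℕ → ℕ)))},
    RelG w L S st su cs → RelG w L S (remG j st) (remG j su) (cs.eraseIdx j)
  | j, [], [], [], _ => by
      have : remG j [] = [] := rfl
      rw [this]
      cases j <;> trivial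
  | 0, N :: st, M :: su, c :: cs, h => h.2
  | j + 1, N :: st, M :: su, c :: cs, h => ⟨h.1, relG_rem j h.2⟩
  | _, [], [], _ :: _, h => h.elim
  | _, [], _ :: _, _, h => h.elim
  | _, _ :: _, [], _, h => h.elim
  | _, _ :: _, _ :: _, [], h => h.elim

lemma goodG_trs {s' : ℕ} {ds : List ℕ} {j H d s : ℕ} (h : Spl ds j H d s) {T : List ℝ}
    (hT : T.length = ds.length) {u v : ℕ[X]} (hu : u.natDegree ≤ 1) (hv : v.natDegree ≤ 1)
    (t t' k : ℝ) (hk : 0 < k) (h1 : aeval t' u = k * t) (h2 : aeval t' v = k)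
    (cs : List (List ((ℕ → ℕ) × (ℕ → ℕ))))
    (hg : GoodG s' ds (T.set j t') (cs.map (trs s u v d))) :
    GoodG s' ds (T.set j t) cs := by
  obtain ⟨G, hG, hG1⟩ := hg
  obtain ⟨G0, hG0, rfl⟩ := List.mem_map.1 hG
  refine ⟨G0, hG0, fun p hp => ?_⟩
  have h3 := hG1 (tr s u v d p.1, tr s u v d p.2) (List.mem_map.2 ⟨p, hp, rfl⟩)
  obtain ⟨h4, h5⟩ := h3
  have hkd : 0 < k ^ d := by positivity
  simp only [val_tr h hT hu hv t t' k h1 h2] at h4 h5
  exact ⟨le_of_mul_le_mul_left h4 hkd, fun hs => lt_of_mul_lt_mul_left (h5 hs) hkd.le⟩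

lemma goodG_erase {s : ℕ} {ds : List ℕ} {T : List ℝ}
    {cs : List (List ((ℕ → ℕ) × (ℕ → ℕ)))} {j : ℕ}
    (h : GoodG s ds T (cs.eraseIdx j)) : GoodG s ds T cs := by
  obtain ⟨p, hp, h1⟩ := h
  exact ⟨p, (List.eraseIdx_sublist cs j).subset hp, h1⟩

lemma runG_leaf (I : List Info) (o hm hB : ℕ) (g : ℕ) (S : ℕ) (st su : List (List ℕ)) :
    runG I o hm hB (.leaf g) S st su =
      cond (Nat.ble (S + 2) hB) (testN o hm g st su) false := rfl

lemma runG_drop (I : List Info) (o hm hB : ℕ) (j : ℕ) (t : GTree) (S : ℕ)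
    (st su : List (List ℕ)) :
    runG I o hm hB (.drop j t) S st su = runG I o hm hB t S (remG j st) (remG j su) := rfl

lemma runG_split (I : List Info) (o hm hB : ℕ) (j : ℕ) (l r : GTree) (S : ℕ)
    (st su : List (List ℕ))
    {g ws mask : ℕ} {L R : List ℕ} (h : nth j I = .mk g ws mask L R) :
    runG I o hm hB (.split j l r) S st su =
        cond (Nat.ble 1 g) (cond (Nat.ble S hB)
        (cond (runG I o hm hB l (S * g) (stpG ws mask L st) (stpG ws mask L su))
          (runG I o hm hB r (S * g) (stpG ws mask R st) (stpG ws mask R su)) false) false)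
          false := by
  have h1 : runG I o hm hB (.split j l r) S st su = Info.rec (motive := fun _ => Bool)
      (fun g ws mask L R =>
        cond (Nat.ble 1 g) (cond (Nat.ble S hB)
        (force (Nat.mul S g) fun S' =>
        cond (runG I o hm hB l S' (stpG ws mask L st) (stpG ws mask L su))
          (runG I o hm hB r S' (stpG ws mask R st) (stpG ws mask R su)) false) false) false)
      (nth j I) := rfl
  rw [h1, h]
  simp only [force_eq]
  rfl

theorem runG_sound {w s : ℕ} (hw : 0 < w) (hs : s ≤ 1) {ds : List ℕ} : ∀ (t : GTree) (S : ℕ)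
    (st su : List (List ℕ)) (cs : List (List ((ℕ → ℕ) × (ℕ → ℕ)))),
    RelG w (sz ds) S st su cs →
    runG (infos w ds 1) (s * ones w (sz ds)) (ones w (sz ds) * 2 ^ (w - 1)) (2 ^ (w - 1)) t S
      st su = true →
    ∀ T : List ℝ, T.length = ds.length → (∀ t ∈ T, 0 ≤ t) → GoodG s ds T cs
  | .leaf g, S, st, su, cs, hr, h, T, hT, hT0 => by
      rw [runG_leaf, Bool.cond_eq_ite] at h
      split_ifs at h with h1
      exact testN_good hw hs (Nat.le_of_ble_eq_true h1) g hr h T hT0
  | .drop j t, S, st, su, cs, hr, h, T, hT, hT0 => by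
      rw [runG_drop] at h
      exact goodG_erase (runG_sound hw hs t S _ _ _ (relG_rem j hr) h T hT hT0)
  | .split j l r, S, st, su, cs, hr, h, T, hT, hT0 => by
      rcases lt_or_ge j ds.length with hj | hj
      · obtain ⟨H, d, s', hsp⟩ := exists_spl ds j hj
        have hI := nth_infos (w := w) 1 hsp
        rw [one_mul] at hI
        rw [runG_split _ _ _ _ _ _ _ _ _ _ hI] at h
        simp only [Bool.cond_eq_ite] at h
        split_ifs at h with h1 h2 h3
        have hS : S < 2 ^ w := by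
          have h4 : S ≤ 2 ^ (w - 1) := Nat.le_of_ble_eq_true h2
          have h5 : (2 : ℕ) ^ (w - 1) < 2 ^ w := Nat.pow_lt_pow_right (by norm_num) (by omega)
          omega
        have hs' := spl_s_pos hsp
        have hr' := hr
        rw [spl_sz hsp] at hr'
        have hX1 : (X : ℕ[X]).natDegree ≤ 1 := natDegree_X_le
        have hX2 : (2 + X : ℕ[X]).natDegree ≤ 1 := by
          have : (2 + X : ℕ[X]) = C 1 * X + C 2 := by simp; ring
          rw [this]
          exact natDegree_linear_le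
        have hX3 : (1 + 2 * X : ℕ[X]).natDegree ≤ 1 := by
          have : (1 + 2 * X : ℕ[X]) = C 2 * X + C 1 := by simp; ring
          rw [this]
          exact natDegree_linear_le
        have hX4 : (1 : ℕ[X]).natDegree ≤ 1 := by simp
        have h2R : ∀ x : ℝ, aeval x (2 : ℕ[X]) = 2 := fun x => map_ofNat (aeval x) 2
        have hTj : T.set j (T[j]'(by omega)) = T := List.set_getElem_self _
        set t := T[j]'(by omega) with ht
        have htn : 0 ≤ t := hT0 t (List.getElem_mem _)
        rcases lt_or_ge t 1 with h1t | h1t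
        · have hL := relG_stp (s := s') (d := d) (H := H) (u := X) (v := 2 + X) hw hs' hX1 hX2
            (by simp) (by simp) (U := 2 ^ (w * s')) (V := 2 + 2 ^ (w * s')) (by simp)
            (by simp) hS hr'
          rw [← spl_sz hsp] at hL
          have ht0 : 0 < 1 - t := by linarith
          have ih := runG_sound hw hs l _ _ _ _ hL h3 (T.set j (2 * t / (1 - t)))
            (by simpa using hT) (by
              intro x hx
              rcases List.mem_or_eq_of_mem_set hx with hx | hx
              · exact hT0 x hx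
              · rw [hx]; positivity)
          have := goodG_trs hsp hT hX1 hX2 t (2 * t / (1 - t)) (2 / (1 - t)) (by positivity)
            (by rw [aeval_X]; ring) (by
              rw [map_add, aeval_X, h2R]; field_simp; ring) cs ih
          rwa [hTj] at this
        · have hR := relG_stp (s := s') (d := d) (H := H) (u := 1 + 2 * X) (v := 1) hw hs' hX3
            hX4 (by simp) (by simp) (U := 1 + 2 * 2 ^ (w * s')) (V := 1) (by simp)
            (by simp) hS hr'
          rw [← spl_sz hsp] at hR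
          have ih := runG_sound hw hs r _ _ _ _ hR h (T.set j ((t - 1) / 2))
            (by simpa using hT) (by
              intro x hx
              rcases List.mem_or_eq_of_mem_set hx with hx | hx
              · exact hT0 x hx
              · rw [hx]
                have : 0 ≤ t - 1 := by linarith
                positivity)
          have := goodG_trs hsp hT hX3 hX4 t ((t - 1) / 2) 1 (by norm_num)
            (by rw [map_add, map_mul, aeval_X, h2R, map_one]; ring) (by simp) cs ih
          rwa [hTj] at this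
      · exfalso
        have hI := nth_none (w := w) 1 hj
        rw [runG_split _ _ _ _ _ _ _ _ _ _ hI] at h
        simp at h

/-- packed numbers at the root -/
def startPG (w : ℕ) (ds : List ℕ) (bs : List (ℕ × ℕ × ℕ)) :
    List (List (NP ds × NP ds)) → List (List ℕ)
  | [] => []
  | G :: Gs => startP w ds bs G :: startPG w ds bs Gs

/-- packed numbers at the root -/
def startMG (w : ℕ) (ds : List ℕ) (bs : List (ℕ × ℕ × ℕ)) :
    List (List (NP ds × NP ds)) → List (List ℕ)
  | [] => []
  | G :: Gs => startM w ds bs G :: startMG w ds bs Gs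

/-- largest sum of coefficients -/
def maxSG (ds : List ℕ) : List (List (NP ds × NP ds)) → ℕ
  | [] => 1
  | G :: Gs => max (maxS ds G) (maxSG ds Gs)

/-- all polynomials have the right shape -/
def wfsG (ds : List ℕ) : List (List (NP ds × NP ds)) → Bool
  | [] => true
  | G :: Gs => wfs ds G && wfsG ds Gs

/-- continue with an evaluated list of lists -/
noncomputable def forceLL {α : Type} (l : List (List ℕ)) (k : List (List ℕ) → α) : α :=
  List.rec (motive := fun _ => (List (List ℕ) → α) → α) (fun k => k [])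
    (fun a _ ih k => forceList a fun a' => ih fun l' => k (a' :: l')) l k

lemma forceLL_eq {α : Type} : ∀ (l : List (List ℕ)) (k : List (List ℕ) → α), forceLL l k = k l
  | [], k => rfl
  | a :: l, k => by
      have : forceLL (a :: l) k = forceList a fun a' => forceLL l fun l' => k (a' :: l') := rfl
      rw [this, forceList_eq, forceLL_eq]

/-- the whole check -/
noncomputable def checkG (w s : ℕ) (ds : List ℕ) (bs : List (ℕ × ℕ × ℕ))
    (Ps : List (List (NP ds × NP ds))) (t : GTree) : Bool :=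
  cond (Nat.blt 0 w) (cond (boxOK ds bs) (cond (wfsG ds Ps)
    (force (s * ones w (sz ds)) fun o => force (ones w (sz ds) * 2 ^ (w - 1)) fun hm =>
      force (2 ^ (w - 1)) fun hB => force (maxSG ds Ps * prodm ds bs) fun S =>
      forceLL (startPG w ds bs Ps) fun st => forceLL (startMG w ds bs Ps) fun su =>
      runG (infos w ds 1) o hm hB t S st su) false) false) false

lemma relG_start {w S : ℕ} {ds : List ℕ} {bs : List (ℕ × ℕ × ℕ)} (h : bs.length = ds.length) :
    ∀ Ps : List (List (NP ds × NP ds)), maxSG ds Ps * prodm ds bs ≤ S →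
    RelG w (sz ds) S (startPG w ds bs Ps) (startMG w ds bs Ps)
      (Ps.map fun G => G.map fun p => (co ds bs p.1, co ds bs p.2))
  | [], _ => trivial
  | G :: Ps, hS => by
      have h1 : maxS ds G ≤ maxSG ds (G :: Ps) := by rw [maxSG]; exact le_max_left _ _
      have h3 : maxSG ds Ps ≤ maxSG ds (G :: Ps) := by rw [maxSG]; exact le_max_right _ _
      exact ⟨rel_start h G ((Nat.mul_le_mul_right _ h1).trans hS),
        relG_start h Ps ((Nat.mul_le_mul_right _ h3).trans hS)⟩

lemma wfsG_mem {ds : List ℕ} : ∀ {Ps : List (List (NP ds × NP ds))}, wfsG ds Ps = true →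
    ∀ G ∈ Ps, wfs ds G = true
  | [], _, p, hp => by simp at hp
  | G :: Ps, h, p, hp => by
      simp only [wfsG, Bool.and_eq_true] at h
      rcases List.mem_cons.1 hp with rfl | hp
      · exact h.1
      · exact wfsG_mem h.2 p hp

theorem checkG_sound {w s : ℕ} (hs : s ≤ 1) {ds : List ℕ} {bs : List (ℕ × ℕ × ℕ)}
    {Ps : List (List (NP ds × NP ds))} {t : GTree} (h : checkG w s ds bs Ps t = true)
    {xs : List ℝ} (hx : InBox bs xs) :
    ∃ G ∈ Ps, ∀ P ∈ G, ev ds P.2 xs ≤ ev ds P.1 xs ∧ (s ≠ 0 → ev ds P.2 xs < ev ds P.1 xs) := by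
  unfold checkG at h
  simp only [Bool.cond_eq_ite, force_eq, forceLL_eq] at h
  split_ifs at h with h1 h2 h3
  have hw : 0 < w := Nat.le_of_ble_eq_true h1
  have hl := boxOK_length ds bs h2
  obtain ⟨i1, i2, i3, i4, i5⟩ := par_spec ds bs xs h2 hx
  obtain ⟨G, hG, hG1⟩ := runG_sound hw hs t _ _ _ _ (relG_start hl Ps le_rfl) h
    (par bs xs) i1 i2
  obtain ⟨G0, hG0, rfl⟩ := List.mem_map.1 hG
  refine ⟨G0, hG0, fun P hP => ?_⟩
  obtain ⟨hp1, hp2⟩ := hG1 _ (List.mem_map.2 ⟨P, hP, rfl⟩)
  obtain ⟨w1, w2⟩ := wfs_mem (wfsG_mem h3 G0 hG0) P hP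
  have hval : ∀ q : NP ds, wf ds q = true →
      val ds (par bs xs) (co ds bs q) = ev ds q xs * den ds (uv bs (par bs xs)) := by
    intro q hq
    unfold val
    rw [root_sum ds bs (par bs xs) hl i1 q]
    exact hm_ev ds _ xs i3 i4 q hq
  have hden := den_pos ds _ i5
  simp only [hval _ w1, hval _ w2] at hp1 hp2
  exact ⟨le_of_mul_le_mul_right hp1 hden, fun h0 => lt_of_mul_lt_mul_right (hp2 h0) hden.le⟩

/-- the check for expressions -/
noncomputable def checkGE (w s : ℕ) (ds sh : List ℕ) (bs : List (ℕ × ℕ × ℕ))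
    (es : List (List E)) (t : GTree) : Bool :=
  checkG w s ds bs (es.map fun G => G.map (conv ds sh)) t

theorem checkGE_sound {w s : ℕ} (hs : s ≤ 1) {ds sh : List ℕ} {bs : List (ℕ × ℕ × ℕ)}
    {es : List (List E)} {t : GTree} (h : checkGE w s ds sh bs es t = true) {xs : List ℝ}
    (hx : InB xs sh bs) : ∃ G ∈ es, ∀ e ∈ G, 0 ≤ e.ev xs ∧ (s ≠ 0 → 0 < e.ev xs) := by
  obtain ⟨i1, i2, i3, i4⟩ := inB_spec xs sh bs hx
  have h' := h
  unfold checkGE checkG at h'
  simp only [Bool.cond_eq_ite] at h'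
  split_ifs at h' with h1 h2
  have hl := boxOK_length ds bs h2
  obtain ⟨G, hG, hG1⟩ := checkG_sound hs h i1
  obtain ⟨G0, hG0, rfl⟩ := List.mem_map.1 hG
  refine ⟨G0, hG0, fun e he => ?_⟩
  obtain ⟨h3, h4⟩ := hG1 _ (List.mem_map.2 ⟨e, he, rfl⟩)
  have h5 := conv_ev (ds := ds) (xs := xs) (by omega) i2 (by omega) e
  unfold evP at h5
  refine ⟨by linarith, fun h0 => ?_⟩
  have := h4 h0
  linarith

/-- conjunction of strict inequalities -/
def ConjE (xs : List ℝ) : List E → Prop
  | [] => True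
  | [e] => 0 < e.ev xs
  | e :: es => 0 < e.ev xs ∧ ConjE xs es

/-- conjunction of non strict inequalities -/
def ConjLE (xs : List ℝ) : List E → Prop
  | [] => True
  | [e] => 0 ≤ e.ev xs
  | e :: es => 0 ≤ e.ev xs ∧ ConjLE xs es

/-- disjunction of conjunctions, strict -/
def DisjG (xs : List ℝ) : List (List E) → Prop
  | [] => False
  | [G] => ConjE xs G
  | G :: Gs => ConjE xs G ∨ DisjG xs Gs

/-- disjunction of conjunctions, non strict -/
def DisjGLE (xs : List ℝ) : List (List E) → Prop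
  | [] => False
  | [G] => ConjLE xs G
  | G :: Gs => ConjLE xs G ∨ DisjGLE xs Gs

lemma conjE_of {xs : List ℝ} : ∀ {es : List E}, (∀ e ∈ es, 0 < e.ev xs) → ConjE xs es
  | [], _ => trivial
  | [e], h => h e (by simp)
  | e :: e' :: es, h => ⟨h e (by simp), conjE_of (es := e' :: es) fun f hf => h f (by simp at hf ⊢; tauto)⟩

lemma conjLE_of {xs : List ℝ} : ∀ {es : List E}, (∀ e ∈ es, 0 ≤ e.ev xs) → ConjLE xs es
  | [], _ => trivial
  | [e], h => h e (by simp)
  | e :: e' :: es, h => ⟨h e (by simp), conjLE_of (es := e' :: es) fun f hf => h f (by simp at hf ⊢; tauto)⟩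

lemma disjG_of {xs : List ℝ} : ∀ {es : List (List E)},
    (∃ G ∈ es, ∀ e ∈ G, 0 < e.ev xs) → DisjG xs es
  | [], ⟨e, he, _⟩ => by simp at he
  | [G], ⟨G', he, h⟩ => by
      have : G' = G := by simpa using he
      rw [← this]
      exact conjE_of h
  | G :: G1 :: Gs, ⟨f, hf, h⟩ => by
      rcases List.mem_cons.1 hf with rfl | hf
      · exact Or.inl (conjE_of h)
      · exact Or.inr (disjG_of ⟨f, hf, h⟩)

lemma disjGLE_of {xs : List ℝ} : ∀ {es : List (List E)},
    (∃ G ∈ es, ∀ e ∈ G, 0 ≤ e.ev xs) → DisjGLE xs es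
  | [], ⟨e, he, _⟩ => by simp at he
  | [G], ⟨G', he, h⟩ => by
      have : G' = G := by simpa using he
      rw [← this]
      exact conjLE_of h
  | G :: G1 :: Gs, ⟨f, hf, h⟩ => by
      rcases List.mem_cons.1 hf with rfl | hf
      · exact Or.inl (conjLE_of h)
      · exact Or.inr (disjGLE_of ⟨f, hf, h⟩)

/-- the main theorem for strict inequalities -/
theorem mainG {w : ℕ} {ds sh : List ℕ} {bs : List (ℕ × ℕ × ℕ)} {es : List (List E)}
    {t : GTree} (h : checkGE w 1 ds sh bs es t = true) {xs : List ℝ} (hx : InB xs sh bs) :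
    DisjG xs es := by
  obtain ⟨G, hG, h2⟩ := checkGE_sound (s := 1) le_rfl h hx
  exact disjG_of ⟨G, hG, fun e he => (h2 e he).2 one_ne_zero⟩

/-- the main theorem for non strict inequalities -/
theorem mainG_le {w : ℕ} {ds sh : List ℕ} {bs : List (ℕ × ℕ × ℕ)} {es : List (List E)}
    {t : GTree} (h : checkGE w 0 ds sh bs es t = true) {xs : List ℝ} (hx : InB xs sh bs) :
    DisjGLE xs es := by
  obtain ⟨G, hG, h2⟩ := checkGE_sound (s := 0) (by norm_num) h hx
  exact disjGLE_of ⟨G, hG, fun e he => (h2 e he).1⟩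

end Pool.Agent.Lib.BoxPos
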