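import Pool.Agent.Lib.BoxPos.Sound

/-!
Front end: polynomial expressions are converted by the kernel, and the conclusion is a
disjunction of inequalities between real numbers.
-/

namespace Pool.Agent.Lib.BoxPos

/-- polynomial expressions -/
inductive E where
  | v (i : ℕ) : E
  | c (n : ℕ) : E
  | add (a b : E) : E
  | sub (a b : E) : E
  | mul (a b : E) : E
  | neg (a : E) : E
  | pow (a : E) (n : ℕ) : E

/-- entry of a list of reals -/
def get : List ℝ → ℕ → ℝ
  | [], _ => 0
  | x :: _, 0 => x
  | _ :: xs, i + 1 => get xs i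

/-- value of an expression -/
noncomputable def E.ev (xs : List ℝ) : E → ℝ
  | .v i => get xs i
  | .c n => n
  | .add a b => a.ev xs + b.ev xs
  | .sub a b => a.ev xs - b.ev xs
  | .mul a b => a.ev xs * b.ev xs
  | .neg a => -a.ev xs
  | .pow a n => a.ev xs ^ n

/-- coefficientwise operation on the longer list -/
def addL {α : Type} (f : α → α → α) : List α → List α → List α
  | [], q => q
  | a :: p, [] => a :: p
  | a :: p, b :: q => f a b :: addL f p q

/-- coefficientwise truncated subtraction -/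
def subL {α : Type} (f : α → α → α) : List α → List α → List α
  | [], _ => []
  | a :: p, [] => a :: p
  | a :: p, b :: q => f a b :: subL f p q

/-- product of coefficient lists -/
def mulL {α : Type} (f : α → α → α) (g : α → α → α) (z : α) : List α → List α → List α
  | [], _ => []
  | a :: p, q => addL f (q.map (g a)) (z :: mulL f g z p q)

/-- sum of polynomials -/
def addN : (ds : List ℕ) → NP ds → NP ds → NP ds
  | [], a, b => Nat.add a b
  | _ :: ds, p, q => addL (addN ds) p q

/-- truncated difference of polynomials -/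
def subN : (ds : List ℕ) → NP ds → NP ds → NP ds
  | [], a, b => Nat.sub a b
  | _ :: ds, p, q => subL (subN ds) p q

/-- zero polynomial -/
def zeroN : (ds : List ℕ) → NP ds
  | [] => (0 : ℕ)
  | _ :: _ => []

/-- product of polynomials -/
def mulN : (ds : List ℕ) → NP ds → NP ds → NP ds
  | [], a, b => Nat.mul a b
  | _ :: ds, p, q => mulL (addN ds) (mulN ds) (zeroN ds) p q

/-- constant polynomial -/
def constN : (ds : List ℕ) → ℕ → NP ds
  | [], n => n
  | _ :: ds, n => [constN ds n]

/-- a variable -/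
def varN : (ds : List ℕ) → ℕ → NP ds
  | [], _ => (0 : ℕ)
  | _ :: ds, 0 => [zeroN ds, constN ds 1]
  | _ :: ds, i + 1 => [varN ds i]

/-- remove the common part -/
def red (ds : List ℕ) (p m : NP ds) : NP ds × NP ds := (subN ds p m, subN ds m p)

/-- product of differences -/
def mulP (ds : List ℕ) (p q : NP ds × NP ds) : NP ds × NP ds :=
  match p, q with
  | (a, b), (c, d) => red ds (addN ds (mulN ds a c) (mulN ds b d))
      (addN ds (mulN ds a d) (mulN ds b c))

/-- power of a difference -/
def powP (ds : List ℕ) (p : NP ds × NP ds) : ℕ → NP ds × NP ds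
  | 0 => (constN ds 1, zeroN ds)
  | 1 => p
  | n + 2 => mulP ds p (powP ds p (n + 1))

/-- entry of a list of naturals -/
def getN : List ℕ → ℕ → ℕ
  | [], _ => 0
  | x :: _, 0 => x
  | _ :: xs, i + 1 => getN xs i

/-- conversion; the variable number `i` is replaced by itself minus `sh i` -/
def conv (ds sh : List ℕ) : E → NP ds × NP ds
  | .v i => (varN ds i, constN ds (getN sh i))
  | .c n => (constN ds n, zeroN ds)
  | .add a b => match conv ds sh a, conv ds sh b with
    | (p, m), (q, n) => red ds (addN ds p q) (addN ds m n)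
  | .sub a b => match conv ds sh a, conv ds sh b with
    | (p, m), (q, n) => red ds (addN ds p n) (addN ds m q)
  | .mul a b => mulP ds (conv ds sh a) (conv ds sh b)
  | .neg a => match conv ds sh a with
    | (p, m) => (m, p)
  | .pow a n => powP ds (conv ds sh a) n

lemma ev_cons (d : ℕ) (ds : List ℕ) (p : NP ds) (ps : List (NP ds)) (x : ℝ) (xs : List ℝ) :
    ev (d :: ds) (p :: ps) (x :: xs) = ev ds p xs + x * ev (d :: ds) ps (x :: xs) := rfl

lemma ev_nil (d : ℕ) (ds : List ℕ) (x : ℝ) (xs : List ℝ) :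
    ev (d :: ds) ([] : List (NP ds)) (x :: xs) = 0 := rfl

lemma ev_zero : ∀ (ds : List ℕ) (xs : List ℝ), xs.length = ds.length → ev ds (zeroN ds) xs = 0
  | [], xs, _ => by simp [ev, zeroN]
  | d :: ds, x :: xs, _ => ev_nil d ds x xs

lemma ev_const : ∀ (ds : List ℕ) (xs : List ℝ) (n : ℕ), xs.length = ds.length →
    ev ds (constN ds n) xs = n
  | [], xs, n, _ => by simp [ev, constN]
  | d :: ds, x :: xs, n, h => by
      have ih := ev_const ds xs n (by simpa using h)
      show ev (d :: ds) (constN ds n :: []) (x :: xs) = n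
      rw [ev_cons, ev_nil, ih]
      ring

lemma ev_var : ∀ (ds : List ℕ) (xs : List ℝ) (i : ℕ), xs.length = ds.length →
    ev ds (varN ds i) xs = get xs i
  | [], [], i, _ => by simp [ev, varN, get]
  | d :: ds, x :: xs, 0, h => by
      have h' : xs.length = ds.length := by simpa using h
      show ev (d :: ds) (zeroN ds :: constN ds 1 :: []) (x :: xs) = x
      rw [ev_cons, ev_cons, ev_nil, ev_zero ds xs h', ev_const ds xs 1 h']
      push_cast
      ring
  | d :: ds, x :: xs, i + 1, h => by
      have ih := ev_var ds xs i (by simpa using h)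
      show ev (d :: ds) (varN ds i :: []) (x :: xs) = get xs i
      rw [ev_cons, ev_nil, ih]
      ring

lemma ev_addL (d : ℕ) (ds : List ℕ) (x : ℝ) (xs : List ℝ)
    (h : ∀ p q : NP ds, ev ds (addN ds p q) xs = ev ds p xs + ev ds q xs) :
    ∀ ps qs : List (NP ds), ev (d :: ds) (addL (addN ds) ps qs) (x :: xs) =
      ev (d :: ds) ps (x :: xs) + ev (d :: ds) qs (x :: xs)
  | [], qs => by
      show ev (d :: ds) qs (x :: xs) = _
      rw [ev_nil, zero_add]
  | p :: ps, [] => by
      show ev (d :: ds) (p :: ps) (x :: xs) = _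
      rw [ev_nil, add_zero]
  | p :: ps, q :: qs => by
      show ev (d :: ds) (addN ds p q :: addL (addN ds) ps qs) (x :: xs) = _
      rw [ev_cons, ev_cons, ev_cons, h, ev_addL d ds x xs h ps qs]
      ring

lemma ev_add : ∀ (ds : List ℕ) (xs : List ℝ), xs.length = ds.length → ∀ (p q : NP ds),
    ev ds (addN ds p q) xs = ev ds p xs + ev ds q xs
  | [], xs, _, p, q => by
      show ((p + q : ℕ) : ℝ) = (p : ℝ) + (q : ℝ)
      push_cast
      ring
  | d :: ds, x :: xs, h, p, q =>
      ev_addL d ds x xs (ev_add ds xs (by simpa using h)) p q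

lemma ev_subL (d : ℕ) (ds : List ℕ) (x : ℝ) (xs : List ℝ)
    (h : ∀ p q : NP ds, ev ds (subN ds p q) xs - ev ds (subN ds q p) xs =
      ev ds p xs - ev ds q xs) :
    ∀ ps qs : List (NP ds), ev (d :: ds) (subL (subN ds) ps qs) (x :: xs) -
      ev (d :: ds) (subL (subN ds) qs ps) (x :: xs) =
      ev (d :: ds) ps (x :: xs) - ev (d :: ds) qs (x :: xs)
  | [], [] => rfl
  | [], q :: qs => by
      show ev (d :: ds) [] (x :: xs) - ev (d :: ds) (q :: qs) (x :: xs) = _
      rfl
  | p :: ps, [] => by
      show ev (d :: ds) (p :: ps) (x :: xs) - ev (d :: ds) [] (x :: xs) = _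
      rfl
  | p :: ps, q :: qs => by
      show ev (d :: ds) (subN ds p q :: subL (subN ds) ps qs) (x :: xs) -
        ev (d :: ds) (subN ds q p :: subL (subN ds) qs ps) (x :: xs) = _
      rw [ev_cons, ev_cons, ev_cons, ev_cons]
      have h1 := h p q
      have h2 := ev_subL d ds x xs h ps qs
      linear_combination h1 + x * h2

lemma ev_sub : ∀ (ds : List ℕ) (xs : List ℝ), xs.length = ds.length → ∀ (p q : NP ds),
    ev ds (subN ds p q) xs - ev ds (subN ds q p) xs = ev ds p xs - ev ds q xs
  | [], xs, _, p, q => by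
      show ((p - q : ℕ) : ℝ) - ((q - p : ℕ) : ℝ) = (p : ℝ) - (q : ℝ)
      rcases le_total (show ℕ from p) q with h | h
      · rw [Nat.sub_eq_zero_of_le h, Nat.cast_sub h]
        push_cast
        ring
      · rw [Nat.sub_eq_zero_of_le h, Nat.cast_sub h]
        push_cast
        ring
  | d :: ds, x :: xs, h, p, q =>
      ev_subL d ds x xs (ev_sub ds xs (by simpa using h)) p q

lemma ev_map (d : ℕ) (ds : List ℕ) (x : ℝ) (xs : List ℝ) (p : NP ds)
    (h : ∀ q : NP ds, ev ds (mulN ds p q) xs = ev ds p xs * ev ds q xs) :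
    ∀ qs : List (NP ds), ev (d :: ds) (qs.map (mulN ds p)) (x :: xs) =
      ev ds p xs * ev (d :: ds) qs (x :: xs)
  | [] => by
      show ev (d :: ds) [] (x :: xs) = _
      rw [ev_nil, mul_zero]
  | q :: qs => by
      show ev (d :: ds) (mulN ds p q :: qs.map (mulN ds p)) (x :: xs) = _
      rw [ev_cons, ev_cons, h, ev_map d ds x xs p h qs]
      ring

lemma ev_mulL (d : ℕ) (ds : List ℕ) (x : ℝ) (xs : List ℝ) (hl : xs.length = ds.length)
    (h : ∀ p q : NP ds, ev ds (mulN ds p q) xs = ev ds p xs * ev ds q xs) :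
    ∀ ps qs : List (NP ds),
      ev (d :: ds) (mulL (addN ds) (mulN ds) (zeroN ds) ps qs) (x :: xs) =
      ev (d :: ds) ps (x :: xs) * ev (d :: ds) qs (x :: xs)
  | [], qs => by
      show ev (d :: ds) [] (x :: xs) = _
      rw [ev_nil, zero_mul]
  | p :: ps, qs => by
      show ev (d :: ds) (addL (addN ds) (qs.map (mulN ds p))
        (zeroN ds :: mulL (addN ds) (mulN ds) (zeroN ds) ps qs)) (x :: xs) = _
      rw [ev_addL d ds x xs (ev_add ds xs hl), ev_cons, ev_cons, ev_zero ds xs hl,
        ev_map d ds x xs p (h p), ev_mulL d ds x xs hl h ps qs]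
      ring

lemma ev_mul : ∀ (ds : List ℕ) (xs : List ℝ), xs.length = ds.length → ∀ (p q : NP ds),
    ev ds (mulN ds p q) xs = ev ds p xs * ev ds q xs
  | [], xs, _, p, q => by
      show ((p * q : ℕ) : ℝ) = (p : ℝ) * (q : ℝ)
      push_cast
      ring
  | d :: ds, x :: xs, h, p, q =>
      ev_mulL d ds x xs (by simpa using h) (ev_mul ds xs (by simpa using h)) p q

/-- value of a difference -/
def evP (ds : List ℕ) (p : NP ds × NP ds) (xs : List ℝ) : ℝ := ev ds p.1 xs - ev ds p.2 xs

lemma evP_mul {ds : List ℕ} {xs : List ℝ} (h : xs.length = ds.length) (p q : NP ds × NP ds) :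
    evP ds (mulP ds p q) xs = evP ds p xs * evP ds q xs := by
  obtain ⟨a, b⟩ := p
  obtain ⟨c, d⟩ := q
  simp only [mulP, red, evP]
  rw [ev_sub ds xs h, ev_add ds xs h, ev_add ds xs h, ev_mul ds xs h, ev_mul ds xs h,
    ev_mul ds xs h, ev_mul ds xs h]
  ring

lemma evP_pow {ds : List ℕ} {xs : List ℝ} (h : xs.length = ds.length) (p : NP ds × NP ds) :
    ∀ n : ℕ, evP ds (powP ds p n) xs = evP ds p xs ^ n
  | 0 => by
      simp only [powP, evP, ev_const ds xs 1 h, ev_zero ds xs h]
      simp
  | 1 => by simp [powP]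
  | n + 2 => by
      rw [powP, evP_mul h, evP_pow h p (n + 1)]
      ring

/-- the list of shifted coordinates -/
def shl : List ℕ → List ℝ → List ℝ
  | s :: sh, x :: xs => (x + s) :: shl sh xs
  | _, xs => xs

lemma get_shl : ∀ (sh : List ℕ) (xs : List ℝ) (i : ℕ), sh.length = xs.length →
    get (shl sh xs) i - (getN sh i : ℕ) = get xs i
  | [], [], i, _ => by simp [shl, get, getN]
  | s :: sh, x :: xs, 0, _ => by simp [shl, get, getN]
  | s :: sh, x :: xs, i + 1, h => by
      simpa [shl, get, getN] using get_shl sh xs i (by simpa using h)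

lemma conv_ev {ds sh : List ℕ} {xs : List ℝ} (h : xs.length = ds.length)
    (h' : sh.length = xs.length) (hl : (shl sh xs).length = ds.length) : ∀ e : E,
    evP ds (conv ds sh e) (shl sh xs) = e.ev xs
  | .v i => by
      simp only [conv, evP, E.ev]
      rw [ev_var ds _ i hl, ev_const ds _ _ hl, get_shl sh xs i h']
  | .c n => by
      simp only [conv, evP, E.ev]
      rw [ev_const ds _ _ hl, ev_zero ds _ hl, sub_zero]
  | .add a b => by
      have ha := conv_ev h h' hl a
      have hb := conv_ev h h' hl b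
      simp only [conv, red, evP, E.ev] at ha hb ⊢
      rw [ev_sub ds _ hl, ev_add ds _ hl, ev_add ds _ hl, ← ha, ← hb]
      ring
  | .sub a b => by
      have ha := conv_ev h h' hl a
      have hb := conv_ev h h' hl b
      simp only [conv, red, evP, E.ev] at ha hb ⊢
      rw [ev_sub ds _ hl, ev_add ds _ hl, ev_add ds _ hl, ← ha, ← hb]
      ring
  | .mul a b => by
      rw [conv, evP_mul hl, conv_ev h h' hl a, conv_ev h h' hl b, E.ev]
  | .neg a => by
      have ha := conv_ev h h' hl a
      simp only [conv, evP, E.ev] at ha ⊢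
      rw [← ha]
      ring
  | .pow a n => by
      rw [conv, evP_pow hl, conv_ev h h' hl a, E.ev]

/-- the point is in the box; the lists hold the sides `(a, b, q)` of the shifted box
`a ≤ q (x + s) < b`, and the shifts -/
def InB : List ℝ → List ℕ → List (ℕ × ℕ × ℕ) → Prop
  | [], [], [] => True
  | x :: xs, s :: sh, (a, b, q) :: bs =>
      (a : ℝ) ≤ q * (x + s) ∧ (q : ℝ) * (x + s) < b ∧ InB xs sh bs
  | _, _, _ => False

lemma inB_spec : ∀ (xs : List ℝ) (sh : List ℕ) (bs : List (ℕ × ℕ × ℕ)), InB xs sh bs →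
    InBox bs (shl sh xs) ∧ sh.length = xs.length ∧ xs.length = bs.length ∧
    (shl sh xs).length = xs.length
  | [], [], [], _ => ⟨List.Forall₂.nil, rfl, rfl, rfl⟩
  | x :: xs, s :: sh, (a, b, q) :: bs, h => by
      obtain ⟨h1, h2, h3⟩ := h
      obtain ⟨i1, i2, i3, i4⟩ := inB_spec xs sh bs h3
      exact ⟨List.Forall₂.cons ⟨h1, h2⟩ i1, by simp [i2], by simp [i3], by simp [shl, i4]⟩
  | [], [], _ :: _, h => h.elim
  | [], _ :: _, _, h => h.elim
  | _ :: _, [], _, h => h.elim
  | _ :: _, _ :: _, [], h => h.elim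

/-- the check for expressions -/
noncomputable def checkE (w s : ℕ) (ds sh : List ℕ) (bs : List (ℕ × ℕ × ℕ)) (es : List E)
    (t : Tree) : Bool := check w s ds bs (es.map (conv ds sh)) t

theorem checkE_sound {w s : ℕ} (hs : s ≤ 1) {ds sh : List ℕ} {bs : List (ℕ × ℕ × ℕ)}
    {es : List E} {t : Tree} (h : checkE w s ds sh bs es t = true) {xs : List ℝ}
    (hx : InB xs sh bs) : ∃ e ∈ es, 0 ≤ e.ev xs ∧ (s ≠ 0 → 0 < e.ev xs) := by
  obtain ⟨i1, i2, i3, i4⟩ := inB_spec xs sh bs hx
  have h' := h
  unfold checkE check at h'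
  simp only [Bool.cond_eq_ite] at h'
  split_ifs at h' with h1 h2
  have hl := boxOK_length ds bs h2
  obtain ⟨P, hP, h3, h4⟩ := check_sound hs h i1
  obtain ⟨e, he, rfl⟩ := List.mem_map.1 hP
  have h5 := conv_ev (ds := ds) (xs := xs) (by omega) i2 (by omega) e
  unfold evP at h5
  refine ⟨e, he, by linarith, fun h0 => ?_⟩
  have := h4 h0
  linarith

/-- strict disjunction -/
def Disj (xs : List ℝ) : List E → Prop
  | [] => False
  | [e] => 0 < e.ev xs
  | e :: es => 0 < e.ev xs ∨ Disj xs es

/-- non strict disjunction -/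
def DisjLE (xs : List ℝ) : List E → Prop
  | [] => False
  | [e] => 0 ≤ e.ev xs
  | e :: es => 0 ≤ e.ev xs ∨ DisjLE xs es

lemma disj_of_mem {xs : List ℝ} : ∀ {es : List E}, (∃ e ∈ es, 0 < e.ev xs) → Disj xs es
  | [], ⟨e, he, _⟩ => by simp at he
  | [e], ⟨e', he, h⟩ => by
      have : e' = e := by simpa using he
      rw [← this]
      exact h
  | e :: e' :: es, ⟨f, hf, h⟩ => by
      rcases List.mem_cons.1 hf with rfl | hf
      · exact Or.inl h
      · exact Or.inr (disj_of_mem ⟨f, hf, h⟩)

lemma disjLE_of_mem {xs : List ℝ} : ∀ {es : List E}, (∃ e ∈ es, 0 ≤ e.ev xs) → DisjLE xs es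
  | [], ⟨e, he, _⟩ => by simp at he
  | [e], ⟨e', he, h⟩ => by
      have : e' = e := by simpa using he
      rw [← this]
      exact h
  | e :: e' :: es, ⟨f, hf, h⟩ => by
      rcases List.mem_cons.1 hf with rfl | hf
      · exact Or.inl h
      · exact Or.inr (disjLE_of_mem ⟨f, hf, h⟩)

/-- the main theorem for strict inequalities -/
theorem main {w : ℕ} {ds sh : List ℕ} {bs : List (ℕ × ℕ × ℕ)} {es : List E} {t : Tree}
    (h : checkE w 1 ds sh bs es t = true) {xs : List ℝ} (hx : InB xs sh bs) : Disj xs es := by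
  obtain ⟨e, he, _, h2⟩ := checkE_sound (s := 1) le_rfl h hx
  exact disj_of_mem ⟨e, he, h2 one_ne_zero⟩

/-- the main theorem for non strict inequalities -/
theorem main_le {w : ℕ} {ds sh : List ℕ} {bs : List (ℕ × ℕ × ℕ)} {es : List E} {t : Tree}
    (h : checkE w 0 ds sh bs es t = true) {xs : List ℝ} (hx : InB xs sh bs) :
    DisjLE xs es := by
  obtain ⟨e, he, h1, _⟩ := checkE_sound (s := 0) (by norm_num) h hx
  exact disjLE_of_mem ⟨e, he, h1⟩

end Pool.Agent.Lib.BoxPos
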