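import Pool.Agent.Lib.BoxPos.Core

/-! Packed numbers: digits, masks, slices. -/

namespace Pool.Agent.Lib.BoxPos

open Finset

/-- packed number with digit function `c` -/
def pk (w : ℕ) (c : ℕ → ℕ) (L : ℕ) : ℕ := ∑ n ∈ range L, c n * 2 ^ (w * n)

lemma pk_succ (w : ℕ) (c : ℕ → ℕ) (L : ℕ) :
    pk w c (L + 1) = pk w c L + c L * 2 ^ (w * L) := by
  simp [pk, sum_range_succ]

lemma pk_congr {w : ℕ} {c c' : ℕ → ℕ} {L : ℕ} (h : ∀ n < L, c n = c' n) :
    pk w c L = pk w c' L := by
  unfold pk
  exact sum_congr rfl fun n hn => by rw [h n (mem_range.1 hn)]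

lemma pk_lt {w : ℕ} {c : ℕ → ℕ} : ∀ {L : ℕ}, (∀ n < L, c n < 2 ^ w) → pk w c L < 2 ^ (w * L)
  | 0, _ => by simp [pk]
  | L + 1, h => by
      rw [pk_succ]
      have h1 := pk_lt (L := L) fun n hn => h n (by omega)
      have h2 := h L (by omega)
      have h3 : 2 ^ (w * (L + 1)) = 2 ^ w * 2 ^ (w * L) := by rw [← pow_add]; ring_nf
      rw [h3]
      calc pk w c L + c L * 2 ^ (w * L) < 2 ^ (w * L) + c L * 2 ^ (w * L) := by omega
        _ = (c L + 1) * 2 ^ (w * L) := by ring
        _ ≤ 2 ^ w * 2 ^ (w * L) := Nat.mul_le_mul_right _ h2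

lemma testBit_pk {w : ℕ} (hw : 0 < w) {c : ℕ → ℕ} : ∀ {L : ℕ}, (∀ n < L, c n < 2 ^ w) → ∀ i,
    (pk w c L).testBit i = (decide (i / w < L) && (c (i / w)).testBit (i % w))
  | 0, _, i => by simp [pk]
  | L + 1, h, i => by
      have h1 := pk_lt (L := L) fun n hn => h n (by omega)
      have ih := testBit_pk hw (L := L) (fun n hn => h n (by omega)) i
      rw [pk_succ, add_comm, mul_comm, Nat.testBit_two_pow_mul_add _ h1]
      split_ifs with hi
      · have : i / w < L := by
          rw [Nat.div_lt_iff_lt_mul hw]; rwa [mul_comm]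
        rw [ih]
        simp [this, show i / w < L + 1 by omega]
      · push Not at hi
        have h4 : L ≤ i / w := by
          rw [Nat.le_div_iff_mul_le hw]; rwa [mul_comm]
        by_cases h5 : i / w = L
        · have h6 : i - w * L = i % w := by
            have := Nat.div_add_mod i w
            rw [h5] at this
            omega
          simp [h5, h6]
        · have h6 : ¬ i / w < L + 1 := by omega
          have h7 : w ≤ i - w * L := by
            have h8 : L + 1 ≤ i / w := by omega
            rw [Nat.le_div_iff_mul_le hw] at h8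
            have : (L + 1) * w = w * L + w := by ring
            omega
          have h8 : (c L).testBit (i - w * L) = false :=
            Nat.testBit_lt_two_pow (lt_of_lt_of_le (h L (by omega))
              (Nat.pow_le_pow_right (by norm_num) h7))
          simp [h6, h8]

lemma sum_mul_range {M : Type*} [AddCommMonoid M] (b : ℕ) (f : ℕ → M) : ∀ a : ℕ,
    ∑ n ∈ range (a * b), f n = ∑ i ∈ range a, ∑ j ∈ range b, f (i * b + j)
  | 0 => by simp
  | a + 1 => by
      rw [add_mul, one_mul, sum_range_add, sum_mul_range b f a, sum_range_succ]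

lemma sum_idx {M : Type*} [AddCommMonoid M] (H D s : ℕ) (f : ℕ → M) :
    ∑ n ∈ range (H * (D * s)), f n =
      ∑ h ∈ range H, ∑ l ∈ range D, ∑ o ∈ range s, f (h * (D * s) + (l * s + o)) := by
  rw [sum_mul_range]
  refine sum_congr rfl fun h _ => ?_
  rw [sum_mul_range s (fun n => f (h * (D * s) + n))]

lemma idx_mod {D s h l o : ℕ} (ho : o < s) : (h * (D * s) + (l * s + o)) % s = o := by
  have : h * (D * s) + (l * s + o) = o + s * (h * D + l) := by ring
  rw [this, Nat.add_mul_mod_self_left, Nat.mod_eq_of_lt ho]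

lemma idx_div {D s h l o : ℕ} (ho : o < s) : (h * (D * s) + (l * s + o)) / s = h * D + l := by
  have : h * (D * s) + (l * s + o) = o + s * (h * D + l) := by ring
  rw [this, Nat.add_mul_div_left _ _ (by omega), Nat.div_eq_of_lt ho, zero_add]

lemma idx_div_mod {D s h l o : ℕ} (ho : o < s) (hl : l < D) :
    (h * (D * s) + (l * s + o)) / s % D = l := by
  rw [idx_div ho]
  have : h * D + l = l + D * h := by ring
  rw [this, Nat.add_mul_mod_self_left, Nat.mod_eq_of_lt hl]

lemma idx_div_div {D s h l o : ℕ} (ho : o < s) (hl : l < D) :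
    (h * (D * s) + (l * s + o)) / (D * s) = h := by
  have h1 : l * s + o < D * s := by
    calc l * s + o < l * s + s := by omega
      _ = (l + 1) * s := by ring
      _ ≤ D * s := Nat.mul_le_mul_right _ hl
  have : h * (D * s) + (l * s + o) = (l * s + o) + (D * s) * h := by ring
  rw [this, Nat.add_mul_div_left _ _ (by omega), Nat.div_eq_of_lt h1, zero_add]

lemma idx_lt {H D s h l o : ℕ} (hh : h < H) (hl : l < D) (ho : o < s) :
    h * (D * s) + (l * s + o) < H * (D * s) := by
  have h1 : l * s + o < D * s := by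
    calc l * s + o < l * s + s := by omega
      _ = (l + 1) * s := by ring
      _ ≤ D * s := Nat.mul_le_mul_right _ hl
  calc h * (D * s) + (l * s + o) < h * (D * s) + D * s := by omega
    _ = (h + 1) * (D * s) := by ring
    _ ≤ H * (D * s) := Nat.mul_le_mul_right _ hh

/-- `ones` is the packed number of the constant one -/
lemma ones_eq {w : ℕ} (hw : 0 < w) (L : ℕ) : ones w L = pk w (fun _ => 1) L := by
  unfold ones pk
  have h2 : 2 ≤ 2 ^ w := by
    calc 2 = 2 ^ 1 := by norm_num
      _ ≤ 2 ^ w := Nat.pow_le_pow_right (by norm_num) hw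
  have := Nat.geomSum_eq h2 L
  simp only [one_mul, pow_mul]
  rw [this]

/-- the mask of one variable -/
lemma testBit_mask {w s D H : ℕ} (hw : 0 < w) (hs : 0 < s) (hD : 0 < D) (i : ℕ) :
    ((2 ^ (w * s) - 1) * ones (w * s * D) H).testBit i =
      (decide (i / (w * s * D) < H) && decide (i % (w * s * D) < w * s)) := by
  have h0 : 0 < w * s * D := by positivity
  have h1 : (2 ^ (w * s) - 1) * ones (w * s * D) H =
      pk (w * s * D) (fun _ => 2 ^ (w * s) - 1) H := by
    rw [ones_eq h0, pk, pk, mul_sum]
    exact sum_congr rfl fun n _ => by rw [one_mul]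
  have h2 : 2 ^ (w * s) - 1 < 2 ^ (w * s * D) := by
    have : 2 ^ (w * s) ≤ 2 ^ (w * s * D) :=
      Nat.pow_le_pow_right (by norm_num) (Nat.le_mul_of_pos_right _ hD)
    have h3 : 0 < 2 ^ (w * s) := by positivity
    omega
  rw [h1, testBit_pk h0 (fun n _ => h2), Nat.testBit_two_pow_sub_one]

/-- extraction of the coefficients with exponent `e` in one variable -/
lemma land_mask {w s D H e : ℕ} (hw : 0 < w) (hs : 0 < s) (he : e < D) {c : ℕ → ℕ}
    (hc : ∀ n < H * (D * s), c n < 2 ^ w) :
    Nat.land (Nat.shiftRight (pk w c (H * (D * s))) (w * s * e))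
      ((2 ^ (w * s) - 1) * ones (w * s * D) H) =
    ∑ h ∈ range H, ∑ o ∈ range s,
      c (h * (D * s) + (e * s + o)) * 2 ^ (w * (h * (D * s) + o)) := by
  have hD : 0 < D := by omega
  -- the right side as a packed number
  set g : ℕ → ℕ := fun n => if n / s % D = 0 then c (n + e * s) else 0 with hg
  have hR : ∑ h ∈ range H, ∑ o ∈ range s,
      c (h * (D * s) + (e * s + o)) * 2 ^ (w * (h * (D * s) + o)) = pk w g (H * (D * s)) := by
    unfold pk
    rw [sum_idx]
    refine sum_congr rfl fun h _ => ?_
    rw [sum_eq_single_of_mem 0 (mem_range.2 hD)]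
    · refine sum_congr rfl fun o ho => ?_
      rw [mem_range] at ho
      have h1 := idx_div_mod (D := D) (s := s) (h := h) (l := 0) ho hD
      rw [hg]
      simp only [zero_mul, zero_add] at h1 ⊢
      rw [if_pos h1]
      congr 2
      ring
    · intro l hl hl0
      rw [mem_range] at hl
      refine sum_eq_zero fun o ho => ?_
      rw [mem_range] at ho
      have h1 := idx_div_mod (D := D) (s := s) (h := h) (l := l) ho hl
      rw [hg]
      simp only
      rw [if_neg (by rw [h1]; exact hl0), zero_mul]
  have key : ∀ n, n < H * (D * s) → n / s % D = 0 → n + e * s < H * (D * s) := by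
    intro n hn h0
    have h1 : n = n / (D * s) * (D * s) + (0 * s + n % s) := by
      have h2 := Nat.div_add_mod n s
      have h3 := Nat.div_add_mod (n / s) D
      have h4 : n / (D * s) = n / s / D := by rw [Nat.div_div_eq_div_mul, mul_comm]
      rw [h4]
      rw [h0, add_zero] at h3
      calc n = s * (n / s) + n % s := h2.symm
        _ = s * (D * (n / s / D)) + n % s := by rw [h3]
        _ = _ := by ring
    have h5 : n + e * s = n / (D * s) * (D * s) + (e * s + n % s) := by
      conv_lhs => rw [h1]
      ring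
    rw [h5]
    refine idx_lt ?_ he (Nat.mod_lt _ hs)
    rw [Nat.div_lt_iff_lt_mul (by positivity)]
    exact hn
  have hgb : ∀ n < H * (D * s), g n < 2 ^ w := by
    intro n hn
    rw [hg]
    simp only
    split_ifs with h0
    · exact hc _ (key n hn h0)
    · positivity
  rw [hR]
  refine Nat.eq_of_testBit_eq fun i => ?_
  rw [show Nat.land (Nat.shiftRight (pk w c (H * (D * s))) (w * s * e))
      ((2 ^ (w * s) - 1) * ones (w * s * D) H) = (pk w c (H * (D * s)) >>> (w * s * e)) &&&
      ((2 ^ (w * s) - 1) * ones (w * s * D) H) from rfl]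
  rw [Nat.testBit_land, Nat.testBit_shiftRight, testBit_mask hw hs hD, testBit_pk hw hc,
    testBit_pk hw hgb]
  have e1 : (w * s * e + i) / w = i / w + e * s := by
    have : w * s * e + i = i + w * (e * s) := by ring
    rw [this, Nat.add_mul_div_left _ _ hw]
  have e2 : (w * s * e + i) % w = i % w := by
    have : w * s * e + i = i + w * (e * s) := by ring
    rw [this, Nat.add_mul_mod_self_left]
  have e3 : (i / (w * s * D) < H) ↔ i / w < H * (D * s) := by
    rw [Nat.div_lt_iff_lt_mul (by positivity), Nat.div_lt_iff_lt_mul hw]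
    have : H * (w * s * D) = H * (D * s) * w := by ring
    rw [this]
  have e4 : (i % (w * s * D) < w * s) ↔ i / w / s % D = 0 := by
    rw [Nat.div_div_eq_div_mul]
    have h1 : i % (w * s * D) / (w * s) = i / (w * s) % D := Nat.mod_mul_right_div_self _ _ _
    rw [← h1]
    constructor
    · intro h
      exact Nat.div_eq_of_lt h
    · intro h
      exact (Nat.div_eq_zero_iff.1 h).resolve_left (by positivity)
  rw [e1, e2]
  by_cases a1 : i / w < H * (D * s)
  · by_cases a2 : i / w / s % D = 0
    · have a3 := key _ a1 a2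
      have b1 := e3.2 a1
      have b2 := e4.2 a2
      simp [a1, a2, a3, b1, b2, hg]
    · have b2 : ¬ (i % (w * s * D) < w * s) := fun h => a2 (e4.1 h)
      simp [a2, b2, hg]
  · have b1 : ¬ (i / (w * s * D) < H) := fun h => a1 (e3.1 h)
    simp [a1, b1]

end Pool.Agent.Lib.BoxPos
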