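import Pool.Agent.Lib.BoxPos.Trans

/-! The polynomials on the root box. -/

namespace Pool.Agent.Lib.BoxPos

open Finset Polynomial

/-- value of `f` at entry `e` of a list, zero outside -/
def at0 {α R : Type*} [Zero R] (f : α → R) : List α → ℕ → R
  | [], _ => 0
  | p :: _, 0 => f p
  | _ :: ps, e + 1 => at0 f ps e

/-- weights -/
def wt {R : Type*} [CommSemiring R] : List ℕ → List R → ℕ → R
  | _ :: ds, z :: zs, n => z ^ (n / sz ds) * wt ds zs (n % sz ds)
  | _, _, _ => 1

/-- digits at the root -/
noncomputable def co : (ds : List ℕ) → List (ℕ × ℕ × ℕ) → NP ds → ℕ → ℕ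
  | [], _, n, _ => n
  | d :: ds, (a, b, q) :: bs, ps, N =>
      ∑ e ∈ range (d + 1), cf (C a + C b * X) (C q * (1 + X)) d e (N / sz ds) *
        at0 (fun p => co ds bs p (N % sz ds)) ps e
  | _ :: _, [], _, _ => 0

/-- homogenised evaluation -/
def hm {R : Type*} [CommSemiring R] : (ds : List ℕ) → List (R × R) → NP ds → R
  | [], _, n => ((show ℕ from n) : R)
  | d :: ds, (u, v) :: uvs, ps =>
      ∑ e ∈ range (d + 1), u ^ e * v ^ (d - e) * at0 (hm ds uvs) ps e
  | _ :: _, [], _ => 0

/-- numerators and denominators of a point -/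
def uv {R : Type*} [CommSemiring R] : List (ℕ × ℕ × ℕ) → List R → List (R × R)
  | (a, b, q) :: bs, z :: zs => ((a : R) + b * z, (q : R) * (1 + z)) :: uv bs zs
  | _, _ => []

lemma sz_pos : ∀ ds : List ℕ, 0 < sz ds
  | [] => by simp [sz]
  | d :: ds => by simpa [sz] using sz_pos ds

lemma at0_mul {α R : Type*} [CommSemiring R] (f : α → R) (r : R) : ∀ (ps : List α) (e : ℕ),
    at0 (fun p => f p * r) ps e = at0 f ps e * r
  | [], e => by simp [at0]
  | p :: ps, 0 => by simp [at0]
  | p :: ps, e + 1 => by simpa [at0] using at0_mul f r ps e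

lemma at0_sum {α R : Type*} [CommSemiring R] (m : ℕ) (f : ℕ → α → R) :
    ∀ (ps : List α) (e : ℕ),
    at0 (fun p => ∑ n ∈ range m, f n p) ps e = ∑ n ∈ range m, at0 (f n) ps e
  | [], e => by simp [at0]
  | p :: ps, 0 => by simp [at0]
  | p :: ps, e + 1 => by simpa [at0] using at0_sum m f ps e

lemma at0_cast {α R : Type*} [CommSemiring R] (f : α → ℕ) : ∀ (ps : List α) (e : ℕ),
    ((at0 f ps e : ℕ) : R) = at0 (fun p => (f p : R)) ps e
  | [], e => by simp [at0]
  | p :: ps, 0 => by simp [at0]
  | p :: ps, e + 1 => by simpa [at0] using at0_cast f ps e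

lemma at0_congr {α R : Type*} [Zero R] {f g : α → R} : ∀ {ps : List α},
    (∀ p ∈ ps, f p = g p) → ∀ (e : ℕ), at0 f ps e = at0 g ps e
  | [], _, e => by simp [at0]
  | p :: ps, h, 0 => by simpa [at0] using h p (by simp)
  | p :: ps, h, e + 1 => by
      simpa [at0] using at0_congr (ps := ps) (fun p hp => h p (by simp [hp])) e

lemma root_sum {R : Type*} [CommSemiring R] : ∀ (ds : List ℕ) (bs : List (ℕ × ℕ × ℕ))
    (zs : List R) (_ : bs.length = ds.length) (_ : zs.length = ds.length) (p : NP ds),
    ∑ n ∈ range (sz ds), (co ds bs p n : R) * wt ds zs n = hm ds (uv bs zs) p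
  | [], bs, zs, h1, h2, p => by
      simp [sz, co, wt, hm]
  | d :: ds, (a, b, q) :: bs, z :: zs, h1, h2, ps => by
      have h1' : bs.length = ds.length := by simpa using h1
      have h2' : zs.length = ds.length := by simpa using h2
      have hz := sz_pos ds
      rw [sz, sum_mul_range]
      simp only [uv, hm]
      have e1 : ∀ l ∈ range (d + 1), ∑ n ∈ range (sz ds),
          (co (d :: ds) ((a, b, q) :: bs) ps (l * sz ds + n) : R) *
            wt (d :: ds) (z :: zs) (l * sz ds + n) =
          ∑ e ∈ range (d + 1), (cf (C a + C b * X) (C q * (1 + X)) d e l : R) * z ^ l *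
            at0 (hm ds (uv bs zs)) ps e := by
        intro l _
        have e2 : ∀ n ∈ range (sz ds), (co (d :: ds) ((a, b, q) :: bs) ps (l * sz ds + n) : R) *
            wt (d :: ds) (z :: zs) (l * sz ds + n) =
            ∑ e ∈ range (d + 1), (cf (C a + C b * X) (C q * (1 + X)) d e l : R) * z ^ l *
              at0 (fun p => (co ds bs p n : R) * wt ds zs n) ps e := by
          intro n hn
          rw [mem_range] at hn
          have f1 : (l * sz ds + n) / sz ds = l := by
            rw [mul_comm, Nat.mul_add_div hz, Nat.div_eq_of_lt hn, add_zero]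
          have f2 : (l * sz ds + n) % sz ds = n := by
            rw [mul_comm, Nat.mul_add_mod, Nat.mod_eq_of_lt hn]
          simp only [co, wt, f1, f2]
          push_cast
          rw [sum_mul]
          refine sum_congr rfl fun e _ => ?_
          rw [at0_mul, at0_cast]
          ring
        rw [sum_congr rfl e2, sum_comm]
        refine sum_congr rfl fun e _ => ?_
        rw [← mul_sum, ← at0_sum]
        congr 1
        exact at0_congr (fun p _ => root_sum ds bs zs h1' h2' p) e
      rw [sum_congr rfl e1, sum_comm]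
      refine sum_congr rfl fun e he => ?_
      rw [← sum_mul]
      have hu : (C a + C b * X : ℕ[X]).natDegree ≤ 1 := by
        rw [add_comm]
        exact natDegree_linear_le
      have hv : (C q * (1 + X) : ℕ[X]).natDegree ≤ 1 := by
        have : (C q * (1 + X) : ℕ[X]) = C q * X + C q := by ring
        rw [this]
        exact natDegree_linear_le
      rw [sum_cf hu hv (mem_range.1 he)]
      simp

lemma wt_one : ∀ (ds : List ℕ) (n : ℕ), wt ds (List.replicate ds.length (1 : ℕ)) n = 1
  | [], n => by simp [wt]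
  | d :: ds, n => by simp [wt, List.replicate_succ, wt_one ds]

/-- the places of the variables -/
def zw (w : ℕ) : List ℕ → List ℕ
  | [] => []
  | _ :: ds => 2 ^ (w * sz ds) :: zw w ds

lemma zw_length (w : ℕ) : ∀ ds : List ℕ, (zw w ds).length = ds.length
  | [] => rfl
  | d :: ds => by simp [zw, zw_length w ds]

lemma wt_zw (w : ℕ) : ∀ (ds : List ℕ) (n : ℕ), n < sz ds → wt ds (zw w ds) n = 2 ^ (w * n)
  | [], n, h => by
      have : n = 0 := by simpa [sz] using h
      simp [wt, this]
  | d :: ds, n, h => by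
      have h1 := Nat.mod_lt n (sz_pos ds)
      rw [zw, wt, wt_zw w ds _ h1, ← pow_mul, ← pow_add]
      congr 1
      conv_rhs => rw [← Nat.div_add_mod n (sz ds)]
      ring

lemma dotL_tab {α : Type} (f : α → ℕ) (u v : ℕ) : ∀ (r e : ℕ) (ps : List α),
    dotL f (tab u v e r) ps = ∑ i ∈ range (r + 1), u ^ (e + i) * v ^ (r - i) * at0 f ps i
  | 0, e, [] => by simp [tab, dotL, at0]
  | 0, e, p :: ps => by
      cases ps <;> simp [tab, dotL, at0]
  | r + 1, e, [] => by simp [tab, dotL, at0]
  | r + 1, e, p :: ps => by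
      rw [tab, dotL, dotL_tab f u v r (e + 1) ps, sum_range_succ' _ (r + 1), add_comm]
      congr 1
      refine sum_congr rfl fun i hi => ?_
      have h2 : e + 1 + i = e + (i + 1) := by ring
      have h3 : r + 1 - (i + 1) = r - i := by omega
      rw [h2, h3, at0]

lemma hom_hm (w : ℕ) : ∀ (ds : List ℕ) (bs : List (ℕ × ℕ × ℕ)) (_ : bs.length = ds.length)
    (p : NP ds), hom ds (tabs w ds bs) p = hm ds (uv bs (zw w ds)) p
  | [], bs, h, p => by simp [hom, hm]
  | d :: ds, (a, b, q) :: bs, h, ps => by
      have h' : bs.length = ds.length := by simpa using h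
      rw [tabs, hom, dotL_tab]
      simp only [zw, uv, hm, zero_add, Nat.cast_id]
      refine sum_congr rfl fun e _ => ?_
      congr 1
      exact at0_congr (fun p _ => hom_hm w ds bs h' p) e

lemma hom_pk (w : ℕ) (ds : List ℕ) (bs : List (ℕ × ℕ × ℕ)) (h : bs.length = ds.length)
    (p : NP ds) : hom ds (tabs w ds bs) p = pk w (co ds bs p) (sz ds) := by
  rw [hom_hm w ds bs h, ← root_sum ds bs (zw w ds) h (zw_length w ds)]
  unfold pk
  refine sum_congr rfl fun n hn => ?_
  rw [wt_zw w ds n (mem_range.1 hn), Nat.cast_id]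

lemma sum_at0_le {α : Type} (f : α → ℕ) : ∀ (D : ℕ) (ps : List α),
    ∑ e ∈ range D, at0 f ps e ≤ (ps.map f).sum
  | 0, ps => by simp
  | D + 1, [] => by simp [at0]
  | D + 1, p :: ps => by
      rw [sum_range_succ']
      simp only [at0, List.map_cons, List.sum_cons]
      have := sum_at0_le f D ps
      omega

lemma at0_le {α : Type} {f g : α → ℕ} : ∀ {ps : List α}, (∀ p ∈ ps, f p ≤ g p) →
    ∀ (e : ℕ), at0 f ps e ≤ at0 g ps e
  | [], _, e => by simp [at0]
  | p :: ps, h, 0 => by simpa [at0] using h p (by simp)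
  | p :: ps, h, e + 1 => by
      simpa [at0] using at0_le (ps := ps) (fun p hp => h p (by simp [hp])) e

lemma hm_le : ∀ (ds : List ℕ) (bs : List (ℕ × ℕ × ℕ)) (_ : bs.length = ds.length)
    (p : NP ds), hm ds (uv bs (List.replicate ds.length (1 : ℕ))) p ≤ sumc ds p * prodm ds bs
  | [], bs, h, p => by simp [hm, sumc, prodm]
  | d :: ds, (a, b, q) :: bs, h, ps => by
      have h' : bs.length = ds.length := by simpa using h
      simp only [List.length_cons, List.replicate_succ, uv, hm, prodm, Nat.cast_id, mul_one]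
      have h1 : ∀ e ∈ range (d + 1), (a + b) ^ e * (q * (1 + 1)) ^ (d - e) *
          at0 (hm ds (uv bs (List.replicate ds.length 1))) ps e ≤
          at0 (sumc ds) ps e * ((max (a + b) (2 * q)) ^ d * prodm ds bs) := by
        intro e he
        rw [mem_range] at he
        have h2 : (a + b) ^ e * (q * (1 + 1)) ^ (d - e) ≤ (max (a + b) (2 * q)) ^ d := by
          calc (a + b) ^ e * (q * (1 + 1)) ^ (d - e) ≤
              (max (a + b) (2 * q)) ^ e * (max (a + b) (2 * q)) ^ (d - e) := by
                refine Nat.mul_le_mul (Nat.pow_le_pow_left (le_max_left _ _) _)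
                  (Nat.pow_le_pow_left ?_ _)
                have : q * (1 + 1) = 2 * q := by ring
                rw [this]
                exact le_max_right _ _
            _ = _ := by rw [← pow_add]; congr 1; omega
        have h3 : at0 (hm ds (uv bs (List.replicate ds.length 1))) ps e ≤
            at0 (sumc ds) ps e * prodm ds bs := by
          rw [← at0_mul]
          exact at0_le (fun p _ => hm_le ds bs h' p) e
        calc _ ≤ (max (a + b) (2 * q)) ^ d * (at0 (sumc ds) ps e * prodm ds bs) :=
              Nat.mul_le_mul h2 h3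
          _ = _ := by ring
      refine (sum_le_sum h1).trans ?_
      rw [← sum_mul]
      refine Nat.mul_le_mul_right _ ?_
      rw [sumc]
      exact sum_at0_le _ _ _

lemma co_sum_le (ds : List ℕ) (bs : List (ℕ × ℕ × ℕ)) (h : bs.length = ds.length)
    (p : NP ds) : ∑ n ∈ range (sz ds), co ds bs p n ≤ sumc ds p * prodm ds bs := by
  refine le_trans (le_of_eq ?_) (hm_le ds bs h p)
  rw [← root_sum ds bs _ h (by simp)]
  refine sum_congr rfl fun n _ => ?_
  rw [wt_one, mul_one, Nat.cast_id]

/-- value of a polynomial -/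
def ev : (ds : List ℕ) → NP ds → List ℝ → ℝ
  | [], n, _ => ((show ℕ from n) : ℝ)
  | _ :: ds, ps, x :: xs => List.foldr (fun p acc => ev ds p xs + x * acc) 0 ps
  | _ :: _, _, [] => 0

lemma foldr_eq {α : Type} (f : α → ℝ) (x : ℝ) : ∀ (D : ℕ) (ps : List α), ps.length ≤ D →
    List.foldr (fun p acc => f p + x * acc) 0 ps = ∑ e ∈ range D, x ^ e * at0 f ps e
  | 0, ps, h => by
      have : ps = [] := by simpa using h
      simp [this]
  | D + 1, [], h => by simp [at0]
  | D + 1, p :: ps, h => by
      rw [List.foldr_cons, foldr_eq f x D ps (by simpa using h), sum_range_succ', mul_sum]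
      simp only [at0, pow_zero, one_mul]
      rw [add_comm]
      congr 1
      refine sum_congr rfl fun e _ => ?_
      ring

/-- product of the denominators -/
noncomputable def den : List ℕ → List (ℝ × ℝ) → ℝ
  | d :: ds, (_, v) :: uvs => v ^ d * den ds uvs
  | _, _ => 1

lemma hm_ev : ∀ (ds : List ℕ) (uvs : List (ℝ × ℝ)) (xs : List ℝ) (_ : uvs.length = ds.length)
    (_ : List.Forall₂ (fun (c : ℝ × ℝ) x => c.1 = x * c.2) uvs xs)
    (p : NP ds), wf ds p = true → hm ds uvs p = ev ds p xs * den ds uvs
  | [], uvs, xs, _, _, p, _ => by simp [hm, ev, den]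
  | d :: ds, (u, v) :: uvs, [], _, h2, ps, _ => by cases h2
  | d :: ds, (u, v) :: uvs, x :: xs, h1, h2, ps, h3 => by
      have h1' : uvs.length = ds.length := by simpa using h1
      obtain ⟨h4, h5⟩ := List.forall₂_cons.1 h2
      simp only at h4
      simp only [wf, Bool.and_eq_true, Nat.ble_eq, List.all_eq_true] at h3
      simp only [hm, ev, den]
      rw [foldr_eq _ x (d + 1) ps h3.1, sum_mul]
      refine sum_congr rfl fun e he => ?_
      rw [mem_range] at he
      have h6 : at0 (hm ds uvs) ps e = at0 (fun p => ev ds p xs) ps e * den ds uvs := by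
        rw [← at0_mul]
        exact at0_congr (fun p hp => hm_ev ds uvs xs h1' h5 p (h3.2 p hp)) e
      rw [h6, h4]
      have h7 : v ^ d = v ^ e * v ^ (d - e) := by rw [← pow_add]; congr 1; omega
      rw [h7]
      ring

lemma den_pos : ∀ (ds : List ℕ) (uvs : List (ℝ × ℝ)), (∀ c ∈ uvs, 0 < c.2) → 0 < den ds uvs
  | [], uvs, _ => by simp [den]
  | d :: ds, [], _ => by simp [den]
  | d :: ds, (u, v) :: uvs, h => by
      have h1 : 0 < v := h (u, v) (by simp)
      have h2 := den_pos ds uvs fun c hc => h c (by simp [hc])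
      simp only [den]
      positivity

end Pool.Agent.Lib.BoxPos
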