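import Pool.Agent.Lib.BoxPos.Step

/-! Soundness of the checker. -/

namespace Pool.Agent.Lib.BoxPos

open Finset Polynomial

/-- comparison of packed numbers gives comparison of the digits -/
lemma digits_le {w : ℕ} (hw : 0 < w) : ∀ (L : ℕ) (x y : ℕ → ℕ),
    (∀ n < L, x n < 2 ^ (w - 1)) → (∀ n < L, y n < 2 ^ (w - 1)) →
    pk w y L ≤ pk w x L → (∀ n < L, (pk w x L - pk w y L).testBit (w * n + (w - 1)) = false) →
    ∀ n < L, y n ≤ x n
  | 0, x, y, _, _, _, _ => by simp
  | L + 1, x, y, hx, hy, hle, ht => by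
      have hP : ∀ z : ℕ → ℕ, pk w z (L + 1) = 2 ^ w * pk w (fun n => z (n + 1)) L + z 0 := by
        intro z
        unfold pk
        rw [sum_range_succ', mul_zero, pow_zero, mul_one, mul_sum]
        congr 1
        refine sum_congr rfl fun n _ => ?_
        rw [mul_add, mul_one, pow_add]
        ring
      set X := pk w (fun n => x (n + 1)) L with hX
      set Y := pk w (fun n => y (n + 1)) L with hY
      rw [hP x, hP y, ← hX, ← hY] at hle ht
      have hx0 := hx 0 (by omega)
      have hy0 := hy 0 (by omega)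
      have hB : 2 ^ w = 2 * 2 ^ (w - 1) := by
        rw [← pow_succ']; congr 1; omega
      have hBp : 0 < 2 ^ (w - 1) := by positivity
      by_cases h0 : y 0 ≤ x 0
      · have hYX : Y ≤ X := by
          by_contra hc
          push Not at hc
          have : 2 ^ w * (X + 1) ≤ 2 ^ w * Y := Nat.mul_le_mul_left _ hc
          rw [mul_add, mul_one] at this
          omega
        have hd : 2 ^ w * X + x 0 - (2 ^ w * Y + y 0) = 2 ^ w * (X - Y) + (x 0 - y 0) := by
          rw [Nat.mul_sub]
          have : 2 ^ w * Y ≤ 2 ^ w * X := Nat.mul_le_mul_left _ hYX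
          omega
        have ih := digits_le hw L (fun n => x (n + 1)) (fun n => y (n + 1))
          (fun n hn => hx (n + 1) (by omega)) (fun n hn => hy (n + 1) (by omega)) hYX
          (by
            intro n hn
            have h1 := ht (n + 1) (by omega)
            rw [hd, Nat.testBit_two_pow_mul_add _ (by omega)] at h1
            have h2 : ¬ (w * (n + 1) + (w - 1) < w) := by
              have : w * (n + 1) = w * n + w := by ring
              omega
            rw [if_neg h2] at h1
            have h3 : w * (n + 1) + (w - 1) - w = w * n + (w - 1) := by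
              have : w * (n + 1) = w * n + w := by ring
              omega
            rwa [h3] at h1)
        intro n hn
        rcases n with _ | n
        · exact h0
        · exact ih n (by omega)
      · exfalso
        push Not at h0
        have hYX : Y < X := by
          by_contra hc
          push Not at hc
          have : 2 ^ w * X ≤ 2 ^ w * Y := Nat.mul_le_mul_left _ hc
          omega
        have hd : 2 ^ w * X + x 0 - (2 ^ w * Y + y 0) =
            2 ^ w * (X - Y - 1) + (2 ^ w - (y 0 - x 0)) := by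
          obtain ⟨D, hD⟩ := Nat.exists_eq_add_of_lt hYX
          rw [hD]
          have e1 : Y + D + 1 - Y - 1 = D := by omega
          rw [e1]
          have e2 : 2 ^ w * (Y + D + 1) = 2 ^ w * Y + 2 ^ w * D + 2 ^ w := by ring
          rw [e2]
          omega
        have h1 := ht 0 (by omega)
        rw [hd, Nat.testBit_two_pow_mul_add _ (by omega)] at h1
        rw [if_pos (by omega), mul_zero, zero_add] at h1
        have h2 : 2 ^ w - (y 0 - x 0) = 2 ^ (w - 1) * 1 + (2 ^ (w - 1) - (y 0 - x 0)) := by omega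
        rw [h2, Nat.testBit_two_pow_mul_add _ (by omega)] at h1
        simp at h1

lemma testBit_hm {w : ℕ} (hw : 0 < w) {L n : ℕ} (hn : n < L) :
    (ones w L * 2 ^ (w - 1)).testBit (w * n + (w - 1)) = true := by
  have h1 : ones w L * 2 ^ (w - 1) = pk w (fun _ => 2 ^ (w - 1)) L := by
    rw [ones_eq hw, pk, pk, sum_mul]
    exact sum_congr rfl fun n _ => by ring
  have h2 : (2 : ℕ) ^ (w - 1) < 2 ^ w := Nat.pow_lt_pow_right (by norm_num) (by omega)
  rw [h1, testBit_pk hw (fun _ _ => h2)]
  have h3 : (w * n + (w - 1)) / w = n := by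
    rw [Nat.mul_add_div hw, Nat.div_eq_of_lt (by omega), add_zero]
  have h4 : (w * n + (w - 1)) % w = w - 1 := by
    rw [Nat.mul_add_mod, Nat.mod_eq_of_lt (by omega)]
  rw [h3, h4]
  simp [hn]

lemma testXY_digits {w L : ℕ} (hw : 0 < w) {x y : ℕ → ℕ}
    (hx : ∀ n < L, x n < 2 ^ (w - 1)) (hy : ∀ n < L, y n < 2 ^ (w - 1))
    (h : testXY (pk w x L) (pk w y L) (ones w L * 2 ^ (w - 1)) = true) :
    ∀ n < L, y n ≤ x n := by
  unfold testXY at h
  rw [Bool.cond_eq_ite] at h
  split_ifs at h with h1
  have hle : pk w y L ≤ pk w x L := Nat.le_of_ble_eq_true h1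
  have h2 : Nat.land (Nat.sub (pk w x L) (pk w y L)) (ones w L * 2 ^ (w - 1)) = 0 :=
    Nat.eq_of_beq_eq_true h
  refine digits_le hw L x y hx hy hle fun n hn => ?_
  have h3 : (pk w x L - pk w y L) &&& (ones w L * 2 ^ (w - 1)) = 0 := h2
  have h4 := congrArg (fun z => Nat.testBit z (w * n + (w - 1))) h3
  simp only [Nat.testBit_land, Nat.zero_testBit, testBit_hm hw hn, Bool.and_true] at h4
  exact h4

/-- weighted sum of digit functions -/
def dotc : List ℕ → List (ℕ → ℕ) → ℕ → ℕ
  | l :: ls, c :: cs, n => l * c n + dotc ls cs n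
  | _, _, _ => 0

lemma dot_cons (l : ℕ) (ls : List ℕ) (N : ℕ) (st : List ℕ) :
    dot (l :: ls) (N :: st) = l * N + dot ls st := by
  cases l with
  | zero =>
    have : dot (0 :: ls) (N :: st) = dot ls st := rfl
    rw [this, zero_mul, zero_add]
  | succ l => rfl

lemma pk_add {w L : ℕ} (a b : ℕ → ℕ) : pk w (fun n => a n + b n) L = pk w a L + pk w b L := by
  unfold pk
  rw [← sum_add_distrib]
  exact sum_congr rfl fun n _ => by ring

lemma pk_mul {w L : ℕ} (k : ℕ) (a : ℕ → ℕ) : pk w (fun n => k * a n) L = k * pk w a L := by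
  unfold pk
  rw [mul_sum]
  exact sum_congr rfl fun n _ => by ring

lemma pk_zero {w L : ℕ} : pk w (fun _ => 0) L = 0 := by simp [pk]

lemma sumL_cons (l : ℕ) (ls : List ℕ) : sumL (l :: ls) = l + sumL ls := rfl

lemma dot_rel {w L S : ℕ} : ∀ (ls : List ℕ) {st su : List ℕ}
    {cs : List ((ℕ → ℕ) × (ℕ → ℕ))}, Rel w L S st su cs →
    dot ls st = pk w (dotc ls (cs.map Prod.fst)) L ∧
    dot ls su = pk w (dotc ls (cs.map Prod.snd)) L ∧
    (∀ n < L, dotc ls (cs.map Prod.fst) n ≤ sumL ls * S) ∧
    (∀ n < L, dotc ls (cs.map Prod.snd) n ≤ sumL ls * S)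
  | [], st, su, cs, _ => by
      have h1 : ∀ z : List ℕ, dot [] z = 0 := fun _ => rfl
      have h2 : ∀ z : List (ℕ → ℕ), dotc [] z = fun _ => 0 := fun z => by
        funext n
        cases z <;> rfl
      rw [h1, h1, h2, h2, pk_zero]
      simp
  | l :: ls, [], [], [], _ => by
      have h2 : dotc (l :: ls) [] = fun _ => 0 := by
        funext n
        rfl
      have h1 : dot (l :: ls) [] = 0 := rfl
      simp only [List.map_nil]
      rw [h1, h2, pk_zero]
      simp
  | l :: ls, N :: st, M :: su, (c, e) :: cs, h => by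
      obtain ⟨h1, h2, h3, h4, h5⟩ := h
      obtain ⟨i1, i2, i3, i4⟩ := dot_rel ls h5
      have e1 : dotc (l :: ls) (c :: cs.map Prod.fst) =
          fun n => l * c n + dotc ls (cs.map Prod.fst) n := rfl
      have e2 : dotc (l :: ls) (e :: cs.map Prod.snd) =
          fun n => l * e n + dotc ls (cs.map Prod.snd) n := rfl
      simp only [List.map_cons]
      rw [dot_cons, dot_cons, e1, e2, pk_add, pk_add, pk_mul, pk_mul, ← h1, ← h2, ← i1, ← i2]
      refine ⟨rfl, rfl, fun n hn => ?_, fun n hn => ?_⟩
      · have j1 : c n ≤ S := (single_le_sum (f := c) (fun i _ => Nat.zero_le _)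
          (mem_range.2 hn)).trans h3
        have j2 := Nat.mul_le_mul_left l j1
        have j3 := i3 n hn
        rw [sumL_cons, add_mul]
        exact Nat.add_le_add j2 j3
      · have j1 : e n ≤ S := (single_le_sum (f := e) (fun i _ => Nat.zero_le _)
          (mem_range.2 hn)).trans h4
        have j2 := Nat.mul_le_mul_left l j1
        have j3 := i4 n hn
        rw [sumL_cons, add_mul]
        exact Nat.add_le_add j2 j3
  | _ :: _, [], [], _ :: _, h => h.elim
  | _ :: _, [], _ :: _, _, h => h.elim
  | _ :: _, _ :: _, [], _, h => h.elim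
  | _ :: _, _ :: _, _ :: _, [], h => h.elim

/-- weighted sum of values -/
noncomputable def dotv (ds : List ℕ) (T : List ℝ) : List ℕ → List ((ℕ → ℕ) × (ℕ → ℕ)) → ℝ
  | l :: ls, p :: cs => (l : ℝ) * (val ds T p.1 - val ds T p.2) + dotv ds T ls cs
  | _, _ => 0

lemma dotv_eq (ds : List ℕ) (T : List ℝ) : ∀ (ls : List ℕ) (cs : List ((ℕ → ℕ) × (ℕ → ℕ))),
    dotv ds T ls cs = val ds T (dotc ls (cs.map Prod.fst)) - val ds T (dotc ls (cs.map Prod.snd))
  | [], cs => by
      have h2 : ∀ z : List (ℕ → ℕ), dotc [] z = fun _ => 0 := fun z => by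
        funext n
        cases z <;> rfl
      rw [h2, h2, sub_self]
      cases cs <;> rfl
  | l :: ls, [] => by
      have h2 : dotc (l :: ls) [] = fun _ => 0 := by
        funext n
        rfl
      simp only [List.map_nil]
      rw [h2, sub_self]
      rfl
  | l :: ls, p :: cs => by
      rw [dotv, dotv_eq ds T ls cs]
      have e1 : dotc (l :: ls) (p.1 :: cs.map Prod.fst) =
          fun n => l * p.1 n + dotc ls (cs.map Prod.fst) n := rfl
      have e2 : dotc (l :: ls) (p.2 :: cs.map Prod.snd) =
          fun n => l * p.2 n + dotc ls (cs.map Prod.snd) n := rfl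
      simp only [List.map_cons]
      rw [e1, e2]
      have e3 : ∀ a b : ℕ → ℕ, val ds T (fun n => l * a n + b n) =
          l * val ds T a + val ds T b := by
        intro a b
        unfold val
        rw [mul_sum, ← sum_add_distrib]
        refine sum_congr rfl fun n _ => ?_
        push_cast
        ring
      rw [e3, e3]
      ring

lemma dotv_pos (ds : List ℕ) (T : List ℝ) : ∀ (ls : List ℕ) (cs : List ((ℕ → ℕ) × (ℕ → ℕ))),
    0 < dotv ds T ls cs → ∃ p ∈ cs, val ds T p.2 < val ds T p.1
  | [], cs, h => by simp [dotv] at h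
  | l :: ls, [], h => by simp [dotv] at h
  | l :: ls, p :: cs, h => by
      rw [dotv] at h
      by_cases h1 : val ds T p.2 < val ds T p.1
      · exact ⟨p, by simp, h1⟩
      · push Not at h1
        have h2 : (l : ℝ) * (val ds T p.1 - val ds T p.2) ≤ 0 :=
          mul_nonpos_of_nonneg_of_nonpos (Nat.cast_nonneg l) (by linarith)
        obtain ⟨p', hp', h3⟩ := dotv_pos ds T ls cs (by linarith)
        exact ⟨p', by simp [hp'], h3⟩

lemma posl_cons_zero (ls : List ℕ) (N : ℕ) (st : List ℕ) :
    posl (0 :: ls) (N :: st) = posl ls st := rfl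

lemma dotv_nonneg (w L S : ℕ) (ds : List ℕ) (T : List ℝ) : ∀ (ls : List ℕ) (st su : List ℕ)
    (cs : List ((ℕ → ℕ) × (ℕ → ℕ))), Rel w L S st su cs → posl ls st = true →
    0 ≤ dotv ds T ls cs → ∃ p ∈ cs, val ds T p.2 ≤ val ds T p.1
  | [], st, su, cs, _, h, _ => by
      have : posl [] st = false := rfl
      rw [this] at h
      simp at h
  | l :: ls, [], su, cs, _, h, _ => by
      have : posl (l :: ls) [] = false := rfl
      rw [this] at h
      simp at h
  | l :: ls, N :: st, M :: su, p :: cs, hr, h, h0 => by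
      rw [dotv] at h0
      by_cases h1 : val ds T p.2 ≤ val ds T p.1
      · exact ⟨p, by simp, h1⟩
      · push Not at h1
        rcases Nat.eq_zero_or_pos l with hl | hl
        · subst hl
          rw [posl_cons_zero] at h
          obtain ⟨p', hp', h3⟩ := dotv_nonneg w L S ds T ls st su cs hr.2.2.2.2 h (by simpa using h0)
          exact ⟨p', by simp [hp'], h3⟩
        · have hl' : (0 : ℝ) < l := by exact_mod_cast hl
          have h2 : (l : ℝ) * (val ds T p.1 - val ds T p.2) < 0 :=
            mul_neg_of_pos_of_neg hl' (by linarith)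
          obtain ⟨p', hp', h3⟩ := dotv_pos ds T ls cs (by linarith)
          exact ⟨p', by simp [hp'], h3.le⟩
  | _ :: _, _ :: _, [], _, h, _, _ => h.elim
  | _ :: _, _ :: _, _ :: _, [], h, _, _ => h.elim

lemma leaf_good {w s S : ℕ} (hw : 0 < w) {ds : List ℕ} {ls st su : List ℕ}
    {cs : List ((ℕ → ℕ) × (ℕ → ℕ))} (hr : Rel w (sz ds) S st su cs) (hs : s ≤ 1)
    (hb : sumL ls * S + 2 ≤ 2 ^ (w - 1))
    (hp : s = 0 → posl ls st = true)
    (ht : testXY (dot ls st) (dot ls su + s * ones w (sz ds)) (ones w (sz ds) * 2 ^ (w - 1)) = true)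
    (T : List ℝ) (hT : ∀ t ∈ T, 0 ≤ t) : Good s ds T cs := by
  obtain ⟨h1, h2, h3, h4⟩ := dot_rel ls hr
  have e1 : dot ls su + s * ones w (sz ds) =
      pk w (fun n => dotc ls (cs.map Prod.snd) n + s * 1) (sz ds) := by
    rw [pk_add, pk_mul, ← h2, ← ones_eq hw]
  rw [h1, e1] at ht
  have hd := testXY_digits hw (fun n hn => by have := h3 n hn; omega)
    (fun n hn => by have := h4 n hn; omega) ht
  have hv : (s : ℝ) ≤ dotv ds T ls cs := by
    rw [dotv_eq, val, val, ← sum_sub_distrib]
    have h5 : ∑ n ∈ range (sz ds), (s : ℝ) * wt ds T n ≤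
        ∑ n ∈ range (sz ds), ((dotc ls (cs.map Prod.fst) n : ℝ) * wt ds T n -
          (dotc ls (cs.map Prod.snd) n : ℝ) * wt ds T n) := by
      refine sum_le_sum fun n hn => ?_
      have h6 : ((dotc ls (cs.map Prod.snd) n + s * 1 : ℕ) : ℝ) ≤
          (dotc ls (cs.map Prod.fst) n : ℝ) := by exact_mod_cast hd n (mem_range.1 hn)
      push_cast at h6
      rw [← sub_mul]
      exact mul_le_mul_of_nonneg_right (by linarith) (wt_nonneg ds T n hT)
    refine le_trans ?_ h5
    have h7 : (s : ℝ) * wt ds T 0 ≤ ∑ n ∈ range (sz ds), (s : ℝ) * wt ds T n :=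
      single_le_sum (f := fun n => (s : ℝ) * wt ds T n)
        (fun i _ => mul_nonneg (Nat.cast_nonneg s) (wt_nonneg ds T i hT))
        (mem_range.2 (sz_pos ds))
    rwa [wt_zero, mul_one] at h7
  rcases Nat.eq_zero_or_pos s with h0 | h0
  · obtain ⟨p, hp1, hp2⟩ := dotv_nonneg w _ S ds T ls st su cs hr (hp h0)
      (by rw [h0] at hv; simpa using hv)
    exact ⟨p, hp1, hp2, fun h => absurd h0 h⟩
  · have hs' : (0 : ℝ) < s := by exact_mod_cast h0
    obtain ⟨p, hp1, hp2⟩ := dotv_pos ds T ls cs (by linarith)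
    exact ⟨p, hp1, hp2.le, fun _ => hp2⟩

lemma good_erase {s : ℕ} {ds : List ℕ} {T : List ℝ} {cs : List ((ℕ → ℕ) × (ℕ → ℕ))} {j : ℕ}
    (h : Good s ds T (cs.eraseIdx j)) : Good s ds T cs := by
  obtain ⟨p, hp, h1⟩ := h
  exact ⟨p, (List.eraseIdx_sublist cs j).subset hp, h1⟩

lemma run_leaf (I : List Info) (o hm hB : ℕ) (ls : List ℕ) (S : ℕ) (st su : List ℕ) :
    run I o hm hB (.leaf ls) S st su = cond (Nat.ble (sumL ls * S + 2) hB)
      (cond (cond (Nat.ble 1 o) true (posl ls st))
        (testXY (dot ls st) (dot ls su + o) hm) false) false := rfl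

lemma run_drop (I : List Info) (o hm hB : ℕ) (j : ℕ) (t : Tree) (S : ℕ) (st su : List ℕ) :
    run I o hm hB (.drop j t) S st su = run I o hm hB t S (rem j st) (rem j su) := rfl

lemma run_split (I : List Info) (o hm hB : ℕ) (j : ℕ) (l r : Tree) (S : ℕ) (st su : List ℕ)
    {g ws mask : ℕ} {L R : List ℕ} (h : nth j I = .mk g ws mask L R) :
    run I o hm hB (.split j l r) S st su =
        cond (Nat.ble 1 g) (cond (Nat.ble S hB)
        (cond (run I o hm hB l (S * g) (stp ws mask L st) (stp ws mask L su))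
          (run I o hm hB r (S * g) (stp ws mask R st) (stp ws mask R su)) false) false) false := by
  have h1 : run I o hm hB (.split j l r) S st su = Info.rec (motive := fun _ => Bool)
      (fun g ws mask L R =>
        cond (Nat.ble 1 g) (cond (Nat.ble S hB)
        (force (Nat.mul S g) fun S' =>
        cond (run I o hm hB l S' (stp ws mask L st) (stp ws mask L su))
          (run I o hm hB r S' (stp ws mask R st) (stp ws mask R su)) false) false) false)
      (nth j I) := rfl
  rw [h1, h]
  simp only [force_eq]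
  rfl

theorem run_sound {w s : ℕ} (hw : 0 < w) (hs : s ≤ 1) {ds : List ℕ} : ∀ (t : Tree) (S : ℕ)
    (st su : List ℕ) (cs : List ((ℕ → ℕ) × (ℕ → ℕ))), Rel w (sz ds) S st su cs →
    run (infos w ds 1) (s * ones w (sz ds)) (ones w (sz ds) * 2 ^ (w - 1)) (2 ^ (w - 1)) t S st su
      = true →
    ∀ T : List ℝ, T.length = ds.length → (∀ t ∈ T, 0 ≤ t) → Good s ds T cs
  | .leaf ls, S, st, su, cs, hr, h, T, hT, hT0 => by
      rw [run_leaf] at h
      rw [Bool.cond_eq_ite] at h
      split_ifs at h with h1
      rw [Bool.cond_eq_ite] at h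
      split_ifs at h with h2
      refine leaf_good hw hr hs (Nat.le_of_ble_eq_true h1) ?_ h T hT0
      intro h0
      rw [h0, zero_mul] at h2
      exact h2
  | .drop j t, S, st, su, cs, hr, h, T, hT, hT0 => by
      rw [run_drop] at h
      exact good_erase (run_sound hw hs t S _ _ _ (rel_rem j hr) h T hT hT0)
  | .split j l r, S, st, su, cs, hr, h, T, hT, hT0 => by
      rcases lt_or_ge j ds.length with hj | hj
      · obtain ⟨H, d, s', hsp⟩ := exists_spl ds j hj
        have hI := nth_infos (w := w) 1 hsp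
        rw [one_mul] at hI
        rw [run_split _ _ _ _ _ _ _ _ _ _ hI] at h
        simp only [Bool.cond_eq_ite] at h
        split_ifs at h with h1 h2 h3
        have hS : S < 2 ^ w := by
          have h4 : S ≤ 2 ^ (w - 1) := Nat.le_of_ble_eq_true h2
          have h5 : (2 : ℕ) ^ (w - 1) < 2 ^ w := Nat.pow_lt_pow_right (by norm_num) (by omega)
          omega
        have hs' := spl_s_pos hsp
        have hr' := hr
        rw [spl_sz hsp] at hr'
        have hX1 : (X : ℕ[X]).natDegree ≤ 1 := natDegree_X_le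
        have hX2 : (2 + X : ℕ[X]).natDegree ≤ 1 := by
          have : (2 + X : ℕ[X]) = C 1 * X + C 2 := by simp; ring
          rw [this]
          exact natDegree_linear_le
        have hX3 : (1 + 2 * X : ℕ[X]).natDegree ≤ 1 := by
          have : (1 + 2 * X : ℕ[X]) = C 2 * X + C 1 := by simp; ring
          rw [this]
          exact natDegree_linear_le
        have hX4 : (1 : ℕ[X]).natDegree ≤ 1 := by simp
        have h2R : ∀ x : ℝ, aeval x (2 : ℕ[X]) = 2 := fun x => map_ofNat (aeval x) 2
        have hTj : T.set j (T[j]'(by omega)) = T := List.set_getElem_self _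
        set t := T[j]'(by omega) with ht
        have htn : 0 ≤ t := hT0 t (List.getElem_mem _)
        rcases lt_or_ge t 1 with h1t | h1t
        · have hL := rel_stp (s := s') (d := d) (H := H) (u := X) (v := 2 + X) hw hs' hX1 hX2
            (by simp) (by simp) (U := 2 ^ (w * s')) (V := 2 + 2 ^ (w * s')) (by simp)
            (by simp) hS hr'
          rw [← spl_sz hsp] at hL
          have ht0 : 0 < 1 - t := by linarith
          have ih := run_sound hw hs l _ _ _ _ hL h3 (T.set j (2 * t / (1 - t)))
            (by simpa using hT) (by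
              intro x hx
              rcases List.mem_or_eq_of_mem_set hx with hx | hx
              · exact hT0 x hx
              · rw [hx]; positivity)
          have := good_trs hsp hT hX1 hX2 t (2 * t / (1 - t)) (2 / (1 - t)) (by positivity)
            (by rw [aeval_X]; ring) (by
              rw [map_add, aeval_X, h2R]; field_simp; ring) cs ih
          rwa [hTj] at this
        · have hR := rel_stp (s := s') (d := d) (H := H) (u := 1 + 2 * X) (v := 1) hw hs' hX3 hX4
            (by simp) (by simp) (U := 1 + 2 * 2 ^ (w * s')) (V := 1) (by simp)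
            (by simp) hS hr'
          rw [← spl_sz hsp] at hR
          have ih := run_sound hw hs r _ _ _ _ hR h (T.set j ((t - 1) / 2))
            (by simpa using hT) (by
              intro x hx
              rcases List.mem_or_eq_of_mem_set hx with hx | hx
              · exact hT0 x hx
              · rw [hx]
                have : 0 ≤ t - 1 := by linarith
                positivity)
          have := good_trs hsp hT hX3 hX4 t ((t - 1) / 2) 1 (by norm_num)
            (by rw [map_add, map_mul, aeval_X, h2R, map_one]; ring) (by simp) cs ih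
          rwa [hTj] at this
      · exfalso
        have hI := nth_none (w := w) 1 hj
        rw [run_split _ _ _ _ _ _ _ _ _ _ hI] at h
        simp at h

lemma boxOK_length : ∀ (ds : List ℕ) (bs : List (ℕ × ℕ × ℕ)), boxOK ds bs = true →
    bs.length = ds.length
  | [], [], _ => rfl
  | [], _ :: _, h => by simp [boxOK] at h
  | _ :: _, [], h => by simp [boxOK] at h
  | d :: ds, (a, b, q) :: bs, h => by
      simp only [boxOK, Bool.and_eq_true] at h
      simp [boxOK_length ds bs h.2.2]

/-- the parameters of a point in the box -/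
noncomputable def par : List (ℕ × ℕ × ℕ) → List ℝ → List ℝ
  | (a, b, q) :: bs, x :: xs => ((q * x - a) / (b - q * x)) :: par bs xs
  | _, _ => []

/-- the point is in the box -/
def InBox (bs : List (ℕ × ℕ × ℕ)) (xs : List ℝ) : Prop :=
  List.Forall₂ (fun c x => (c.1 : ℝ) ≤ c.2.2 * x ∧ (c.2.2 : ℝ) * x < c.2.1) bs xs

lemma par_spec : ∀ (ds : List ℕ) (bs : List (ℕ × ℕ × ℕ)) (xs : List ℝ),
    boxOK ds bs = true → InBox bs xs →
    (par bs xs).length = ds.length ∧ (∀ t ∈ par bs xs, 0 ≤ t) ∧
    (uv bs (par bs xs)).length = ds.length ∧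
    List.Forall₂ (fun (c : ℝ × ℝ) x => c.1 = x * c.2) (uv bs (par bs xs)) xs ∧
    (∀ c ∈ uv bs (par bs xs), 0 < c.2)
  | [], [], xs, _, h => by
      cases h
      simp [par, uv]
  | [], _ :: _, _, h, _ => by simp [boxOK] at h
  | _ :: _, [], _, h, _ => by simp [boxOK] at h
  | d :: ds, (a, b, q) :: bs, [], h, hx => by cases hx
  | d :: ds, (a, b, q) :: bs, x :: xs, h, hx => by
      simp only [boxOK, Bool.and_eq_true] at h
      obtain ⟨hab, hq, h3⟩ := h
      have hx' := List.forall₂_cons.1 hx
      obtain ⟨⟨h1, h2⟩, h4⟩ := hx'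
      obtain ⟨i1, i2, i3, i4, i5⟩ := par_spec ds bs xs h3 h4
      have hq0 : 0 < q := Nat.le_of_ble_eq_true hq
      have hab0 : a < b := Nat.le_of_ble_eq_true hab
      have hq' : (0 : ℝ) < q := by exact_mod_cast hq0
      have hab' : (a : ℝ) < b := by exact_mod_cast hab0
      simp only at h1 h2
      have hpos : 0 < (b : ℝ) - q * x := by linarith
      have ht : 0 ≤ ((q : ℝ) * x - a) / (b - q * x) := div_nonneg (by linarith) hpos.le
      refine ⟨by simp [par, i1], ?_, by simp [par, uv, i3], ?_, ?_⟩
      · intro t ht'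
        simp only [par, List.mem_cons] at ht'
        rcases ht' with rfl | ht'
        · exact ht
        · exact i2 t ht'
      · simp only [par, uv]
        refine List.forall₂_cons.2 ⟨?_, i4⟩
        simp only
        field_simp
        ring
      · intro c hc
        simp only [par, uv, List.mem_cons] at hc
        rcases hc with rfl | hc
        · simp only
          positivity
        · exact i5 c hc

lemma startP_cons {w : ℕ} {ds : List ℕ} {bs : List (ℕ × ℕ × ℕ)} (p m : NP ds)
    (Ps : List (NP ds × NP ds)) :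
    startP w ds bs ((p, m) :: Ps) = hom ds (tabs w ds bs) p :: startP w ds bs Ps := rfl

lemma rel_start {w S : ℕ} {ds : List ℕ} {bs : List (ℕ × ℕ × ℕ)} (h : bs.length = ds.length) :
    ∀ Ps : List (NP ds × NP ds), maxS ds Ps * prodm ds bs ≤ S →
    Rel w (sz ds) S (startP w ds bs Ps) (startM w ds bs Ps)
      (Ps.map fun p => (co ds bs p.1, co ds bs p.2))
  | [], _ => trivial
  | (p, m) :: Ps, hS => by
      have h1 : sumc ds p ≤ maxS ds ((p, m) :: Ps) := by
        rw [maxS]; exact (le_max_left _ _).trans (le_max_left _ _)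
      have h2 : sumc ds m ≤ maxS ds ((p, m) :: Ps) := by
        rw [maxS]; exact (le_max_right _ _).trans (le_max_left _ _)
      have h3 : maxS ds Ps ≤ maxS ds ((p, m) :: Ps) := by
        rw [maxS]; exact le_max_right _ _
      refine ⟨hom_pk w ds bs h p, hom_pk w ds bs h m, ?_, ?_, ?_⟩
      · exact (co_sum_le ds bs h p).trans ((Nat.mul_le_mul_right _ h1).trans hS)
      · exact (co_sum_le ds bs h m).trans ((Nat.mul_le_mul_right _ h2).trans hS)
      · exact rel_start h Ps ((Nat.mul_le_mul_right _ h3).trans hS)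

lemma wfs_mem {ds : List ℕ} : ∀ {Ps : List (NP ds × NP ds)}, wfs ds Ps = true →
    ∀ p ∈ Ps, wf ds p.1 = true ∧ wf ds p.2 = true
  | [], _, p, hp => by simp at hp
  | (a, b) :: Ps, h, p, hp => by
      simp only [wfs, Bool.and_eq_true] at h
      rcases List.mem_cons.1 hp with rfl | hp
      · exact ⟨h.1, h.2.1⟩
      · exact wfs_mem h.2.2 p hp

theorem check_sound {w s : ℕ} (hs : s ≤ 1) {ds : List ℕ} {bs : List (ℕ × ℕ × ℕ)}
    {Ps : List (NP ds × NP ds)} {t : Tree} (h : check w s ds bs Ps t = true) {xs : List ℝ}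
    (hx : InBox bs xs) :
    ∃ P ∈ Ps, ev ds P.2 xs ≤ ev ds P.1 xs ∧ (s ≠ 0 → ev ds P.2 xs < ev ds P.1 xs) := by
  unfold check at h
  simp only [Bool.cond_eq_ite, force_eq, forceList_eq] at h
  split_ifs at h with h1 h2 h3
  have hw : 0 < w := Nat.le_of_ble_eq_true h1
  have hl := boxOK_length ds bs h2
  obtain ⟨i1, i2, i3, i4, i5⟩ := par_spec ds bs xs h2 hx
  obtain ⟨p, hp, hp1, hp2⟩ := run_sound hw hs t _ _ _ _ (rel_start hl Ps le_rfl) h
    (par bs xs) i1 i2
  obtain ⟨P, hP, rfl⟩ := List.mem_map.1 hp
  obtain ⟨w1, w2⟩ := wfs_mem h3 P hP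
  have hval : ∀ q : NP ds, wf ds q = true →
      val ds (par bs xs) (co ds bs q) = ev ds q xs * den ds (uv bs (par bs xs)) := by
    intro q hq
    unfold val
    rw [root_sum ds bs (par bs xs) hl i1 q]
    exact hm_ev ds _ xs i3 i4 q hq
  have hden := den_pos ds _ i5
  simp only [hval _ w1, hval _ w2] at hp1 hp2
  exact ⟨P, hP, le_of_mul_le_mul_right hp1 hden, fun h0 =>
    lt_of_mul_lt_mul_right (hp2 h0) hden.le⟩

end Pool.Agent.Lib.BoxPos
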