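import Pool.Agent.Lib.BoxPos.Root

/-! One step of the subdivision, and the leaves. -/

namespace Pool.Agent.Lib.BoxPos

open Finset Polynomial

/-- the degree list splits at place `j`: `H` outer blocks, degree `d`, inner size `s` -/
def Spl : List ℕ → ℕ → ℕ → ℕ → ℕ → Prop
  | [], _, _, _, _ => False
  | d0 :: ds, 0, H, d, s => H = 1 ∧ d = d0 ∧ s = sz ds
  | d0 :: ds, j + 1, H, d, s => ∃ H', H = (d0 + 1) * H' ∧ Spl ds j H' d s

lemma exists_spl : ∀ (ds : List ℕ) (j : ℕ), j < ds.length → ∃ H d s, Spl ds j H d s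
  | [], j, h => by simp at h
  | d0 :: ds, 0, h => ⟨1, d0, sz ds, rfl, rfl, rfl⟩
  | d0 :: ds, j + 1, h => by
      obtain ⟨H, d, s, h1⟩ := exists_spl ds j (by simpa using h)
      exact ⟨(d0 + 1) * H, d, s, H, rfl, h1⟩

lemma spl_sz : ∀ {ds : List ℕ} {j H d s : ℕ}, Spl ds j H d s → sz ds = H * ((d + 1) * s)
  | [], j, H, d, s, h => h.elim
  | d0 :: ds, 0, H, d, s, h => by
      obtain ⟨h1, h2, h3⟩ := h
      simp [sz, h1, h2, h3]
  | d0 :: ds, j + 1, H, d, s, h => by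
      obtain ⟨H', h1, h2⟩ := h
      rw [sz, spl_sz h2, h1]
      ring

lemma spl_s_pos : ∀ {ds : List ℕ} {j H d s : ℕ}, Spl ds j H d s → 0 < s
  | [], j, H, d, s, h => h.elim
  | d0 :: ds, 0, H, d, s, h => by
      obtain ⟨h1, h2, h3⟩ := h
      rw [h3]
      exact sz_pos ds
  | d0 :: ds, j + 1, H, d, s, h => by
      obtain ⟨H', h1, h2⟩ := h
      exact spl_s_pos h2

lemma spl_lt : ∀ {ds : List ℕ} {j H d s : ℕ}, Spl ds j H d s → j < ds.length
  | [], j, H, d, s, h => h.elim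
  | d0 :: ds, 0, H, d, s, h => by simp
  | d0 :: ds, j + 1, H, d, s, h => by
      obtain ⟨H', h1, h2⟩ := h
      simpa using spl_lt h2

/-- the weights as functions of one coordinate -/
lemma wt_sep {R : Type*} [CommSemiring R] : ∀ {ds : List ℕ} {zs : List R} {j H d s : ℕ},
    Spl ds j H d s → zs.length = ds.length →
    ∃ V : ℕ → ℕ → R, ∀ z : R, ∀ h < H, ∀ l < d + 1, ∀ o < s,
      wt ds (zs.set j z) (h * ((d + 1) * s) + (l * s + o)) = z ^ l * V h o
  | [], zs, j, H, d, s, h, _ => h.elim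
  | d0 :: ds, z0 :: zs, 0, H, d, s, h, hl => by
      obtain ⟨h1, h2, h3⟩ := h
      subst h1 h2 h3
      refine ⟨fun _ o => wt ds zs o, fun z h hh l hl o ho => ?_⟩
      have h0 : h = 0 := by omega
      subst h0
      have e1 : 0 * ((d + 1) * sz ds) + (l * sz ds + o) = l * sz ds + o := by ring
      have f1 : (l * sz ds + o) / sz ds = l := by
        rw [mul_comm, Nat.mul_add_div (sz_pos ds), Nat.div_eq_of_lt ho, add_zero]
      have f2 : (l * sz ds + o) % sz ds = o := by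
        rw [mul_comm, Nat.mul_add_mod, Nat.mod_eq_of_lt ho]
      rw [e1, List.set_cons_zero, wt, f1, f2]
  | d0 :: ds, z0 :: zs, j + 1, H, d, s, h, hl => by
      obtain ⟨H', h1, h2⟩ := h
      obtain ⟨V, hV⟩ := wt_sep (zs := zs) h2 (by simpa using hl)
      have hsz := spl_sz h2
      have hszp := sz_pos ds
      have hH' : 0 < H' := by
        rcases Nat.eq_zero_or_pos H' with h0 | h0
        · rw [h0, zero_mul] at hsz
          omega
        · exact h0
      refine ⟨fun h o => z0 ^ (h / H') * V (h % H') o, fun z h hh l hl o ho => ?_⟩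
      have e1 : h * ((d + 1) * s) + (l * s + o) =
          sz ds * (h / H') + ((h % H') * ((d + 1) * s) + (l * s + o)) := by
        conv_lhs => rw [← Nat.div_add_mod h H']
        rw [hsz]
        ring
      have hm : h % H' < H' := Nat.mod_lt _ hH'
      have e2 : (h % H') * ((d + 1) * s) + (l * s + o) < sz ds := by
        rw [hsz]
        exact idx_lt hm hl ho
      have f1 : (h * ((d + 1) * s) + (l * s + o)) / sz ds = h / H' := by
        rw [e1, Nat.mul_add_div hszp, Nat.div_eq_of_lt e2, add_zero]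
      have f2 : (h * ((d + 1) * s) + (l * s + o)) % sz ds =
          (h % H') * ((d + 1) * s) + (l * s + o) := by
        rw [e1, Nat.mul_add_mod, Nat.mod_eq_of_lt e2]
      rw [List.set_cons_succ, wt, f1, f2, hV z _ hm l hl o ho]
      ring

lemma force_eq {α : Type} (n : ℕ) (k : ℕ → α) : force n k = k n := by
  cases n <;> rfl

lemma forceList_eq {α : Type} : ∀ (l : List ℕ) (k : List ℕ → α), forceList l k = k l
  | [], k => rfl
  | a :: l, k => by
      have : forceList (a :: l) k = force a fun a' => forceList l fun l' => k (a' :: l') := rfl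
      rw [this, force_eq, forceList_eq]

lemma infos_cons (w d : ℕ) (ds : List ℕ) (H : ℕ) : infos w (d :: ds) H =
    Info.mk (3 ^ d) (w * sz ds) ((2 ^ (w * sz ds) - 1) * ones (w * sz ds * (d + 1)) H)
      (tab (2 ^ (w * sz ds)) (2 + 2 ^ (w * sz ds)) 0 d)
      (tab (1 + 2 * 2 ^ (w * sz ds)) 1 0 d) :: infos w ds (H * (d + 1)) := by
  have : infos w (d :: ds) H =
      force (3 ^ d) fun g =>
      force (w * sz ds) fun ws =>
      force ((2 ^ ws - 1) * ones (ws * (d + 1)) H) fun mask =>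
      forceList (tab (2 ^ ws) (2 + 2 ^ ws) 0 d) fun L =>
      forceList (tab (1 + 2 * 2 ^ ws) 1 0 d) fun R =>
      Info.mk g ws mask L R :: infos w ds (H * (d + 1)) := rfl
  rw [this]
  simp only [force_eq, forceList_eq]

lemma nth_infos {w : ℕ} : ∀ {ds : List ℕ} {j H d s : ℕ} (H0 : ℕ), Spl ds j H d s →
    nth j (infos w ds H0) =
      Info.mk (3 ^ d) (w * s) ((2 ^ (w * s) - 1) * ones (w * s * (d + 1)) (H0 * H))
      (tab (2 ^ (w * s)) (2 + 2 ^ (w * s)) 0 d)
      (tab (1 + 2 * 2 ^ (w * s)) 1 0 d)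
  | [], j, H, d, s, H0, h => h.elim
  | d0 :: ds, 0, H, d, s, H0, h => by
      obtain ⟨h1, h2, h3⟩ := h
      subst h1 h2 h3
      rw [infos_cons, mul_one]
      rfl
  | d0 :: ds, j + 1, H, d, s, H0, h => by
      obtain ⟨H', h1, h2⟩ := h
      rw [infos_cons]
      have h3 := nth_infos (w := w) (H0 * (d0 + 1)) h2
      have h4 : H0 * H = H0 * (d0 + 1) * H' := by rw [h1]; ring
      rw [h4, ← h3]
      rfl

lemma nth_none {w : ℕ} : ∀ {ds : List ℕ} {j : ℕ} (H0 : ℕ), ds.length ≤ j →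
    nth j (infos w ds H0) = Info.mk 0 0 0 [] []
  | [], j, H0, h => rfl
  | d0 :: ds, 0, H0, h => by simp at h
  | d0 :: ds, j + 1, H0, h => by
      rw [infos_cons]
      have h3 := nth_none (w := w) (ds := ds) (j := j) (H0 * (d0 + 1)) (by simpa using h)
      rw [← h3]
      rfl

/-- the value of a digit function at a point of the orthant -/
def val (ds : List ℕ) (T : List ℝ) (c : ℕ → ℕ) : ℝ := ∑ n ∈ range (sz ds), (c n : ℝ) * wt ds T n

lemma wt_nonneg : ∀ (ds : List ℕ) (T : List ℝ) (n : ℕ), (∀ t ∈ T, 0 ≤ t) → 0 ≤ wt ds T n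
  | [], T, n, _ => by simp [wt]
  | d :: ds, [], n, _ => by simp [wt]
  | d :: ds, t :: T, n, h => by
      have h1 : 0 ≤ t := h t (by simp)
      have h2 := wt_nonneg ds T (n % sz ds) fun t ht => h t (by simp [ht])
      simp only [wt]
      positivity

lemma wt_zero : ∀ (ds : List ℕ) (T : List ℝ), wt ds T 0 = 1
  | [], T => by simp [wt]
  | d :: ds, [] => by simp [wt]
  | d :: ds, t :: T => by simp [wt, wt_zero ds T]

/-- the state at a node -/
def Rel (w L S : ℕ) : List ℕ → List ℕ → List ((ℕ → ℕ) × (ℕ → ℕ)) → Prop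
  | [], [], [] => True
  | N :: st, M :: su, (c, u) :: cs => N = pk w c L ∧ M = pk w u L ∧
      ∑ n ∈ range L, c n ≤ S ∧ ∑ n ∈ range L, u n ≤ S ∧ Rel w L S st su cs
  | _, _, _ => False

/-- the conclusion at a point -/
def Good (s : ℕ) (ds : List ℕ) (T : List ℝ) (cs : List ((ℕ → ℕ) × (ℕ → ℕ))) : Prop :=
  ∃ p ∈ cs, val ds T p.2 ≤ val ds T p.1 ∧ (s ≠ 0 → val ds T p.2 < val ds T p.1)

/-- the substitution on all digit functions -/
noncomputable def trs (s : ℕ) (u v : ℕ[X]) (d : ℕ) (cs : List ((ℕ → ℕ) × (ℕ → ℕ))) :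
    List ((ℕ → ℕ) × (ℕ → ℕ)) := cs.map fun p => (tr s u v d p.1, tr s u v d p.2)

lemma digit_lt {w L S : ℕ} {c : ℕ → ℕ} (h : ∑ n ∈ range L, c n ≤ S) (hS : S < 2 ^ w) :
    ∀ n < L, c n < 2 ^ w := by
  intro n hn
  have h1 : c n ≤ ∑ n ∈ range L, c n :=
    single_le_sum (f := c) (fun i _ => Nat.zero_le _) (mem_range.2 hn)
  omega

lemma stp_cons (ws mask : ℕ) (T : List ℕ) (N : ℕ) (st : List ℕ) :
    stp ws mask T (N :: st) = slc ws mask N T 0 :: stp ws mask T st := by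
  have : stp ws mask T (N :: st) =
    force (slc ws mask N T 0) (fun x => x :: stp ws mask T st) := rfl
  rw [this, force_eq]

lemma rel_stp {w s d H S : ℕ} (hw : 0 < w) (hs : 0 < s) {u v : ℕ[X]} (hu : u.natDegree ≤ 1)
    (hv : v.natDegree ≤ 1) (hu1 : aeval (1 : ℕ) u ≤ 3) (hv1 : aeval (1 : ℕ) v ≤ 3)
    {U V : ℕ} (hU : U = aeval (2 ^ (w * s) : ℕ) u) (hV : V = aeval (2 ^ (w * s) : ℕ) v)
    (hS : S < 2 ^ w) : ∀ {st su : List ℕ} {cs : List ((ℕ → ℕ) × (ℕ → ℕ))},
    Rel w (H * ((d + 1) * s)) S st su cs →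
    Rel w (H * ((d + 1) * s)) (S * 3 ^ d)
      (stp (w * s) ((2 ^ (w * s) - 1) * ones (w * s * (d + 1)) H) (tab U V 0 d) st)
      (stp (w * s) ((2 ^ (w * s) - 1) * ones (w * s * (d + 1)) H) (tab U V 0 d) su)
      (trs s u v d cs)
  | [], [], [], _ => trivial
  | N :: st, M :: su, (c, e) :: cs, h => by
      obtain ⟨h1, h2, h3, h4, h5⟩ := h
      rw [stp_cons, stp_cons]
      refine ⟨?_, ?_, ?_, ?_, rel_stp hw hs hu hv hu1 hv1 hU hV hS h5⟩
      · rw [h1]
        exact slc_pk hw hs hu hv (digit_lt h3 hS) hU hV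
      · rw [h2]
        exact slc_pk hw hs hu hv (digit_lt h4 hS) hU hV
      · exact (tr_sum_le hu hv hu1 hv1 c).trans (Nat.mul_le_mul_right _ h3)
      · exact (tr_sum_le hu hv hu1 hv1 e).trans (Nat.mul_le_mul_right _ h4)
  | [], [], _ :: _, h => h.elim
  | [], _ :: _, _, h => h.elim
  | _ :: _, [], _, h => h.elim
  | _ :: _, _ :: _, [], h => h.elim

lemma rem_cons_zero (N : ℕ) (st : List ℕ) : rem 0 (N :: st) = st := rfl

lemma rem_cons_succ (j N : ℕ) (st : List ℕ) : rem (j + 1) (N :: st) = N :: rem j st := rfl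

lemma rem_nil (j : ℕ) : rem j [] = [] := rfl

lemma rel_rem {w L S : ℕ} : ∀ (j : ℕ) {st su : List ℕ} {cs : List ((ℕ → ℕ) × (ℕ → ℕ))},
    Rel w L S st su cs → Rel w L S (rem j st) (rem j su) (cs.eraseIdx j)
  | j, [], [], [], _ => by
      rw [rem_nil]
      cases j <;> trivial
  | 0, N :: st, M :: su, (c, e) :: cs, h => h.2.2.2.2
  | j + 1, N :: st, M :: su, (c, e) :: cs, h => by
      obtain ⟨h1, h2, h3, h4, h5⟩ := h
      exact ⟨h1, h2, h3, h4, rel_rem j h5⟩
  | _, [], [], _ :: _, h => h.elim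
  | _, [], _ :: _, _, h => h.elim
  | _, _ :: _, [], _, h => h.elim
  | _, _ :: _, _ :: _, [], h => h.elim

/-- values after the substitution -/
lemma val_tr {ds : List ℕ} {j H d s : ℕ} (h : Spl ds j H d s) {T : List ℝ}
    (hT : T.length = ds.length) {u v : ℕ[X]} (hu : u.natDegree ≤ 1) (hv : v.natDegree ≤ 1)
    (t t' k : ℝ) (h1 : aeval t' u = k * t) (h2 : aeval t' v = k) (c : ℕ → ℕ) :
    val ds (T.set j t') (tr s u v d c) = k ^ d * val ds (T.set j t) c := by
  obtain ⟨V, hV⟩ := wt_sep (R := ℝ) h hT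
  unfold val
  rw [spl_sz h]
  rw [tr_sum hu hv c _ V t' (fun h hh l hl o ho => hV t' h hh l hl o ho),
    id_sum c _ V t (fun h hh l hl o ho => hV t h hh l hl o ho), mul_sum]
  refine sum_congr rfl fun e he => ?_
  rw [mem_range] at he
  rw [h1, h2, mul_pow]
  have : k ^ d = k ^ e * k ^ (d - e) := by rw [← pow_add]; congr 1; omega
  rw [this]
  ring

lemma good_trs {s' : ℕ} {ds : List ℕ} {j H d s : ℕ} (h : Spl ds j H d s) {T : List ℝ}
    (hT : T.length = ds.length) {u v : ℕ[X]} (hu : u.natDegree ≤ 1) (hv : v.natDegree ≤ 1)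
    (t t' k : ℝ) (hk : 0 < k) (h1 : aeval t' u = k * t) (h2 : aeval t' v = k)
    (cs : List ((ℕ → ℕ) × (ℕ → ℕ))) (hg : Good s' ds (T.set j t') (trs s u v d cs)) :
    Good s' ds (T.set j t) cs := by
  obtain ⟨p, hp, hp1, hp2⟩ := hg
  rw [trs, List.mem_map] at hp
  obtain ⟨p0, hp0, rfl⟩ := hp
  have hkd : 0 < k ^ d := by positivity
  rw [val_tr h hT hu hv t t' k h1 h2, val_tr h hT hu hv t t' k h1 h2] at hp1
  refine ⟨p0, hp0, le_of_mul_le_mul_left hp1 hkd, fun hs => ?_⟩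
  have := hp2 hs
  rw [val_tr h hT hu hv t t' k h1 h2, val_tr h hT hu hv t t' k h1 h2] at this
  exact lt_of_mul_lt_mul_left this hkd.le

end Pool.Agent.Lib.BoxPos
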