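import Pool.Agent.Lib.BoxPos.Core
namespace Pool.Agent.Lib.BoxPos
def tp0 : NP [2, 2, 2] := ([[[0, 0, 4000], [], [8000]], [], [[4000]]] : List (List (List Nat)))
def tm0 : NP [2, 2, 2] := ([[[4], [0, 8000]], [[], [8000]]] : List (List (List Nat)))
def tp1 : NP [2, 2, 2] := ([[[20], [0, 8000]], [[], [8000]]] : List (List (List Nat)))
def tm1 : NP [2, 2, 2] := ([[[0, 0, 4000], [], [8000]], [], [[4000]]] : List (List (List Nat)))
def tr1 : Tree := (.split 1 (.split 0 (.split 2 (.split 1 (.split 0 (.split 2 (.split 1 (.split 0 (.split 2 (.split 1 (.split 0 (.split 2 (.split 0 (.split 1 (.leaf [0, 1]) (.split 1 (.leaf [0, 1]) (.split 2 (.split 0 (.leaf [1]) (.split 2 (.leaf [1]) (.leaf [0, 1]))) (.leaf [0, 1])))) (.split 1 (.split 1 (.split 2 (.leaf [0, 1]) (.split 0 (.split 2 (.leaf [0, 1]) (.leaf [1])) (.leaf [1]))) (.leaf [0, 1])) (.leaf [0, 1]))) (.split 1 (.split 2 (.split 0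 (.split 2 (.split 1 (.leaf [1]) (.leaf [0, 1])) (.leaf [1])) (.split 1 (.leaf [1]) (.split 2 (.split 1 (.leaf [1]) (.leaf [0, 1])) (.leaf [1])))) (.leaf [1])) (.split 2 (.leaf [0, 1]) (.split 2 (.split 0 (.leaf [1]) (.split 1 (.leaf [1]) (.leaf [0, 1]))) (.leaf [1]))))) (.split 2 (.split 0 (.split 1 (.split 2 (.split 0 (.split 1 (.leaf [1]) (.leaf [0, 1])) (.leaf [1])) (.split 1 (.leaf [1]) (.split 0 (.split 1 (.leaf [1]) (.leaf [0, 1])) (.leaf [1])))) (.leaf [0, 1])) (.split 1 (.leaf [1]) (.split 0 (.split 2 (.leaf [1]) (.split 1 (.leaf [1]) (.leaf [0, 1]))) (.leaf [1])))) (.split 1 (.leaf [1]) (.split 0 (.split 2 (.split 1 (.split 0 (.split 2 (.leaf [0, 1]) (.leaf [1])) (.leaf [1])) (.leaf [0, 1])) (.split 1 (.leaf [1]) (.split 2 (.split 1 (.leaf [1]) (.leaf [0, 1])) (.leaf [1])))) (.split 1 (.leaf [1]) (.split 0 (.split 2 (.split 1 (.leaf [1]) (.leaf [0, 1])) (.leaf [1]))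 (.leaf [1]))))))) (.split 0 (.split 2 (.split 1 (.split 0 (.split 1 (.split 0 (.leaf [1]) (.split 2 (.leaf [1]) (.split 1 (.leaf [0, 1]) (.leaf [1])))) (.leaf [1])) (.split 2 (.split 1 (.split 2 (.leaf [1]) (.split 1 (.leaf [0, 1]) (.leaf [1]))) (.leaf [1])) (.split 1 (.leaf [0, 1]) (.split 0 (.leaf [1]) (.split 2 (.leaf [1]) (.leaf [0, 1])))))) (.leaf [1])) (.split 0 (.split 1 (.split 0 (.leaf [1]) (.split 2 (.split 1 (.leaf [0, 1]) (.leaf [1])) (.leaf [1]))) (.leaf [1])) (.split 1 (.leaf [0, 1]) (.split 2 (.split 1 (.split 0 (.leaf [1]) (.split 1 (.leaf [0, 1]) (.leaf [1]))) (.leaf [1])) (.split 0 (.leaf [1]) (.split 1 (.leaf [0, 1]) (.leaf [1]))))))) (.split 2 (.split 1 (.split 2 (.split 2 (.leaf [1]) (.split 0 (.split 1 (.leaf [0, 1]) (.leaf [1])) (.leaf [1]))) (.leaf [0, 1])) (.split 2 (.leaf [1]) (.split 0 (.split 1 (.split 2 (.leaf [1]) (.split 1 (.leaf [0, 1]) (.leaf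 [1]))) (.leaf [1])) (.split 2 (.leaf [1]) (.split 1 (.leaf [0, 1]) (.leaf [1])))))) (.split 0 (.split 1 (.leaf [0, 1]) (.split 1 (.leaf [0, 1]) (.split 2 (.split 0 (.leaf [1]) (.split 2 (.leaf [1]) (.leaf [0, 1]))) (.leaf [0, 1])))) (.split 1 (.split 1 (.split 2 (.leaf [0, 1]) (.split 0 (.split 2 (.leaf [0, 1]) (.leaf [1])) (.leaf [1]))) (.leaf [0, 1])) (.leaf [0, 1])))))) (.split 1 (.split 2 (.split 0 (.leaf [1]) (.leaf [1])) (.leaf [1])) (.split 2 (.split 0 (.split 1 (.leaf [1]) (.leaf [1])) (.split 1 (.split 2 (.split 0 (.split 2 (.split 1 (.leaf [1]) (.leaf [0, 1])) (.leaf [1])) (.split 1 (.leaf [1]) (.split 2 (.split 1 (.leaf [1]) (.leaf [0, 1])) (.leaf [1])))) (.leaf [1])) (.split 2 (.leaf [0, 1]) (.split 2 (.split 0 (.leaf [1]) (.split 1 (.leaf [1]) (.leaf [0, 1]))) (.leaf [1]))))) (.leaf [1])))) (.split 2 (.split 0 (.split 1 (.split 2 (.leaf [1]) (.leaf [1])) (.split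 2 (.split 1 (.leaf [1]) (.leaf [1])) (.split 0 (.split 1 (.split 2 (.split 0 (.split 1 (.leaf [1]) (.leaf [0, 1])) (.leaf [1])) (.split 1 (.leaf [1]) (.split 0 (.split 1 (.leaf [1]) (.leaf [0, 1])) (.leaf [1])))) (.leaf [0, 1])) (.split 1 (.leaf [1]) (.split 0 (.split 2 (.leaf [1]) (.split 1 (.leaf [1]) (.leaf [0, 1]))) (.leaf [1])))))) (.leaf [1])) (.split 1 (.leaf [1]) (.split 0 (.split 2 (.split 1 (.leaf [1]) (.split 0 (.split 2 (.split 1 (.split 0 (.split 2 (.leaf [0, 1]) (.leaf [1])) (.leaf [1])) (.leaf [0, 1])) (.split 1 (.leaf [1]) (.split 2 (.split 1 (.leaf [1]) (.leaf [0, 1])) (.leaf [1])))) (.split 1 (.leaf [1]) (.split 0 (.split 2 (.split 1 (.leaf [1]) (.leaf [0, 1])) (.leaf [1])) (.leaf [1]))))) (.leaf [1])) (.leaf [1]))))) (.split 0 (.split 2 (.split 1 (.split 0 (.leaf [1]) (.split 2 (.leaf [1]) (.split 1 (.split 0 (.split 1 (.split 0 (.leaf [1]) (.split 2 (.leaf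 [1]) (.split 1 (.leaf [0, 1]) (.leaf [1])))) (.leaf [1])) (.split 2 (.split 1 (.split 2 (.leaf [1]) (.split 1 (.leaf [0, 1]) (.leaf [1]))) (.leaf [1])) (.split 1 (.leaf [0, 1]) (.split 0 (.leaf [1]) (.split 2 (.leaf [1]) (.leaf [0, 1])))))) (.leaf [1])))) (.leaf [1])) (.split 0 (.leaf [1]) (.split 1 (.split 2 (.split 0 (.split 1 (.split 0 (.leaf [1]) (.split 2 (.split 1 (.leaf [0, 1]) (.leaf [1])) (.leaf [1]))) (.leaf [1])) (.split 1 (.leaf [0, 1]) (.split 2 (.split 1 (.split 0 (.leaf [1]) (.split 1 (.leaf [0, 1]) (.leaf [1]))) (.leaf [1])) (.split 0 (.leaf [1]) (.split 1 (.leaf [0, 1]) (.leaf [1])))))) (.split 1 (.leaf [1]) (.leaf [1]))) (.split 2 (.leaf [1]) (.leaf [1]))))) (.split 2 (.split 1 (.split 2 (.leaf [1]) (.split 0 (.split 1 (.split 2 (.split 2 (.leaf [1]) (.split 0 (.split 1 (.leaf [0, 1]) (.leaf [1])) (.leaf [1]))) (.leaf [0, 1])) (.split 2 (.leaf [1]) (.split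 0 (.split 1 (.split 2 (.leaf [1]) (.split 1 (.leaf [0, 1]) (.leaf [1]))) (.leaf [1])) (.split 2 (.leaf [1]) (.split 1 (.leaf [0, 1]) (.leaf [1])))))) (.split 1 (.leaf [1]) (.leaf [1])))) (.split 2 (.leaf [1]) (.split 0 (.leaf [1]) (.leaf [1])))) (.split 1 (.split 0 (.split 2 (.split 0 (.split 1 (.leaf [0, 1]) (.split 1 (.leaf [0, 1]) (.split 2 (.split 0 (.leaf [1]) (.split 2 (.leaf [1]) (.leaf [0, 1]))) (.leaf [0, 1])))) (.split 1 (.split 1 (.split 2 (.leaf [0, 1]) (.split 0 (.split 2 (.leaf [0, 1]) (.leaf [1])) (.leaf [1]))) (.leaf [0, 1])) (.leaf [0, 1]))) (.split 1 (.split 2 (.split 0 (.split 2 (.split 1 (.leaf [1]) (.leaf [0, 1])) (.leaf [1])) (.split 1 (.leaf [1]) (.split 2 (.split 1 (.leaf [1]) (.leaf [0, 1])) (.leaf [1])))) (.leaf [1])) (.split 2 (.leaf [0, 1]) (.split 2 (.split 0 (.leaf [1]) (.split 1 (.leaf [1]) (.leaf [0, 1]))) (.leaf [1]))))) (.split 2 (.split 0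 (.split 1 (.split 2 (.split 0 (.split 1 (.leaf [1]) (.leaf [0, 1])) (.leaf [1])) (.split 1 (.leaf [1]) (.split 0 (.split 1 (.leaf [1]) (.leaf [0, 1])) (.leaf [1])))) (.leaf [0, 1])) (.split 1 (.leaf [1]) (.split 0 (.split 2 (.leaf [1]) (.split 1 (.leaf [1]) (.leaf [0, 1]))) (.leaf [1])))) (.split 1 (.leaf [1]) (.split 0 (.split 2 (.split 1 (.split 0 (.split 2 (.leaf [0, 1]) (.leaf [1])) (.leaf [1])) (.leaf [0, 1])) (.split 1 (.leaf [1]) (.split 2 (.split 1 (.leaf [1]) (.leaf [0, 1])) (.leaf [1])))) (.split 1 (.leaf [1]) (.split 0 (.split 2 (.split 1 (.leaf [1]) (.leaf [0, 1])) (.leaf [1])) (.leaf [1]))))))) (.split 0 (.split 2 (.split 1 (.split 0 (.split 1 (.split 0 (.leaf [1]) (.split 2 (.leaf [1]) (.split 1 (.leaf [0, 1]) (.leaf [1])))) (.leaf [1])) (.split 2 (.split 1 (.split 2 (.leaf [1]) (.split 1 (.leaf [0, 1]) (.leaf [1]))) (.leaf [1])) (.split 1 (.leaf [0, 1]) (.split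 0 (.leaf [1]) (.split 2 (.leaf [1]) (.leaf [0, 1])))))) (.leaf [1])) (.split 0 (.split 1 (.split 0 (.leaf [1]) (.split 2 (.split 1 (.leaf [0, 1]) (.leaf [1])) (.leaf [1]))) (.leaf [1])) (.split 1 (.leaf [0, 1]) (.split 2 (.split 1 (.split 0 (.leaf [1]) (.split 1 (.leaf [0, 1]) (.leaf [1]))) (.leaf [1])) (.split 0 (.leaf [1]) (.split 1 (.leaf [0, 1]) (.leaf [1]))))))) (.split 2 (.split 1 (.split 2 (.split 2 (.leaf [1]) (.split 0 (.split 1 (.leaf [0, 1]) (.leaf [1])) (.leaf [1]))) (.leaf [0, 1])) (.split 2 (.leaf [1]) (.split 0 (.split 1 (.split 2 (.leaf [1]) (.split 1 (.leaf [0, 1]) (.leaf [1]))) (.leaf [1])) (.split 2 (.leaf [1]) (.split 1 (.leaf [0, 1]) (.leaf [1])))))) (.split 0 (.split 1 (.leaf [0, 1]) (.split 1 (.leaf [0, 1]) (.split 2 (.split 0 (.leaf [1]) (.split 2 (.leaf [1]) (.leaf [0, 1]))) (.leaf [0, 1])))) (.split 1 (.split 1 (.split 2 (.leaf [0, 1]) (.split 0 (.split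 2 (.leaf [0, 1]) (.leaf [1])) (.leaf [1]))) (.leaf [0, 1])) (.leaf [0, 1]))))))))) (.split 1 (.split 2 (.split 0 (.leaf [1]) (.leaf [1])) (.leaf [1])) (.split 2 (.split 0 (.split 1 (.leaf [1]) (.leaf [1])) (.split 1 (.split 2 (.split 0 (.leaf [1]) (.leaf [1])) (.leaf [1])) (.split 2 (.split 0 (.split 1 (.leaf [1]) (.leaf [1])) (.split 1 (.split 2 (.split 0 (.split 2 (.split 1 (.leaf [1]) (.leaf [0, 1])) (.leaf [1])) (.split 1 (.leaf [1]) (.split 2 (.split 1 (.leaf [1]) (.leaf [0, 1])) (.leaf [1])))) (.leaf [1])) (.split 2 (.leaf [0, 1]) (.split 2 (.split 0 (.leaf [1]) (.split 1 (.leaf [1]) (.leaf [0, 1]))) (.leaf [1]))))) (.leaf [1])))) (.leaf [1])))) (.split 2 (.split 0 (.split 1 (.split 2 (.leaf [1]) (.leaf [1])) (.split 2 (.split 1 (.leaf [1]) (.leaf [1])) (.split 0 (.split 1 (.split 2 (.leaf [1]) (.leaf [1])) (.split 2 (.split 1 (.leaf [1]) (.leaf [1])) (.split 0 (.split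 1 (.split 2 (.split 0 (.split 1 (.leaf [1]) (.leaf [0, 1])) (.leaf [1])) (.split 1 (.leaf [1]) (.split 0 (.split 1 (.leaf [1]) (.leaf [0, 1])) (.leaf [1])))) (.leaf [0, 1])) (.split 1 (.leaf [1]) (.split 0 (.split 2 (.leaf [1]) (.split 1 (.leaf [1]) (.leaf [0, 1]))) (.leaf [1])))))) (.leaf [1])))) (.leaf [1])) (.split 1 (.leaf [1]) (.split 0 (.split 2 (.split 1 (.leaf [1]) (.split 0 (.split 2 (.split 1 (.leaf [1]) (.split 0 (.split 2 (.split 1 (.split 0 (.split 2 (.leaf [0, 1]) (.leaf [1])) (.leaf [1])) (.leaf [0, 1])) (.split 1 (.leaf [1]) (.split 2 (.split 1 (.leaf [1]) (.leaf [0, 1])) (.leaf [1])))) (.split 1 (.leaf [1]) (.split 0 (.split 2 (.split 1 (.leaf [1]) (.leaf [0, 1])) (.leaf [1])) (.leaf [1]))))) (.leaf [1])) (.leaf [1]))) (.leaf [1])) (.leaf [1]))))) (.split 0 (.split 2 (.split 1 (.split 0 (.leaf [1]) (.split 2 (.leaf [1]) (.split 1 (.split 0 (.leaf [1]) (.split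 2 (.leaf [1]) (.split 1 (.split 0 (.split 1 (.split 0 (.leaf [1]) (.split 2 (.leaf [1]) (.split 1 (.leaf [0, 1]) (.leaf [1])))) (.leaf [1])) (.split 2 (.split 1 (.split 2 (.leaf [1]) (.split 1 (.leaf [0, 1]) (.leaf [1]))) (.leaf [1])) (.split 1 (.leaf [0, 1]) (.split 0 (.leaf [1]) (.split 2 (.leaf [1]) (.leaf [0, 1])))))) (.leaf [1])))) (.leaf [1])))) (.leaf [1])) (.split 0 (.leaf [1]) (.split 1 (.split 2 (.split 0 (.leaf [1]) (.split 1 (.split 2 (.split 0 (.split 1 (.split 0 (.leaf [1]) (.split 2 (.split 1 (.leaf [0, 1]) (.leaf [1])) (.leaf [1]))) (.leaf [1])) (.split 1 (.leaf [0, 1]) (.split 2 (.split 1 (.split 0 (.leaf [1]) (.split 1 (.leaf [0, 1]) (.leaf [1]))) (.leaf [1])) (.split 0 (.leaf [1]) (.split 1 (.leaf [0, 1]) (.leaf [1])))))) (.split 1 (.leaf [1]) (.leaf [1]))) (.split 2 (.leaf [1]) (.leaf [1])))) (.split 1 (.leaf [1]) (.leaf [1]))) (.split 2 (.leaf [1]) (.leaf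 [1]))))) (.split 2 (.split 1 (.split 2 (.leaf [1]) (.split 0 (.split 1 (.split 2 (.leaf [1]) (.split 0 (.split 1 (.split 2 (.split 2 (.leaf [1]) (.split 0 (.split 1 (.leaf [0, 1]) (.leaf [1])) (.leaf [1]))) (.leaf [0, 1])) (.split 2 (.leaf [1]) (.split 0 (.split 1 (.split 2 (.leaf [1]) (.split 1 (.leaf [0, 1]) (.leaf [1]))) (.leaf [1])) (.split 2 (.leaf [1]) (.split 1 (.leaf [0, 1]) (.leaf [1])))))) (.split 1 (.leaf [1]) (.leaf [1])))) (.split 2 (.leaf [1]) (.split 0 (.leaf [1]) (.leaf [1])))) (.split 1 (.leaf [1]) (.leaf [1])))) (.split 2 (.leaf [1]) (.split 0 (.leaf [1]) (.leaf [1])))) (.split 1 (.split 0 (.split 2 (.split 1 (.split 0 (.split 2 (.split 0 (.split 1 (.leaf [0, 1]) (.split 1 (.leaf [0, 1]) (.split 2 (.split 0 (.leaf [1]) (.split 2 (.leaf [1]) (.leaf [0, 1]))) (.leaf [0, 1])))) (.split 1 (.split 1 (.split 2 (.leaf [0, 1]) (.split 0 (.split 2 (.leaf [0, 1]) (.leaf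 [1])) (.leaf [1]))) (.leaf [0, 1])) (.leaf [0, 1]))) (.split 1 (.split 2 (.split 0 (.split 2 (.split 1 (.leaf [1]) (.leaf [0, 1])) (.leaf [1])) (.split 1 (.leaf [1]) (.split 2 (.split 1 (.leaf [1]) (.leaf [0, 1])) (.leaf [1])))) (.leaf [1])) (.split 2 (.leaf [0, 1]) (.split 2 (.split 0 (.leaf [1]) (.split 1 (.leaf [1]) (.leaf [0, 1]))) (.leaf [1]))))) (.split 2 (.split 0 (.split 1 (.split 2 (.split 0 (.split 1 (.leaf [1]) (.leaf [0, 1])) (.leaf [1])) (.split 1 (.leaf [1]) (.split 0 (.split 1 (.leaf [1]) (.leaf [0, 1])) (.leaf [1])))) (.leaf [0, 1])) (.split 1 (.leaf [1]) (.split 0 (.split 2 (.leaf [1]) (.split 1 (.leaf [1]) (.leaf [0, 1]))) (.leaf [1])))) (.split 1 (.leaf [1]) (.split 0 (.split 2 (.split 1 (.split 0 (.split 2 (.leaf [0, 1]) (.leaf [1])) (.leaf [1])) (.leaf [0, 1])) (.split 1 (.leaf [1]) (.split 2 (.split 1 (.leaf [1]) (.leaf [0, 1])) (.leaf [1])))) (.split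 1 (.leaf [1]) (.split 0 (.split 2 (.split 1 (.leaf [1]) (.leaf [0, 1])) (.leaf [1])) (.leaf [1]))))))) (.split 0 (.split 2 (.split 1 (.split 0 (.split 1 (.split 0 (.leaf [1]) (.split 2 (.leaf [1]) (.split 1 (.leaf [0, 1]) (.leaf [1])))) (.leaf [1])) (.split 2 (.split 1 (.split 2 (.leaf [1]) (.split 1 (.leaf [0, 1]) (.leaf [1]))) (.leaf [1])) (.split 1 (.leaf [0, 1]) (.split 0 (.leaf [1]) (.split 2 (.leaf [1]) (.leaf [0, 1])))))) (.leaf [1])) (.split 0 (.split 1 (.split 0 (.leaf [1]) (.split 2 (.split 1 (.leaf [0, 1]) (.leaf [1])) (.leaf [1]))) (.leaf [1])) (.split 1 (.leaf [0, 1]) (.split 2 (.split 1 (.split 0 (.leaf [1]) (.split 1 (.leaf [0, 1]) (.leaf [1]))) (.leaf [1])) (.split 0 (.leaf [1]) (.split 1 (.leaf [0, 1]) (.leaf [1]))))))) (.split 2 (.split 1 (.split 2 (.split 2 (.leaf [1]) (.split 0 (.split 1 (.leaf [0, 1]) (.leaf [1])) (.leaf [1]))) (.leaf [0, 1])) (.split 2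 (.leaf [1]) (.split 0 (.split 1 (.split 2 (.leaf [1]) (.split 1 (.leaf [0, 1]) (.leaf [1]))) (.leaf [1])) (.split 2 (.leaf [1]) (.split 1 (.leaf [0, 1]) (.leaf [1])))))) (.split 0 (.split 1 (.leaf [0, 1]) (.split 1 (.leaf [0, 1]) (.split 2 (.split 0 (.leaf [1]) (.split 2 (.leaf [1]) (.leaf [0, 1]))) (.leaf [0, 1])))) (.split 1 (.split 1 (.split 2 (.leaf [0, 1]) (.split 0 (.split 2 (.leaf [0, 1]) (.leaf [1])) (.leaf [1]))) (.leaf [0, 1])) (.leaf [0, 1])))))) (.split 1 (.split 2 (.split 0 (.leaf [1]) (.leaf [1])) (.leaf [1])) (.split 2 (.split 0 (.split 1 (.leaf [1]) (.leaf [1])) (.split 1 (.split 2 (.split 0 (.split 2 (.split 1 (.leaf [1]) (.leaf [0, 1])) (.leaf [1])) (.split 1 (.leaf [1]) (.split 2 (.split 1 (.leaf [1]) (.leaf [0, 1])) (.leaf [1])))) (.leaf [1])) (.split 2 (.leaf [0, 1]) (.split 2 (.split 0 (.leaf [1]) (.split 1 (.leaf [1]) (.leaf [0, 1]))) (.leaf [1])))))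 (.leaf [1])))) (.split 2 (.split 0 (.split 1 (.split 2 (.leaf [1]) (.leaf [1])) (.split 2 (.split 1 (.leaf [1]) (.leaf [1])) (.split 0 (.split 1 (.split 2 (.split 0 (.split 1 (.leaf [1]) (.leaf [0, 1])) (.leaf [1])) (.split 1 (.leaf [1]) (.split 0 (.split 1 (.leaf [1]) (.leaf [0, 1])) (.leaf [1])))) (.leaf [0, 1])) (.split 1 (.leaf [1]) (.split 0 (.split 2 (.leaf [1]) (.split 1 (.leaf [1]) (.leaf [0, 1]))) (.leaf [1])))))) (.leaf [1])) (.split 1 (.leaf [1]) (.split 0 (.split 2 (.split 1 (.leaf [1]) (.split 0 (.split 2 (.split 1 (.split 0 (.split 2 (.leaf [0, 1]) (.leaf [1])) (.leaf [1])) (.leaf [0, 1])) (.split 1 (.leaf [1]) (.split 2 (.split 1 (.leaf [1]) (.leaf [0, 1])) (.leaf [1])))) (.split 1 (.leaf [1]) (.split 0 (.split 2 (.split 1 (.leaf [1]) (.leaf [0, 1])) (.leaf [1])) (.leaf [1]))))) (.leaf [1])) (.leaf [1]))))) (.split 0 (.split 2 (.split 1 (.split 0 (.leaf [1])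 (.split 2 (.leaf [1]) (.split 1 (.split 0 (.split 1 (.split 0 (.leaf [1]) (.split 2 (.leaf [1]) (.split 1 (.leaf [0, 1]) (.leaf [1])))) (.leaf [1])) (.split 2 (.split 1 (.split 2 (.leaf [1]) (.split 1 (.leaf [0, 1]) (.leaf [1]))) (.leaf [1])) (.split 1 (.leaf [0, 1]) (.split 0 (.leaf [1]) (.split 2 (.leaf [1]) (.leaf [0, 1])))))) (.leaf [1])))) (.leaf [1])) (.split 0 (.leaf [1]) (.split 1 (.split 2 (.split 0 (.split 1 (.split 0 (.leaf [1]) (.split 2 (.split 1 (.leaf [0, 1]) (.leaf [1])) (.leaf [1]))) (.leaf [1])) (.split 1 (.leaf [0, 1]) (.split 2 (.split 1 (.split 0 (.leaf [1]) (.split 1 (.leaf [0, 1]) (.leaf [1]))) (.leaf [1])) (.split 0 (.leaf [1]) (.split 1 (.leaf [0, 1]) (.leaf [1])))))) (.split 1 (.leaf [1]) (.leaf [1]))) (.split 2 (.leaf [1]) (.leaf [1]))))) (.split 2 (.split 1 (.split 2 (.leaf [1]) (.split 0 (.split 1 (.split 2 (.split 2 (.leaf [1]) (.split 0 (.split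 1 (.leaf [0, 1]) (.leaf [1])) (.leaf [1]))) (.leaf [0, 1])) (.split 2 (.leaf [1]) (.split 0 (.split 1 (.split 2 (.leaf [1]) (.split 1 (.leaf [0, 1]) (.leaf [1]))) (.leaf [1])) (.split 2 (.leaf [1]) (.split 1 (.leaf [0, 1]) (.leaf [1])))))) (.split 1 (.leaf [1]) (.leaf [1])))) (.split 2 (.leaf [1]) (.split 0 (.leaf [1]) (.leaf [1])))) (.split 1 (.split 0 (.split 2 (.split 0 (.split 1 (.leaf [0, 1]) (.split 1 (.leaf [0, 1]) (.split 2 (.split 0 (.leaf [1]) (.split 2 (.leaf [1]) (.leaf [0, 1]))) (.leaf [0, 1])))) (.split 1 (.split 1 (.split 2 (.leaf [0, 1]) (.split 0 (.split 2 (.leaf [0, 1]) (.leaf [1])) (.leaf [1]))) (.leaf [0, 1])) (.leaf [0, 1]))) (.split 1 (.split 2 (.split 0 (.split 2 (.split 1 (.leaf [1]) (.leaf [0, 1])) (.leaf [1])) (.split 1 (.leaf [1]) (.split 2 (.split 1 (.leaf [1]) (.leaf [0, 1])) (.leaf [1])))) (.leaf [1])) (.split 2 (.leaf [0, 1]) (.split 2 (.split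 0 (.leaf [1]) (.split 1 (.leaf [1]) (.leaf [0, 1]))) (.leaf [1]))))) (.split 2 (.split 0 (.split 1 (.split 2 (.split 0 (.split 1 (.leaf [1]) (.leaf [0, 1])) (.leaf [1])) (.split 1 (.leaf [1]) (.split 0 (.split 1 (.leaf [1]) (.leaf [0, 1])) (.leaf [1])))) (.leaf [0, 1])) (.split 1 (.leaf [1]) (.split 0 (.split 2 (.leaf [1]) (.split 1 (.leaf [1]) (.leaf [0, 1]))) (.leaf [1])))) (.split 1 (.leaf [1]) (.split 0 (.split 2 (.split 1 (.split 0 (.split 2 (.leaf [0, 1]) (.leaf [1])) (.leaf [1])) (.leaf [0, 1])) (.split 1 (.leaf [1]) (.split 2 (.split 1 (.leaf [1]) (.leaf [0, 1])) (.leaf [1])))) (.split 1 (.leaf [1]) (.split 0 (.split 2 (.split 1 (.leaf [1]) (.leaf [0, 1])) (.leaf [1])) (.leaf [1]))))))) (.split 0 (.split 2 (.split 1 (.split 0 (.split 1 (.split 0 (.leaf [1]) (.split 2 (.leaf [1]) (.split 1 (.leaf [0, 1]) (.leaf [1])))) (.leaf [1])) (.split 2 (.split 1 (.split 2 (.leaf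 [1]) (.split 1 (.leaf [0, 1]) (.leaf [1]))) (.leaf [1])) (.split 1 (.leaf [0, 1]) (.split 0 (.leaf [1]) (.split 2 (.leaf [1]) (.leaf [0, 1])))))) (.leaf [1])) (.split 0 (.split 1 (.split 0 (.leaf [1]) (.split 2 (.split 1 (.leaf [0, 1]) (.leaf [1])) (.leaf [1]))) (.leaf [1])) (.split 1 (.leaf [0, 1]) (.split 2 (.split 1 (.split 0 (.leaf [1]) (.split 1 (.leaf [0, 1]) (.leaf [1]))) (.leaf [1])) (.split 0 (.leaf [1]) (.split 1 (.leaf [0, 1]) (.leaf [1]))))))) (.split 2 (.split 1 (.split 2 (.split 2 (.leaf [1]) (.split 0 (.split 1 (.leaf [0, 1]) (.leaf [1])) (.leaf [1]))) (.leaf [0, 1])) (.split 2 (.leaf [1]) (.split 0 (.split 1 (.split 2 (.leaf [1]) (.split 1 (.leaf [0, 1]) (.leaf [1]))) (.leaf [1])) (.split 2 (.leaf [1]) (.split 1 (.leaf [0, 1]) (.leaf [1])))))) (.split 0 (.split 1 (.leaf [0, 1]) (.split 1 (.leaf [0, 1]) (.split 2 (.split 0 (.leaf [1]) (.split 2 (.leaf [1]) (.leaf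 [0, 1]))) (.leaf [0, 1])))) (.split 1 (.split 1 (.split 2 (.leaf [0, 1]) (.split 0 (.split 2 (.leaf [0, 1]) (.leaf [1])) (.leaf [1]))) (.leaf [0, 1])) (.leaf [0, 1])))))))))))) (.split 1 (.split 2 (.split 0 (.leaf [1]) (.leaf [1])) (.leaf [1])) (.split 2 (.split 0 (.split 1 (.leaf [1]) (.leaf [1])) (.split 1 (.split 2 (.split 0 (.leaf [1]) (.leaf [1])) (.leaf [1])) (.split 2 (.split 0 (.split 1 (.leaf [1]) (.leaf [1])) (.split 1 (.split 2 (.split 0 (.leaf [1]) (.leaf [1])) (.leaf [1])) (.split 2 (.split 0 (.split 1 (.leaf [1]) (.leaf [1])) (.split 1 (.split 2 (.split 0 (.split 2 (.split 1 (.leaf [1]) (.leaf [0, 1])) (.leaf [1])) (.split 1 (.leaf [1]) (.split 2 (.split 1 (.leaf [1]) (.leaf [0, 1])) (.leaf [1])))) (.leaf [1])) (.split 2 (.leaf [0, 1]) (.split 2 (.split 0 (.leaf [1]) (.split 1 (.leaf [1]) (.leaf [0, 1]))) (.leaf [1]))))) (.leaf [1])))) (.leaf [1])))) (.leaf [1]))))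 (.split 2 (.split 0 (.split 1 (.split 2 (.leaf [1]) (.leaf [1])) (.split 2 (.split 1 (.leaf [1]) (.leaf [1])) (.split 0 (.split 1 (.split 2 (.leaf [1]) (.leaf [1])) (.split 2 (.split 1 (.leaf [1]) (.leaf [1])) (.split 0 (.split 1 (.split 2 (.leaf [1]) (.leaf [1])) (.split 2 (.split 1 (.leaf [1]) (.leaf [1])) (.split 0 (.split 1 (.split 2 (.split 0 (.split 1 (.leaf [1]) (.leaf [0, 1])) (.leaf [1])) (.split 1 (.leaf [1]) (.split 0 (.split 1 (.leaf [1]) (.leaf [0, 1])) (.leaf [1])))) (.leaf [0, 1])) (.split 1 (.leaf [1]) (.split 0 (.split 2 (.leaf [1]) (.split 1 (.leaf [1]) (.leaf [0, 1]))) (.leaf [1])))))) (.leaf [1])))) (.leaf [1])))) (.leaf [1])) (.split 1 (.leaf [1]) (.split 0 (.split 2 (.split 1 (.leaf [1]) (.split 0 (.split 2 (.split 1 (.leaf [1]) (.split 0 (.split 2 (.split 1 (.leaf [1]) (.split 0 (.split 2 (.split 1 (.split 0 (.split 2 (.leaf [0, 1]) (.leaf [1])) (.leaf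 [1])) (.leaf [0, 1])) (.split 1 (.leaf [1]) (.split 2 (.split 1 (.leaf [1]) (.leaf [0, 1])) (.leaf [1])))) (.split 1 (.leaf [1]) (.split 0 (.split 2 (.split 1 (.leaf [1]) (.leaf [0, 1])) (.leaf [1])) (.leaf [1]))))) (.leaf [1])) (.leaf [1]))) (.leaf [1])) (.leaf [1]))) (.leaf [1])) (.leaf [1]))))) (.split 0 (.split 2 (.split 1 (.split 0 (.leaf [1]) (.split 2 (.leaf [1]) (.split 1 (.split 0 (.leaf [1]) (.split 2 (.leaf [1]) (.split 1 (.split 0 (.leaf [1]) (.split 2 (.leaf [1]) (.split 1 (.split 0 (.split 1 (.split 0 (.leaf [1]) (.split 2 (.leaf [1]) (.split 1 (.leaf [0, 1]) (.leaf [1])))) (.leaf [1])) (.split 2 (.split 1 (.split 2 (.leaf [1]) (.split 1 (.leaf [0, 1]) (.leaf [1]))) (.leaf [1])) (.split 1 (.leaf [0, 1]) (.split 0 (.leaf [1]) (.split 2 (.leaf [1]) (.leaf [0, 1])))))) (.leaf [1])))) (.leaf [1])))) (.leaf [1])))) (.leaf [1])) (.split 0 (.leaf [1]) (.split 1 (.split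 2 (.split 0 (.leaf [1]) (.split 1 (.split 2 (.split 0 (.leaf [1]) (.split 1 (.split 2 (.split 0 (.split 1 (.split 0 (.leaf [1]) (.split 2 (.split 1 (.leaf [0, 1]) (.leaf [1])) (.leaf [1]))) (.leaf [1])) (.split 1 (.leaf [0, 1]) (.split 2 (.split 1 (.split 0 (.leaf [1]) (.split 1 (.leaf [0, 1]) (.leaf [1]))) (.leaf [1])) (.split 0 (.leaf [1]) (.split 1 (.leaf [0, 1]) (.leaf [1])))))) (.split 1 (.leaf [1]) (.leaf [1]))) (.split 2 (.leaf [1]) (.leaf [1])))) (.split 1 (.leaf [1]) (.leaf [1]))) (.split 2 (.leaf [1]) (.leaf [1])))) (.split 1 (.leaf [1]) (.leaf [1]))) (.split 2 (.leaf [1]) (.leaf [1]))))) (.split 2 (.split 1 (.split 2 (.leaf [1]) (.split 0 (.split 1 (.split 2 (.leaf [1]) (.split 0 (.split 1 (.split 2 (.leaf [1]) (.split 0 (.split 1 (.split 2 (.split 2 (.leaf [1]) (.split 0 (.split 1 (.leaf [0, 1]) (.leaf [1])) (.leaf [1]))) (.leaf [0, 1])) (.split 2 (.leaf [1]) (.split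 0 (.split 1 (.split 2 (.leaf [1]) (.split 1 (.leaf [0, 1]) (.leaf [1]))) (.leaf [1])) (.split 2 (.leaf [1]) (.split 1 (.leaf [0, 1]) (.leaf [1])))))) (.split 1 (.leaf [1]) (.leaf [1])))) (.split 2 (.leaf [1]) (.split 0 (.leaf [1]) (.leaf [1])))) (.split 1 (.leaf [1]) (.leaf [1])))) (.split 2 (.leaf [1]) (.split 0 (.leaf [1]) (.leaf [1])))) (.split 1 (.leaf [1]) (.leaf [1])))) (.split 2 (.leaf [1]) (.split 0 (.leaf [1]) (.leaf [1])))) (.split 1 (.split 0 (.split 2 (.split 1 (.split 0 (.split 2 (.split 1 (.split 0 (.split 2 (.split 0 (.split 1 (.leaf [0, 1]) (.split 1 (.leaf [0, 1]) (.split 2 (.split 0 (.leaf [1]) (.split 2 (.leaf [1]) (.leaf [0, 1]))) (.leaf [0, 1])))) (.split 1 (.split 1 (.split 2 (.leaf [0, 1]) (.split 0 (.split 2 (.leaf [0, 1]) (.leaf [1])) (.leaf [1]))) (.leaf [0, 1])) (.leaf [0, 1]))) (.split 1 (.split 2 (.split 0 (.split 2 (.split 1 (.leaf [1]) (.leaf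 [0, 1])) (.leaf [1])) (.split 1 (.leaf [1]) (.split 2 (.split 1 (.leaf [1]) (.leaf [0, 1])) (.leaf [1])))) (.leaf [1])) (.split 2 (.leaf [0, 1]) (.split 2 (.split 0 (.leaf [1]) (.split 1 (.leaf [1]) (.leaf [0, 1]))) (.leaf [1]))))) (.split 2 (.split 0 (.split 1 (.split 2 (.split 0 (.split 1 (.leaf [1]) (.leaf [0, 1])) (.leaf [1])) (.split 1 (.leaf [1]) (.split 0 (.split 1 (.leaf [1]) (.leaf [0, 1])) (.leaf [1])))) (.leaf [0, 1])) (.split 1 (.leaf [1]) (.split 0 (.split 2 (.leaf [1]) (.split 1 (.leaf [1]) (.leaf [0, 1]))) (.leaf [1])))) (.split 1 (.leaf [1]) (.split 0 (.split 2 (.split 1 (.split 0 (.split 2 (.leaf [0, 1]) (.leaf [1])) (.leaf [1])) (.leaf [0, 1])) (.split 1 (.leaf [1]) (.split 2 (.split 1 (.leaf [1]) (.leaf [0, 1])) (.leaf [1])))) (.split 1 (.leaf [1]) (.split 0 (.split 2 (.split 1 (.leaf [1]) (.leaf [0, 1])) (.leaf [1])) (.leaf [1]))))))) (.split 0 (.split 2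 (.split 1 (.split 0 (.split 1 (.split 0 (.leaf [1]) (.split 2 (.leaf [1]) (.split 1 (.leaf [0, 1]) (.leaf [1])))) (.leaf [1])) (.split 2 (.split 1 (.split 2 (.leaf [1]) (.split 1 (.leaf [0, 1]) (.leaf [1]))) (.leaf [1])) (.split 1 (.leaf [0, 1]) (.split 0 (.leaf [1]) (.split 2 (.leaf [1]) (.leaf [0, 1])))))) (.leaf [1])) (.split 0 (.split 1 (.split 0 (.leaf [1]) (.split 2 (.split 1 (.leaf [0, 1]) (.leaf [1])) (.leaf [1]))) (.leaf [1])) (.split 1 (.leaf [0, 1]) (.split 2 (.split 1 (.split 0 (.leaf [1]) (.split 1 (.leaf [0, 1]) (.leaf [1]))) (.leaf [1])) (.split 0 (.leaf [1]) (.split 1 (.leaf [0, 1]) (.leaf [1]))))))) (.split 2 (.split 1 (.split 2 (.split 2 (.leaf [1]) (.split 0 (.split 1 (.leaf [0, 1]) (.leaf [1])) (.leaf [1]))) (.leaf [0, 1])) (.split 2 (.leaf [1]) (.split 0 (.split 1 (.split 2 (.leaf [1]) (.split 1 (.leaf [0, 1]) (.leaf [1]))) (.leaf [1])) (.split 2 (.leaf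 [1]) (.split 1 (.leaf [0, 1]) (.leaf [1])))))) (.split 0 (.split 1 (.leaf [0, 1]) (.split 1 (.leaf [0, 1]) (.split 2 (.split 0 (.leaf [1]) (.split 2 (.leaf [1]) (.leaf [0, 1]))) (.leaf [0, 1])))) (.split 1 (.split 1 (.split 2 (.leaf [0, 1]) (.split 0 (.split 2 (.leaf [0, 1]) (.leaf [1])) (.leaf [1]))) (.leaf [0, 1])) (.leaf [0, 1])))))) (.split 1 (.split 2 (.split 0 (.leaf [1]) (.leaf [1])) (.leaf [1])) (.split 2 (.split 0 (.split 1 (.leaf [1]) (.leaf [1])) (.split 1 (.split 2 (.split 0 (.split 2 (.split 1 (.leaf [1]) (.leaf [0, 1])) (.leaf [1])) (.split 1 (.leaf [1]) (.split 2 (.split 1 (.leaf [1]) (.leaf [0, 1])) (.leaf [1])))) (.leaf [1])) (.split 2 (.leaf [0, 1]) (.split 2 (.split 0 (.leaf [1]) (.split 1 (.leaf [1]) (.leaf [0, 1]))) (.leaf [1]))))) (.leaf [1])))) (.split 2 (.split 0 (.split 1 (.split 2 (.leaf [1]) (.leaf [1])) (.split 2 (.split 1 (.leaf [1]) (.leaf [1]))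 (.split 0 (.split 1 (.split 2 (.split 0 (.split 1 (.leaf [1]) (.leaf [0, 1])) (.leaf [1])) (.split 1 (.leaf [1]) (.split 0 (.split 1 (.leaf [1]) (.leaf [0, 1])) (.leaf [1])))) (.leaf [0, 1])) (.split 1 (.leaf [1]) (.split 0 (.split 2 (.leaf [1]) (.split 1 (.leaf [1]) (.leaf [0, 1]))) (.leaf [1])))))) (.leaf [1])) (.split 1 (.leaf [1]) (.split 0 (.split 2 (.split 1 (.leaf [1]) (.split 0 (.split 2 (.split 1 (.split 0 (.split 2 (.leaf [0, 1]) (.leaf [1])) (.leaf [1])) (.leaf [0, 1])) (.split 1 (.leaf [1]) (.split 2 (.split 1 (.leaf [1]) (.leaf [0, 1])) (.leaf [1])))) (.split 1 (.leaf [1]) (.split 0 (.split 2 (.split 1 (.leaf [1]) (.leaf [0, 1])) (.leaf [1])) (.leaf [1]))))) (.leaf [1])) (.leaf [1]))))) (.split 0 (.split 2 (.split 1 (.split 0 (.leaf [1]) (.split 2 (.leaf [1]) (.split 1 (.split 0 (.split 1 (.split 0 (.leaf [1]) (.split 2 (.leaf [1]) (.split 1 (.leaf [0, 1]) (.leaf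 [1])))) (.leaf [1])) (.split 2 (.split 1 (.split 2 (.leaf [1]) (.split 1 (.leaf [0, 1]) (.leaf [1]))) (.leaf [1])) (.split 1 (.leaf [0, 1]) (.split 0 (.leaf [1]) (.split 2 (.leaf [1]) (.leaf [0, 1])))))) (.leaf [1])))) (.leaf [1])) (.split 0 (.leaf [1]) (.split 1 (.split 2 (.split 0 (.split 1 (.split 0 (.leaf [1]) (.split 2 (.split 1 (.leaf [0, 1]) (.leaf [1])) (.leaf [1]))) (.leaf [1])) (.split 1 (.leaf [0, 1]) (.split 2 (.split 1 (.split 0 (.leaf [1]) (.split 1 (.leaf [0, 1]) (.leaf [1]))) (.leaf [1])) (.split 0 (.leaf [1]) (.split 1 (.leaf [0, 1]) (.leaf [1])))))) (.split 1 (.leaf [1]) (.leaf [1]))) (.split 2 (.leaf [1]) (.leaf [1]))))) (.split 2 (.split 1 (.split 2 (.leaf [1]) (.split 0 (.split 1 (.split 2 (.split 2 (.leaf [1]) (.split 0 (.split 1 (.leaf [0, 1]) (.leaf [1])) (.leaf [1]))) (.leaf [0, 1])) (.split 2 (.leaf [1]) (.split 0 (.split 1 (.split 2 (.leaf [1]) (.split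 1 (.leaf [0, 1]) (.leaf [1]))) (.leaf [1])) (.split 2 (.leaf [1]) (.split 1 (.leaf [0, 1]) (.leaf [1])))))) (.split 1 (.leaf [1]) (.leaf [1])))) (.split 2 (.leaf [1]) (.split 0 (.leaf [1]) (.leaf [1])))) (.split 1 (.split 0 (.split 2 (.split 0 (.split 1 (.leaf [0, 1]) (.split 1 (.leaf [0, 1]) (.split 2 (.split 0 (.leaf [1]) (.split 2 (.leaf [1]) (.leaf [0, 1]))) (.leaf [0, 1])))) (.split 1 (.split 1 (.split 2 (.leaf [0, 1]) (.split 0 (.split 2 (.leaf [0, 1]) (.leaf [1])) (.leaf [1]))) (.leaf [0, 1])) (.leaf [0, 1]))) (.split 1 (.split 2 (.split 0 (.split 2 (.split 1 (.leaf [1]) (.leaf [0, 1])) (.leaf [1])) (.split 1 (.leaf [1]) (.split 2 (.split 1 (.leaf [1]) (.leaf [0, 1])) (.leaf [1])))) (.leaf [1])) (.split 2 (.leaf [0, 1]) (.split 2 (.split 0 (.leaf [1]) (.split 1 (.leaf [1]) (.leaf [0, 1]))) (.leaf [1]))))) (.split 2 (.split 0 (.split 1 (.split 2 (.split 0 (.split 1 (.leaf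 [1]) (.leaf [0, 1])) (.leaf [1])) (.split 1 (.leaf [1]) (.split 0 (.split 1 (.leaf [1]) (.leaf [0, 1])) (.leaf [1])))) (.leaf [0, 1])) (.split 1 (.leaf [1]) (.split 0 (.split 2 (.leaf [1]) (.split 1 (.leaf [1]) (.leaf [0, 1]))) (.leaf [1])))) (.split 1 (.leaf [1]) (.split 0 (.split 2 (.split 1 (.split 0 (.split 2 (.leaf [0, 1]) (.leaf [1])) (.leaf [1])) (.leaf [0, 1])) (.split 1 (.leaf [1]) (.split 2 (.split 1 (.leaf [1]) (.leaf [0, 1])) (.leaf [1])))) (.split 1 (.leaf [1]) (.split 0 (.split 2 (.split 1 (.leaf [1]) (.leaf [0, 1])) (.leaf [1])) (.leaf [1]))))))) (.split 0 (.split 2 (.split 1 (.split 0 (.split 1 (.split 0 (.leaf [1]) (.split 2 (.leaf [1]) (.split 1 (.leaf [0, 1]) (.leaf [1])))) (.leaf [1])) (.split 2 (.split 1 (.split 2 (.leaf [1]) (.split 1 (.leaf [0, 1]) (.leaf [1]))) (.leaf [1])) (.split 1 (.leaf [0, 1]) (.split 0 (.leaf [1]) (.split 2 (.leaf [1]) (.leaf [0,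 1])))))) (.leaf [1])) (.split 0 (.split 1 (.split 0 (.leaf [1]) (.split 2 (.split 1 (.leaf [0, 1]) (.leaf [1])) (.leaf [1]))) (.leaf [1])) (.split 1 (.leaf [0, 1]) (.split 2 (.split 1 (.split 0 (.leaf [1]) (.split 1 (.leaf [0, 1]) (.leaf [1]))) (.leaf [1])) (.split 0 (.leaf [1]) (.split 1 (.leaf [0, 1]) (.leaf [1]))))))) (.split 2 (.split 1 (.split 2 (.split 2 (.leaf [1]) (.split 0 (.split 1 (.leaf [0, 1]) (.leaf [1])) (.leaf [1]))) (.leaf [0, 1])) (.split 2 (.leaf [1]) (.split 0 (.split 1 (.split 2 (.leaf [1]) (.split 1 (.leaf [0, 1]) (.leaf [1]))) (.leaf [1])) (.split 2 (.leaf [1]) (.split 1 (.leaf [0, 1]) (.leaf [1])))))) (.split 0 (.split 1 (.leaf [0, 1]) (.split 1 (.leaf [0, 1]) (.split 2 (.split 0 (.leaf [1]) (.split 2 (.leaf [1]) (.leaf [0, 1]))) (.leaf [0, 1])))) (.split 1 (.split 1 (.split 2 (.leaf [0, 1]) (.split 0 (.split 2 (.leaf [0, 1]) (.leaf [1])) (.leaf [1])))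 (.leaf [0, 1])) (.leaf [0, 1]))))))))) (.split 1 (.split 2 (.split 0 (.leaf [1]) (.leaf [1])) (.leaf [1])) (.split 2 (.split 0 (.split 1 (.leaf [1]) (.leaf [1])) (.split 1 (.split 2 (.split 0 (.leaf [1]) (.leaf [1])) (.leaf [1])) (.split 2 (.split 0 (.split 1 (.leaf [1]) (.leaf [1])) (.split 1 (.split 2 (.split 0 (.split 2 (.split 1 (.leaf [1]) (.leaf [0, 1])) (.leaf [1])) (.split 1 (.leaf [1]) (.split 2 (.split 1 (.leaf [1]) (.leaf [0, 1])) (.leaf [1])))) (.leaf [1])) (.split 2 (.leaf [0, 1]) (.split 2 (.split 0 (.leaf [1]) (.split 1 (.leaf [1]) (.leaf [0, 1]))) (.leaf [1]))))) (.leaf [1])))) (.leaf [1])))) (.split 2 (.split 0 (.split 1 (.split 2 (.leaf [1]) (.leaf [1])) (.split 2 (.split 1 (.leaf [1]) (.leaf [1])) (.split 0 (.split 1 (.split 2 (.leaf [1]) (.leaf [1])) (.split 2 (.split 1 (.leaf [1]) (.leaf [1])) (.split 0 (.split 1 (.split 2 (.split 0 (.split 1 (.leaf [1])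 (.leaf [0, 1])) (.leaf [1])) (.split 1 (.leaf [1]) (.split 0 (.split 1 (.leaf [1]) (.leaf [0, 1])) (.leaf [1])))) (.leaf [0, 1])) (.split 1 (.leaf [1]) (.split 0 (.split 2 (.leaf [1]) (.split 1 (.leaf [1]) (.leaf [0, 1]))) (.leaf [1])))))) (.leaf [1])))) (.leaf [1])) (.split 1 (.leaf [1]) (.split 0 (.split 2 (.split 1 (.leaf [1]) (.split 0 (.split 2 (.split 1 (.leaf [1]) (.split 0 (.split 2 (.split 1 (.split 0 (.split 2 (.leaf [0, 1]) (.leaf [1])) (.leaf [1])) (.leaf [0, 1])) (.split 1 (.leaf [1]) (.split 2 (.split 1 (.leaf [1]) (.leaf [0, 1])) (.leaf [1])))) (.split 1 (.leaf [1]) (.split 0 (.split 2 (.split 1 (.leaf [1]) (.leaf [0, 1])) (.leaf [1])) (.leaf [1]))))) (.leaf [1])) (.leaf [1]))) (.leaf [1])) (.leaf [1]))))) (.split 0 (.split 2 (.split 1 (.split 0 (.leaf [1]) (.split 2 (.leaf [1]) (.split 1 (.split 0 (.leaf [1]) (.split 2 (.leaf [1]) (.split 1 (.split 0 (.split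 1 (.split 0 (.leaf [1]) (.split 2 (.leaf [1]) (.split 1 (.leaf [0, 1]) (.leaf [1])))) (.leaf [1])) (.split 2 (.split 1 (.split 2 (.leaf [1]) (.split 1 (.leaf [0, 1]) (.leaf [1]))) (.leaf [1])) (.split 1 (.leaf [0, 1]) (.split 0 (.leaf [1]) (.split 2 (.leaf [1]) (.leaf [0, 1])))))) (.leaf [1])))) (.leaf [1])))) (.leaf [1])) (.split 0 (.leaf [1]) (.split 1 (.split 2 (.split 0 (.leaf [1]) (.split 1 (.split 2 (.split 0 (.split 1 (.split 0 (.leaf [1]) (.split 2 (.split 1 (.leaf [0, 1]) (.leaf [1])) (.leaf [1]))) (.leaf [1])) (.split 1 (.leaf [0, 1]) (.split 2 (.split 1 (.split 0 (.leaf [1]) (.split 1 (.leaf [0, 1]) (.leaf [1]))) (.leaf [1])) (.split 0 (.leaf [1]) (.split 1 (.leaf [0, 1]) (.leaf [1])))))) (.split 1 (.leaf [1]) (.leaf [1]))) (.split 2 (.leaf [1]) (.leaf [1])))) (.split 1 (.leaf [1]) (.leaf [1]))) (.split 2 (.leaf [1]) (.leaf [1]))))) (.split 2 (.split 1 (.split 2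 (.leaf [1]) (.split 0 (.split 1 (.split 2 (.leaf [1]) (.split 0 (.split 1 (.split 2 (.split 2 (.leaf [1]) (.split 0 (.split 1 (.leaf [0, 1]) (.leaf [1])) (.leaf [1]))) (.leaf [0, 1])) (.split 2 (.leaf [1]) (.split 0 (.split 1 (.split 2 (.leaf [1]) (.split 1 (.leaf [0, 1]) (.leaf [1]))) (.leaf [1])) (.split 2 (.leaf [1]) (.split 1 (.leaf [0, 1]) (.leaf [1])))))) (.split 1 (.leaf [1]) (.leaf [1])))) (.split 2 (.leaf [1]) (.split 0 (.leaf [1]) (.leaf [1])))) (.split 1 (.leaf [1]) (.leaf [1])))) (.split 2 (.leaf [1]) (.split 0 (.leaf [1]) (.leaf [1])))) (.split 1 (.split 0 (.split 2 (.split 1 (.split 0 (.split 2 (.split 0 (.split 1 (.leaf [0, 1]) (.split 1 (.leaf [0, 1]) (.split 2 (.split 0 (.leaf [1]) (.split 2 (.leaf [1]) (.leaf [0, 1]))) (.leaf [0, 1])))) (.split 1 (.split 1 (.split 2 (.leaf [0, 1]) (.split 0 (.split 2 (.leaf [0, 1]) (.leaf [1])) (.leaf [1]))) (.leaf [0, 1]))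 (.leaf [0, 1]))) (.split 1 (.split 2 (.split 0 (.split 2 (.split 1 (.leaf [1]) (.leaf [0, 1])) (.leaf [1])) (.split 1 (.leaf [1]) (.split 2 (.split 1 (.leaf [1]) (.leaf [0, 1])) (.leaf [1])))) (.leaf [1])) (.split 2 (.leaf [0, 1]) (.split 2 (.split 0 (.leaf [1]) (.split 1 (.leaf [1]) (.leaf [0, 1]))) (.leaf [1]))))) (.split 2 (.split 0 (.split 1 (.split 2 (.split 0 (.split 1 (.leaf [1]) (.leaf [0, 1])) (.leaf [1])) (.split 1 (.leaf [1]) (.split 0 (.split 1 (.leaf [1]) (.leaf [0, 1])) (.leaf [1])))) (.leaf [0, 1])) (.split 1 (.leaf [1]) (.split 0 (.split 2 (.leaf [1]) (.split 1 (.leaf [1]) (.leaf [0, 1]))) (.leaf [1])))) (.split 1 (.leaf [1]) (.split 0 (.split 2 (.split 1 (.split 0 (.split 2 (.leaf [0, 1]) (.leaf [1])) (.leaf [1])) (.leaf [0, 1])) (.split 1 (.leaf [1]) (.split 2 (.split 1 (.leaf [1]) (.leaf [0, 1])) (.leaf [1])))) (.split 1 (.leaf [1]) (.split 0 (.split 2 (.split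 1 (.leaf [1]) (.leaf [0, 1])) (.leaf [1])) (.leaf [1]))))))) (.split 0 (.split 2 (.split 1 (.split 0 (.split 1 (.split 0 (.leaf [1]) (.split 2 (.leaf [1]) (.split 1 (.leaf [0, 1]) (.leaf [1])))) (.leaf [1])) (.split 2 (.split 1 (.split 2 (.leaf [1]) (.split 1 (.leaf [0, 1]) (.leaf [1]))) (.leaf [1])) (.split 1 (.leaf [0, 1]) (.split 0 (.leaf [1]) (.split 2 (.leaf [1]) (.leaf [0, 1])))))) (.leaf [1])) (.split 0 (.split 1 (.split 0 (.leaf [1]) (.split 2 (.split 1 (.leaf [0, 1]) (.leaf [1])) (.leaf [1]))) (.leaf [1])) (.split 1 (.leaf [0, 1]) (.split 2 (.split 1 (.split 0 (.leaf [1]) (.split 1 (.leaf [0, 1]) (.leaf [1]))) (.leaf [1])) (.split 0 (.leaf [1]) (.split 1 (.leaf [0, 1]) (.leaf [1]))))))) (.split 2 (.split 1 (.split 2 (.split 2 (.leaf [1]) (.split 0 (.split 1 (.leaf [0, 1]) (.leaf [1])) (.leaf [1]))) (.leaf [0, 1])) (.split 2 (.leaf [1]) (.split 0 (.split 1 (.split 2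 (.leaf [1]) (.split 1 (.leaf [0, 1]) (.leaf [1]))) (.leaf [1])) (.split 2 (.leaf [1]) (.split 1 (.leaf [0, 1]) (.leaf [1])))))) (.split 0 (.split 1 (.leaf [0, 1]) (.split 1 (.leaf [0, 1]) (.split 2 (.split 0 (.leaf [1]) (.split 2 (.leaf [1]) (.leaf [0, 1]))) (.leaf [0, 1])))) (.split 1 (.split 1 (.split 2 (.leaf [0, 1]) (.split 0 (.split 2 (.leaf [0, 1]) (.leaf [1])) (.leaf [1]))) (.leaf [0, 1])) (.leaf [0, 1])))))) (.split 1 (.split 2 (.split 0 (.leaf [1]) (.leaf [1])) (.leaf [1])) (.split 2 (.split 0 (.split 1 (.leaf [1]) (.leaf [1])) (.split 1 (.split 2 (.split 0 (.split 2 (.split 1 (.leaf [1]) (.leaf [0, 1])) (.leaf [1])) (.split 1 (.leaf [1]) (.split 2 (.split 1 (.leaf [1]) (.leaf [0, 1])) (.leaf [1])))) (.leaf [1])) (.split 2 (.leaf [0, 1]) (.split 2 (.split 0 (.leaf [1]) (.split 1 (.leaf [1]) (.leaf [0, 1]))) (.leaf [1]))))) (.leaf [1])))) (.split 2 (.split 0 (.split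 1 (.split 2 (.leaf [1]) (.leaf [1])) (.split 2 (.split 1 (.leaf [1]) (.leaf [1])) (.split 0 (.split 1 (.split 2 (.split 0 (.split 1 (.leaf [1]) (.leaf [0, 1])) (.leaf [1])) (.split 1 (.leaf [1]) (.split 0 (.split 1 (.leaf [1]) (.leaf [0, 1])) (.leaf [1])))) (.leaf [0, 1])) (.split 1 (.leaf [1]) (.split 0 (.split 2 (.leaf [1]) (.split 1 (.leaf [1]) (.leaf [0, 1]))) (.leaf [1])))))) (.leaf [1])) (.split 1 (.leaf [1]) (.split 0 (.split 2 (.split 1 (.leaf [1]) (.split 0 (.split 2 (.split 1 (.split 0 (.split 2 (.leaf [0, 1]) (.leaf [1])) (.leaf [1])) (.leaf [0, 1])) (.split 1 (.leaf [1]) (.split 2 (.split 1 (.leaf [1]) (.leaf [0, 1])) (.leaf [1])))) (.split 1 (.leaf [1]) (.split 0 (.split 2 (.split 1 (.leaf [1]) (.leaf [0, 1])) (.leaf [1])) (.leaf [1]))))) (.leaf [1])) (.leaf [1]))))) (.split 0 (.split 2 (.split 1 (.split 0 (.leaf [1]) (.split 2 (.leaf [1]) (.split 1 (.split 0 (.split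 1 (.split 0 (.leaf [1]) (.split 2 (.leaf [1]) (.split 1 (.leaf [0, 1]) (.leaf [1])))) (.leaf [1])) (.split 2 (.split 1 (.split 2 (.leaf [1]) (.split 1 (.leaf [0, 1]) (.leaf [1]))) (.leaf [1])) (.split 1 (.leaf [0, 1]) (.split 0 (.leaf [1]) (.split 2 (.leaf [1]) (.leaf [0, 1])))))) (.leaf [1])))) (.leaf [1])) (.split 0 (.leaf [1]) (.split 1 (.split 2 (.split 0 (.split 1 (.split 0 (.leaf [1]) (.split 2 (.split 1 (.leaf [0, 1]) (.leaf [1])) (.leaf [1]))) (.leaf [1])) (.split 1 (.leaf [0, 1]) (.split 2 (.split 1 (.split 0 (.leaf [1]) (.split 1 (.leaf [0, 1]) (.leaf [1]))) (.leaf [1])) (.split 0 (.leaf [1]) (.split 1 (.leaf [0, 1]) (.leaf [1])))))) (.split 1 (.leaf [1]) (.leaf [1]))) (.split 2 (.leaf [1]) (.leaf [1]))))) (.split 2 (.split 1 (.split 2 (.leaf [1]) (.split 0 (.split 1 (.split 2 (.split 2 (.leaf [1]) (.split 0 (.split 1 (.leaf [0, 1]) (.leaf [1])) (.leaf [1]))) (.leaf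 [0, 1])) (.split 2 (.leaf [1]) (.split 0 (.split 1 (.split 2 (.leaf [1]) (.split 1 (.leaf [0, 1]) (.leaf [1]))) (.leaf [1])) (.split 2 (.leaf [1]) (.split 1 (.leaf [0, 1]) (.leaf [1])))))) (.split 1 (.leaf [1]) (.leaf [1])))) (.split 2 (.leaf [1]) (.split 0 (.leaf [1]) (.leaf [1])))) (.split 1 (.split 0 (.split 2 (.split 0 (.split 1 (.leaf [0, 1]) (.split 1 (.leaf [0, 1]) (.split 2 (.split 0 (.leaf [1]) (.split 2 (.leaf [1]) (.leaf [0, 1]))) (.leaf [0, 1])))) (.split 1 (.split 1 (.split 2 (.leaf [0, 1]) (.split 0 (.split 2 (.leaf [0, 1]) (.leaf [1])) (.leaf [1]))) (.leaf [0, 1])) (.leaf [0, 1]))) (.split 1 (.split 2 (.split 0 (.split 2 (.split 1 (.leaf [1]) (.leaf [0, 1])) (.leaf [1])) (.split 1 (.leaf [1]) (.split 2 (.split 1 (.leaf [1]) (.leaf [0, 1])) (.leaf [1])))) (.leaf [1])) (.split 2 (.leaf [0, 1]) (.split 2 (.split 0 (.leaf [1]) (.split 1 (.leaf [1]) (.leaf [0, 1])))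 (.leaf [1]))))) (.split 2 (.split 0 (.split 1 (.split 2 (.split 0 (.split 1 (.leaf [1]) (.leaf [0, 1])) (.leaf [1])) (.split 1 (.leaf [1]) (.split 0 (.split 1 (.leaf [1]) (.leaf [0, 1])) (.leaf [1])))) (.leaf [0, 1])) (.split 1 (.leaf [1]) (.split 0 (.split 2 (.leaf [1]) (.split 1 (.leaf [1]) (.leaf [0, 1]))) (.leaf [1])))) (.split 1 (.leaf [1]) (.split 0 (.split 2 (.split 1 (.split 0 (.split 2 (.leaf [0, 1]) (.leaf [1])) (.leaf [1])) (.leaf [0, 1])) (.split 1 (.leaf [1]) (.split 2 (.split 1 (.leaf [1]) (.leaf [0, 1])) (.leaf [1])))) (.split 1 (.leaf [1]) (.split 0 (.split 2 (.split 1 (.leaf [1]) (.leaf [0, 1])) (.leaf [1])) (.leaf [1]))))))) (.split 0 (.split 2 (.split 1 (.split 0 (.split 1 (.split 0 (.leaf [1]) (.split 2 (.leaf [1]) (.split 1 (.leaf [0, 1]) (.leaf [1])))) (.leaf [1])) (.split 2 (.split 1 (.split 2 (.leaf [1]) (.split 1 (.leaf [0, 1]) (.leaf [1]))) (.leaf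 [1])) (.split 1 (.leaf [0, 1]) (.split 0 (.leaf [1]) (.split 2 (.leaf [1]) (.leaf [0, 1])))))) (.leaf [1])) (.split 0 (.split 1 (.split 0 (.leaf [1]) (.split 2 (.split 1 (.leaf [0, 1]) (.leaf [1])) (.leaf [1]))) (.leaf [1])) (.split 1 (.leaf [0, 1]) (.split 2 (.split 1 (.split 0 (.leaf [1]) (.split 1 (.leaf [0, 1]) (.leaf [1]))) (.leaf [1])) (.split 0 (.leaf [1]) (.split 1 (.leaf [0, 1]) (.leaf [1]))))))) (.split 2 (.split 1 (.split 2 (.split 2 (.leaf [1]) (.split 0 (.split 1 (.leaf [0, 1]) (.leaf [1])) (.leaf [1]))) (.leaf [0, 1])) (.split 2 (.leaf [1]) (.split 0 (.split 1 (.split 2 (.leaf [1]) (.split 1 (.leaf [0, 1]) (.leaf [1]))) (.leaf [1])) (.split 2 (.leaf [1]) (.split 1 (.leaf [0, 1]) (.leaf [1])))))) (.split 0 (.split 1 (.leaf [0, 1]) (.split 1 (.leaf [0, 1]) (.split 2 (.split 0 (.leaf [1]) (.split 2 (.leaf [1]) (.leaf [0, 1]))) (.leaf [0, 1])))) (.split 1 (.split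 1 (.split 2 (.leaf [0, 1]) (.split 0 (.split 2 (.leaf [0, 1]) (.leaf [1])) (.leaf [1]))) (.leaf [0, 1])) (.leaf [0, 1])))))))))))))))
theorem chk1 : check 100 1 [2, 2, 2] [(0,1,1),(0,1,1),(0,1,1)] [(tp0, tm0), (tp1, tm1)] tr1 = true := by decide +kernel
end Pool.Agent.Lib.BoxPos
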