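import Pool.Agent.Lib.BoxPos.Pack

/-! Substitution in one variable on packed numbers. -/

namespace Pool.Agent.Lib.BoxPos

open Finset Polynomial

/-- coefficient of `X ^ l` in `u ^ e * v ^ (d - e)` -/
noncomputable def cf (u v : ℕ[X]) (d e l : ℕ) : ℕ := (u ^ e * v ^ (d - e)).coeff l

lemma sum_cf {R : Type*} [CommSemiring R] {u v : ℕ[X]} (hu : u.natDegree ≤ 1)
    (hv : v.natDegree ≤ 1) {d e : ℕ} (he : e < d + 1) (z : R) :
    ∑ l ∈ range (d + 1), (cf u v d e l : R) * z ^ l = (aeval z u) ^ e * (aeval z v) ^ (d - e) := by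
  have h1 : (u ^ e * v ^ (d - e)).natDegree < d + 1 := by
    have h2 : (u ^ e * v ^ (d - e)).natDegree ≤ e + (d - e) := by
      refine natDegree_mul_le.trans (add_le_add ?_ ?_)
      · refine natDegree_pow_le.trans ?_
        calc e * u.natDegree ≤ e * 1 := Nat.mul_le_mul_left _ hu
          _ = e := mul_one e
      · refine natDegree_pow_le.trans ?_
        calc (d - e) * v.natDegree ≤ (d - e) * 1 := Nat.mul_le_mul_left _ hv
          _ = d - e := mul_one _
    omega
  have h3 : aeval z (u ^ e * v ^ (d - e)) = (aeval z u) ^ e * (aeval z v) ^ (d - e) := by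
    simp
  rw [← h3, aeval_eq_sum_range' h1]
  refine sum_congr rfl fun l _ => ?_
  rw [cf, nsmul_eq_mul]

/-- digit function after substitution -/
noncomputable def tr (s : ℕ) (u v : ℕ[X]) (d : ℕ) (c : ℕ → ℕ) (n : ℕ) : ℕ :=
  ∑ e ∈ range (d + 1), cf u v d e (n / s % (d + 1)) *
    c (n / ((d + 1) * s) * ((d + 1) * s) + (e * s + n % s))

lemma tr_sum {R : Type*} [CommSemiring R] {u v : ℕ[X]} (hu : u.natDegree ≤ 1)
    (hv : v.natDegree ≤ 1) {d s H : ℕ} (c : ℕ → ℕ) (W : ℕ → R) (V : ℕ → ℕ → R) (z : R)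
    (hW : ∀ h < H, ∀ l < d + 1, ∀ o < s, W (h * ((d + 1) * s) + (l * s + o)) = z ^ l * V h o) :
    ∑ n ∈ range (H * ((d + 1) * s)), (tr s u v d c n : R) * W n =
      ∑ e ∈ range (d + 1), ((∑ h ∈ range H, ∑ o ∈ range s,
        (c (h * ((d + 1) * s) + (e * s + o)) : R) * V h o) *
          ((aeval z u) ^ e * (aeval z v) ^ (d - e))) := by
  rw [sum_idx]
  have h1 : ∀ h ∈ range H, ∑ l ∈ range (d + 1), ∑ o ∈ range s,
      (tr s u v d c (h * ((d + 1) * s) + (l * s + o)) : R) *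
        W (h * ((d + 1) * s) + (l * s + o)) =
      ∑ e ∈ range (d + 1), ∑ o ∈ range s, (c (h * ((d + 1) * s) + (e * s + o)) : R) * V h o *
        ((aeval z u) ^ e * (aeval z v) ^ (d - e)) := by
    intro h hh
    rw [mem_range] at hh
    have h2 : ∀ l ∈ range (d + 1), ∑ o ∈ range s,
        (tr s u v d c (h * ((d + 1) * s) + (l * s + o)) : R) *
          W (h * ((d + 1) * s) + (l * s + o)) =
        ∑ e ∈ range (d + 1), ∑ o ∈ range s, (c (h * ((d + 1) * s) + (e * s + o)) : R) * V h o *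
          ((cf u v d e l : R) * z ^ l) := by
      intro l hl
      rw [mem_range] at hl
      rw [sum_comm]
      refine sum_congr rfl fun o ho => ?_
      rw [mem_range] at ho
      rw [hW h hh l hl o ho, tr, idx_div_mod ho hl, idx_div_div ho hl, idx_mod ho]
      push_cast
      rw [sum_mul]
      refine sum_congr rfl fun e _ => ?_
      ring
    rw [sum_congr rfl h2, sum_comm]
    refine sum_congr rfl fun e he => ?_
    rw [sum_comm]
    refine sum_congr rfl fun o _ => ?_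
    rw [← mul_sum, sum_cf hu hv (mem_range.1 he)]
  rw [sum_congr rfl h1, sum_comm]
  refine sum_congr rfl fun e _ => ?_
  rw [sum_mul]
  refine sum_congr rfl fun h _ => ?_
  rw [sum_mul]

/-- the same for the digits themselves -/
lemma id_sum {R : Type*} [CommSemiring R] {d s H : ℕ} (c : ℕ → ℕ) (W : ℕ → R)
    (V : ℕ → ℕ → R) (z : R)
    (hW : ∀ h < H, ∀ l < d + 1, ∀ o < s, W (h * ((d + 1) * s) + (l * s + o)) = z ^ l * V h o) :
    ∑ n ∈ range (H * ((d + 1) * s)), (c n : R) * W n =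
      ∑ e ∈ range (d + 1), ((∑ h ∈ range H, ∑ o ∈ range s,
        (c (h * ((d + 1) * s) + (e * s + o)) : R) * V h o) * z ^ e) := by
  rw [sum_idx, sum_comm]
  refine sum_congr rfl fun e he => ?_
  rw [sum_mul]
  refine sum_congr rfl fun h hh => ?_
  rw [sum_mul]
  refine sum_congr rfl fun o ho => ?_
  rw [hW h (mem_range.1 hh) e (mem_range.1 he) o (mem_range.1 ho)]
  ring

lemma slc_nil (ws mask N sh : ℕ) : slc ws mask N [] sh = 0 := rfl

lemma slc_cons (ws mask N A : ℕ) (T : List ℕ) (sh : ℕ) :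
    slc ws mask N (A :: T) sh =
      Nat.land (Nat.shiftRight N sh) mask * A + slc ws mask N T (sh + ws) := rfl

lemma slc_tab (ws mask N u v : ℕ) : ∀ (r e sh : ℕ),
    slc ws mask N (tab u v e r) sh =
      ∑ i ∈ range (r + 1), Nat.land (Nat.shiftRight N (sh + ws * i)) mask *
        (u ^ (e + i) * v ^ (r - i))
  | 0, e, sh => by
      simp [tab, slc_cons, slc_nil]
  | r + 1, e, sh => by
      rw [tab, slc_cons, slc_tab ws mask N u v r (e + 1) (sh + ws), sum_range_succ' _ (r + 1)]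
      rw [add_comm]
      congr 1
      refine sum_congr rfl fun i hi => ?_
      have h1 : sh + ws + ws * i = sh + ws * (i + 1) := by ring
      have h2 : e + 1 + i = e + (i + 1) := by ring
      have h3 : r + 1 - (i + 1) = r - i := by omega
      rw [h1, h2, h3]

/-- the substitution on packed numbers -/
lemma slc_pk {w s d H : ℕ} (hw : 0 < w) (hs : 0 < s) {u v : ℕ[X]} (hu : u.natDegree ≤ 1)
    (hv : v.natDegree ≤ 1) {c : ℕ → ℕ} (hc : ∀ n < H * ((d + 1) * s), c n < 2 ^ w)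
    {U V : ℕ} (hU : U = aeval (2 ^ (w * s) : ℕ) u) (hV : V = aeval (2 ^ (w * s) : ℕ) v) :
    slc (w * s) ((2 ^ (w * s) - 1) * ones (w * s * (d + 1)) H) (pk w c (H * ((d + 1) * s)))
      (tab U V 0 d) 0 = pk w (tr s u v d c) (H * ((d + 1) * s)) := by
  rw [slc_tab]
  have h1 := tr_sum (R := ℕ) hu hv (d := d) (s := s) (H := H) c (fun n => 2 ^ (w * n))
    (fun h o => 2 ^ (w * (h * ((d + 1) * s) + o))) (2 ^ (w * s)) (by
      intro h _ l _ o _
      rw [← pow_mul, ← pow_add]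
      congr 1
      ring)
  unfold pk
  simp only [Nat.cast_id] at h1
  rw [h1]
  refine sum_congr rfl fun e he => ?_
  rw [mem_range] at he
  have h2 := land_mask (H := H) hw hs he hc
  unfold pk at h2
  rw [zero_add, zero_add, h2, ← hU, ← hV]

lemma tr_sum_le {u v : ℕ[X]} (hu : u.natDegree ≤ 1) (hv : v.natDegree ≤ 1)
    (hu1 : aeval (1 : ℕ) u ≤ 3) (hv1 : aeval (1 : ℕ) v ≤ 3) {d s H : ℕ} (c : ℕ → ℕ) :
    ∑ n ∈ range (H * ((d + 1) * s)), tr s u v d c n ≤
      (∑ n ∈ range (H * ((d + 1) * s)), c n) * 3 ^ d := by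
  have h1 := tr_sum (R := ℕ) hu hv (d := d) (s := s) (H := H) c (fun _ => 1) (fun _ _ => 1) 1
    (by intro h _ l _ o _; simp only [one_pow, mul_one])
  have h2 := id_sum (R := ℕ) (d := d) (s := s) (H := H) c (fun _ => 1) (fun _ _ => 1) 1
    (by intro h _ l _ o _; simp only [one_pow, mul_one])
  simp only [Nat.cast_id, mul_one, one_pow] at h1 h2
  rw [h1, h2, sum_mul]
  refine sum_le_sum fun e he => ?_
  rw [mem_range] at he
  refine Nat.mul_le_mul_left _ ?_
  calc (aeval (1 : ℕ) u) ^ e * (aeval (1 : ℕ) v) ^ (d - e) ≤ 3 ^ e * 3 ^ (d - e) :=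
        Nat.mul_le_mul (Nat.pow_le_pow_left hu1 _) (Nat.pow_le_pow_left hv1 _)
    _ = 3 ^ d := by rw [← pow_add]; congr 1; omega

end Pool.Agent.Lib.BoxPos
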